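import Mathlib

set_option autoImplicit false

namespace Pool.MP_b7b920_al

/-- `K` is generated by a finite subgroup together with `n` elements -/
def GenBy (n : ℕ) (K : Type*) [Group K] : Prop :=
  ∃ E : Subgroup K, Finite E ∧ ∃ f : Fin n → K,
    Subgroup.closure ((E : Set K) ∪ Set.range f) = ⊤

end Pool.MP_b7b920_al
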