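import Mathlib
import Pool.Agent.Lib.MP_b7b920_al_CT.Defs
import Pool.Agent.Lib.MP_b7b920_al_helper12.RGL

set_option autoImplicit false

namespace Pool.MP_b7b920_al.CT

open Module Pool.MP_b7b920_al.H19

/-- helper12's relative Gaschuetz lemma in the form used by the crystallographic theorem -/
theorem RGL {Γ : Type} [Group Γ] [Group.IsSolvable Γ] (E : Subgroup Γ) (N0 N : Subgroup Γ)
    [hN0 : N0.Normal] [hN : N.Normal]
    (hle : N0 ≤ N) (hfin : N0.index ≠ 0) (s : ℕ) (x : Fin s → Γ)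
    (hx : Subgroup.closure ((E : Set Γ) ∪ Set.range x ∪ (N : Set Γ)) = ⊤)
    (hM : ∀ (M : Type) [AddCommGroup M] [Finite M] [DistribMulAction Γ M], Simple Γ M →
      (∀ n ∈ N0, ∀ m : M, n • m = m) →
      (∃ (N1 : Subgroup Γ) (_ : N1.Normal) (_ : N0 ≤ N1) (_ : N1 ≤ N)
        (φ : N1 →* Multiplicative M), Function.Surjective φ ∧ (∀ n : N1, (n : Γ) ∈ N0 → φ n = 1) ∧
        ∀ (g : Γ) (n : N1) (hn : g * n * g⁻¹ ∈ N1),
          φ ⟨g * n * g⁻¹, hn⟩ = Multiplicative.ofAdd (g • (φ n).toAdd)) →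
      Finite (DerSet Γ M ((E : Set Γ) ∪ (N0 : Set Γ))) ∧
      Nat.card (DerSet Γ M ((E : Set Γ) ∪ (N0 : Set Γ))) ≤ Nat.card M ^ s) :
    ∃ n : Fin s → Γ, (∀ i, n i ∈ N) ∧
      Subgroup.closure ((E : Set Γ) ∪ Set.range (fun i => x i * n i) ∪ (N0 : Set Γ)) = ⊤ := by
  obtain ⟨n, hn1, hn2⟩ := Pool.B7h12.rgl hN0 hN hle hfin E x
    (by rw [← hx]; congr 1; ext z; simp only [Set.mem_union]; tauto) (by
      intro M _ _ _ c
      right
      have htriv : ∀ n ∈ N0, ∀ m : M, n • m = m := by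
        intro n hn m
        obtain ⟨k, hk⟩ := c.surj (Multiplicative.ofAdd m)
        have h1 := c.conj n k
        have hnN1 : n ∈ c.N₁ := c.le hn
        have h2 : (⟨n * k * n⁻¹, c.normal.conj_mem _ k.2 n⟩ : c.N₁) =
            ⟨n, hnN1⟩ * k * ⟨n, hnN1⟩⁻¹ := Subtype.ext rfl
        rw [h2, map_mul, map_mul, map_inv, c.ker ⟨n, hnN1⟩ hn, one_mul, inv_one, mul_one, hk] at h1
        exact (Multiplicative.ofAdd.injective h1).symm
      have h := hM M ⟨c.nontriv, c.simple⟩ htriv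
        ⟨c.N₁, c.normal, c.le, c.le', c.φ, c.surj, c.ker, fun g n _ => c.conj g n⟩
      have h3 := h.2
      rw [Nat.card_coe_set_eq] at h3
      exact h3)
  refine ⟨n, hn1, ?_⟩
  rw [← hn2]
  congr 1
  ext z
  simp only [Set.mem_union]
  tauto

end Pool.MP_b7b920_al.CT
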