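import Mathlib

set_option autoImplicit false

namespace Pool.MP_b7b920_al.H55

open Subgroup

/-- every finitely generated subgroup of `G` is generated by at most `r` elements -/
def RankLE (r : ℕ) (G : Type*) [Group G] : Prop :=
  ∀ K : Subgroup G, K.FG → ∃ s : Finset G, s.card ≤ r ∧ Subgroup.closure (s : Set G) = K

theorem fg_map {G G' : Type*} [Group G] [Group G'] (f : G →* G') {K : Subgroup G} (hK : K.FG) :
    (K.map f).FG := by
  classical
  obtain ⟨t, ht⟩ := hK
  exact ⟨t.image f, by rw [Finset.coe_image, ← MonoidHom.map_closure, ht]⟩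

theorem RankLE.of_injective {r : ℕ} {G G' : Type*} [Group G] [Group G'] (f : G' →* G)
    (hf : Function.Injective f) (h : RankLE r G) : RankLE r G' := by
  classical
  intro K hK
  obtain ⟨s, hs, hsK⟩ := h (K.map f) (fg_map f hK)
  have hsub : (s : Set G) ⊆ Set.range f := by
    intro x hx
    have : x ∈ K.map f := hsK ▸ Subgroup.subset_closure hx
    obtain ⟨y, _, rfl⟩ := this
    exact ⟨y, rfl⟩
  refine ⟨s.preimage f hf.injOn, ?_, ?_⟩
  · refine le_trans ?_ hs
    rw [← Finset.card_image_of_injective _ hf]
    exact Finset.card_le_card (by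
      intro x hx
      simp only [Finset.mem_image, Finset.mem_preimage] at hx
      obtain ⟨y, hy, rfl⟩ := hx
      exact hy)
  · apply Subgroup.map_injective hf
    rw [MonoidHom.map_closure, ← hsK, Finset.coe_preimage, Set.image_preimage_eq_of_subset hsub]

theorem RankLE.subgroup {r : ℕ} {G : Type*} [Group G] (h : RankLE r G) (H : Subgroup G) :
    RankLE r H :=
  h.of_injective H.subtype H.subtype_injective

theorem RankLE.of_surjective {r : ℕ} {G G' : Type*} [Group G] [Group G'] (f : G →* G')
    (hf : Function.Surjective f) (h : RankLE r G) : RankLE r G' := by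
  classical
  intro K hK
  obtain ⟨t, ht⟩ := hK
  let g := Function.surjInv hf
  have hg : ∀ y, f (g y) = y := Function.surjInv_eq hf
  obtain ⟨s, hs, hsK⟩ := h (Subgroup.closure ((t.image g : Finset G) : Set G)) ⟨_, rfl⟩
  refine ⟨s.image f, Finset.card_image_le.trans hs, ?_⟩
  rw [Finset.coe_image, ← MonoidHom.map_closure, hsK, MonoidHom.map_closure, ← ht]
  congr 1
  ext y
  simp [hg]

theorem RankLE.quotient {r : ℕ} {G : Type*} [Group G] (h : RankLE r G) (N : Subgroup G) [N.Normal] :
    RankLE r (G ⧸ N) :=
  h.of_surjective (QuotientGroup.mk' N) (QuotientGroup.mk'_surjective N)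

/-- abelian group of finite rank and finite exponent is finite -/
theorem finite_of_comm {r m : ℕ} {G : Type*} [Group G] (hr : RankLE r G) (hm : 0 < m)
    (hc : ∀ x y : G, x * y = y * x) (he : ∀ x : G, x ^ m = 1) : Finite G := by
  classical
  by_contra hinf
  rw [not_finite_iff_infinite] at hinf
  obtain ⟨t, ht⟩ := Infinite.exists_subset_card_eq G (m ^ r + 1)
  let K : Subgroup G := Subgroup.closure (t : Set G)
  obtain ⟨s, hs, hsK⟩ := hr K ⟨t, rfl⟩
  have hKs : (Subgroup.closure (s : Set G)) = K := hsK
  let _ : CommGroup K := { (inferInstance : Group K) with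
    mul_comm := fun a b => Subtype.ext (hc a b) }
  have : Group.FG K := (Group.fg_iff_subgroup_fg K).2 ⟨t, rfl⟩
  have hrank : Group.rank K ≤ r := by
    have : Subgroup.closure ((s.preimage K.subtype K.subtype_injective.injOn : Finset K) : Set K) = ⊤ := by
      apply Subgroup.map_injective K.subtype_injective
      rw [MonoidHom.map_closure, Finset.coe_preimage, Set.image_preimage_eq_of_subset, hKs]
      · simp [← MonoidHom.range_eq_map]
      · intro x hx
        have : x ∈ K := hKs ▸ Subgroup.subset_closure hx
        exact ⟨⟨x, this⟩, rfl⟩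
    refine (Group.rank_le this).trans (le_trans ?_ hs)
    rw [← Finset.card_image_of_injective _ K.subtype_injective]
    exact Finset.card_le_card (by
      intro x hx
      simp only [Finset.mem_image, Finset.mem_preimage] at hx
      obtain ⟨y, hy, rfl⟩ := hx
      exact hy)
  have hdvd : Nat.card K ∣ m ^ Group.rank K := by
    apply card_dvd_exponent_pow_rank'
    intro g
    exact Subtype.ext (by simpa using he g)
  have hle : Nat.card K ≤ m ^ r :=
    (Nat.le_of_dvd (pow_pos hm _) hdvd).trans (Nat.pow_le_pow_right hm hrank)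
  have hfin : Finite K := Nat.finite_of_card_ne_zero (by
    intro h0
    rw [h0] at hdvd
    exact (pow_pos hm _).ne' (Nat.eq_zero_of_zero_dvd hdvd))
  have : m ^ r + 1 ≤ Nat.card K := by
    rw [← ht]
    have h2 : (t : Set G) ⊆ K := Subgroup.subset_closure
    have h3 := Set.ncard_le_ncard h2 (Set.toFinite (K : Set G))
    rw [Set.ncard_coe_finset] at h3
    exact h3
  omega

theorem finite_of_normal {G : Type*} [Group G] (H : Subgroup G) (h1 : Finite H)
    (h2 : H.index ≠ 0) : Finite G := by
  apply Nat.finite_of_card_ne_zero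
  rw [← H.card_mul_index]
  exact mul_ne_zero Nat.card_pos.ne' h2

/-- a soluble group of finite rank and finite exponent is finite -/
theorem finite_of_derivedSeries {r m : ℕ} (hm : 0 < m) (n : ℕ) :
    ∀ {G : Type*} [Group G], derivedSeries G n = ⊥ → RankLE r G → (∀ x : G, x ^ m = 1) →
      Finite G := by
  induction n with
  | zero =>
    intro G _ h _ _
    rw [derivedSeries_zero] at h
    have : Subsingleton G := by
      constructor
      intro a b
      have ha : a ∈ (⊤ : Subgroup G) := Subgroup.mem_top a
      have hb : b ∈ (⊤ : Subgroup G) := Subgroup.mem_top b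
      rw [h, Subgroup.mem_bot] at ha hb
      rw [ha, hb]
    infer_instance
  | succ n ih =>
    intro G _ h hr he
    let A := derivedSeries G n
    have hAn : A.Normal := derivedSeries_normal G n
    have hA : Finite A := by
      apply finite_of_comm (hr.subgroup A) hm
      · intro x y
        have : (x : G) * y * (x : G)⁻¹ * (y : G)⁻¹ ∈ derivedSeries G (n+1) := by
          rw [derivedSeries_succ]
          exact Subgroup.commutator_mem_commutator x.2 y.2
        rw [h, Subgroup.mem_bot, mul_inv_eq_one, mul_inv_eq_iff_eq_mul] at this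
        exact Subtype.ext this
      · intro x
        exact Subtype.ext (by simpa using he x)
    have hQ : Finite (G ⧸ A) := by
      apply ih _ (hr.quotient A)
      · intro x
        induction x using QuotientGroup.induction_on with
        | H x => rw [← QuotientGroup.mk_pow, he, QuotientGroup.mk_one]
      · rw [← map_derivedSeries_eq (QuotientGroup.mk'_surjective A) n]
        exact (Subgroup.map_eq_bot_iff _).2 (by rw [QuotientGroup.ker_mk'])
    exact finite_of_normal A hA (Subgroup.index_ne_zero_of_finite)

theorem finite_of_solvable {r m : ℕ} {G : Type*} [Group G] [Group.IsSolvable G] (hm : 0 < m)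
    (hr : RankLE r G) (he : ∀ x : G, x ^ m = 1) : Finite G := by
  obtain ⟨n, hn⟩ := (Group.isSolvable_def G).1 inferInstance
  exact finite_of_derivedSeries hm n hn hr he

/-- the subgroup generated by the `m`-th powers of elements of `H` -/
def powSub {G : Type*} [Group G] (H : Subgroup G) (m : ℕ) : Subgroup G :=
  Subgroup.closure {x | ∃ h ∈ H, x = h ^ m}

section powSub

variable {G : Type*} [Group G]

theorem pow_mem_powSub {H : Subgroup G} {m : ℕ} {h : G} (hh : h ∈ H) : h ^ m ∈ powSub H m :=
  Subgroup.subset_closure ⟨h, hh, rfl⟩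

theorem powSub_le (H : Subgroup G) (m : ℕ) : powSub H m ≤ H := by
  rw [powSub, Subgroup.closure_le]
  rintro _ ⟨h, hh, rfl⟩
  exact H.pow_mem hh m

theorem powSub_conj {H : Subgroup G} {m : ℕ} {x : G} (hx : ∀ y ∈ H, x * y * x⁻¹ ∈ H) :
    ∀ y ∈ powSub H m, x * y * x⁻¹ ∈ powSub H m := by
  intro y hy
  induction hy using Subgroup.closure_induction with
  | mem y hy =>
    obtain ⟨h, hh, rfl⟩ := hy
    rw [← conj_pow]
    exact pow_mem_powSub (hx h hh)
  | one => simp
  | mul a b _ _ ha hb =>
    have : x * (a * b) * x⁻¹ = (x * a * x⁻¹) * (x * b * x⁻¹) := by group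
    rw [this]
    exact Subgroup.mul_mem _ ha hb
  | inv a _ ha =>
    have : x * a⁻¹ * x⁻¹ = (x * a * x⁻¹)⁻¹ := by group
    rw [this]
    exact Subgroup.inv_mem _ ha

theorem powSub_relIndex {r m : ℕ} (hm : 0 < m) (H : Subgroup G) [Group.IsSolvable H]
    (hr : RankLE r H) : (powSub H m).relIndex H ≠ 0 := by
  have hn : (powSub (⊤ : Subgroup H) m).Normal := by
    constructor
    intro y hy x
    exact powSub_conj (fun _ _ => Subgroup.mem_top _) y hy
  have hfin : Finite (H ⧸ powSub (⊤ : Subgroup H) m) := by
    apply finite_of_solvable hm (hr.quotient _)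
    intro x
    induction x using QuotientGroup.induction_on with
    | H x =>
      rw [← QuotientGroup.mk_pow, QuotientGroup.eq_one_iff]
      exact pow_mem_powSub (Subgroup.mem_top _)
  have heq : (powSub H m).subgroupOf H = powSub (⊤ : Subgroup H) m := by
    apply Subgroup.map_injective H.subtype_injective
    rw [Subgroup.map_subgroupOf_eq_of_le (powSub_le H m), powSub, powSub, MonoidHom.map_closure]
    congr 1
    ext x
    constructor
    · rintro ⟨h, hh, rfl⟩
      exact ⟨⟨h, hh⟩ ^ m, ⟨⟨h, hh⟩, Subgroup.mem_top _, rfl⟩, rfl⟩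
    · rintro ⟨_, ⟨h, _, rfl⟩, rfl⟩
      exact ⟨h, h.2, rfl⟩
  rw [Subgroup.relIndex, heq]
  exact Subgroup.index_ne_zero_of_finite

end powSub

end Pool.MP_b7b920_al.H55
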