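import Mathlib

set_option autoImplicit false

namespace Pool.MP_b7b920_al.H55

section

variable {U : Type*} [AddCommGroup U] {p : ℕ}

theorem finite_pow_torsion (hfin : {u : U | p • u = 0}.Finite) (k : ℕ) :
    {u : U | p ^ k • u = 0}.Finite := by
  induction k with
  | zero => simp
  | succ k ih =>
    have : {u : U | p ^ (k+1) • u = 0} = (fun u => p • u) ⁻¹' {u : U | p ^ k • u = 0} := by
      ext u
      simp only [Set.mem_ofPred_eq, Set.mem_preimage, ← mul_smul, pow_succ]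
    rw [this]
    apply Set.Finite.preimage' ih
    intro b _
    rcases Set.eq_empty_or_nonempty ((fun u : U => p • u) ⁻¹' {b}) with h | ⟨u₀, hu₀⟩
    · rw [h]; exact Set.finite_empty
    · apply (hfin.image (fun u => u + u₀)).subset
      intro u hu
      refine ⟨u - u₀, ?_, by simp⟩
      simp only [Set.mem_preimage, Set.mem_singleton_iff] at hu hu₀
      simp only [Set.mem_ofPred_eq, smul_sub, hu, hu₀, sub_self]

/-- descending chain condition, directed version -/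
theorem dcc_directed (htor : ∀ u : U, ∃ k : ℕ, p ^ k • u = 0)
    (hfin : {u : U | p • u = 0}.Finite) {ι : Type*} [SemilatticeSup ι] (i₀ : ι)
    (D : ι → AddSubgroup U) (hD : ∀ i j, i ≤ j → D j ≤ D i) :
    ∃ i₂, i₀ ≤ i₂ ∧ ∀ i, i₂ ≤ i → D i = D i₂ := by
  classical
  let W : ι → ℕ → Set U := fun i j => {u | p • u = 0 ∧ ∃ b ∈ D i, p ^ j • b = u}
  have hWfin : ∀ i j, (W i j).Finite := fun i j => hfin.subset (fun u hu => hu.1)
  have hWmono : ∀ i i' j j', i ≤ i' → j ≤ j' → W i' j' ⊆ W i j := by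
    intro i i' j j' hi hj u hu
    obtain ⟨h1, b, hb, rfl⟩ := hu
    refine ⟨h1, p ^ (j' - j) • b, (D i).nsmul_mem (hD i i' hi hb) _, ?_⟩
    rw [← mul_smul, ← pow_add]
    congr 2
    omega
  -- choose (i₁, j₁) with `i₀ ≤ i₁` minimising the cardinality
  obtain ⟨⟨⟨i₁, hi₁⟩, j₁⟩, hmin⟩ : ∃ x : {i : ι // i₀ ≤ i} × ℕ, ∀ y : {i : ι // i₀ ≤ i} × ℕ,
      (W x.1.1 x.2).ncard ≤ (W y.1.1 y.2).ncard := by
    have hwf := (wellFounded_lt (α := ℕ))
    obtain ⟨m, ⟨x, hx⟩, hm⟩ := hwf.has_min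
      (Set.range (fun x : {i : ι // i₀ ≤ i} × ℕ => (W x.1.1 x.2).ncard))
      ⟨_, ⟨⟨i₀, le_rfl⟩, 0⟩, rfl⟩
    refine ⟨x, fun y => ?_⟩
    have := hm _ ⟨y, rfl⟩
    simp only at hx this
    omega
  have hWeq : ∀ i j, i₁ ≤ i → j₁ ≤ j → W i j = W i₁ j₁ := by
    intro i j hi hj
    exact Set.eq_of_subset_of_ncard_le (hWmono _ _ _ _ hi hj)
      (hmin (⟨i, hi₁.trans hi⟩, j)) (hWfin _ _)
  have claim1 : ∀ k : ℕ, ∀ i j, i₁ ≤ i → j₁ ≤ j → ∀ x : U, (∃ b ∈ D i₁, p ^ j₁ • b = x) →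
      p ^ k • x = 0 → ∃ b ∈ D i, p ^ j • b = x := by
    intro k
    induction k with
    | zero =>
      intro i j _ _ x _ hx
      rw [pow_zero, one_smul] at hx
      exact ⟨0, (D i).zero_mem, by rw [smul_zero, hx]⟩
    | succ k ih =>
      rintro i j hi hj x ⟨b, hb, hbx⟩ hx
      have h1 : p ^ k • x ∈ W i₁ j₁ := by
        refine ⟨by rw [← mul_smul, ← pow_succ', hx], p ^ k • b, (D i₁).nsmul_mem hb _, ?_⟩
        rw [← mul_smul, mul_comm, mul_smul, hbx]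
      rw [← hWeq i (j + k) hi (by omega)] at h1
      obtain ⟨_, b', hb', hbx'⟩ := h1
      obtain ⟨b'', hb'', hbx''⟩ := ih i j hi hj (x - p ^ j • b') ⟨b - p ^ (j - j₁) • b',
        (D i₁).sub_mem hb ((D i₁).nsmul_mem (hD _ _ hi hb') _), by
          rw [smul_sub, hbx, ← mul_smul, ← pow_add]
          congr 3
          omega⟩ (by
          rw [smul_sub, ← mul_smul, ← pow_add, add_comm k j, hbx', sub_self])
      exact ⟨b'' + b', (D i).add_mem hb'' hb', by rw [smul_add, hbx'']; abel⟩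
  -- choose i₂
  let V : ι → Set U := fun i => {u | u ∈ D i ∧ p ^ j₁ • u = 0}
  have hVfin : ∀ i, (V i).Finite := fun i =>
    (finite_pow_torsion hfin j₁).subset (fun u hu => hu.2)
  obtain ⟨⟨i₂, hi₂⟩, hmin2⟩ : ∃ x : {i : ι // i₁ ≤ i}, ∀ y : {i : ι // i₁ ≤ i},
      (V x.1).ncard ≤ (V y.1).ncard := by
    have hwf := (wellFounded_lt (α := ℕ))
    obtain ⟨m, ⟨x, hx⟩, hm⟩ := hwf.has_min
      (Set.range (fun x : {i : ι // i₁ ≤ i} => (V x.1).ncard)) ⟨_, ⟨i₁, le_rfl⟩, rfl⟩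
    refine ⟨x, fun y => ?_⟩
    have := hm _ ⟨y, rfl⟩
    simp only at hx this
    omega
  refine ⟨i₂, hi₁.trans hi₂, fun i hi => le_antisymm (hD _ _ hi) ?_⟩
  have hVeq : V i = V i₂ :=
    Set.eq_of_subset_of_ncard_le (fun u hu => ⟨hD _ _ hi hu.1, hu.2⟩)
      (hmin2 ⟨i, hi₂.trans hi⟩) (hVfin _)
  intro b hb
  obtain ⟨k, hk⟩ := htor b
  obtain ⟨b', hb', hbb'⟩ := claim1 k i (j₁ + j₁) (hi₂.trans hi) (by omega) (p ^ j₁ • b)
    ⟨b, hD _ _ hi₂ hb, rfl⟩ (by rw [smul_comm, hk, smul_zero])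
  have h1 : b - p ^ j₁ • b' ∈ V i₂ := by
    refine ⟨(D i₂).sub_mem hb ((D i₂).nsmul_mem (hD _ _ hi hb') _), ?_⟩
    rw [smul_sub, ← mul_smul, ← pow_add, hbb', sub_self]
  rw [← hVeq] at h1
  have h2 := (D i).add_mem h1.1 ((D i).nsmul_mem hb' (p ^ j₁))
  rwa [sub_add_cancel] at h2

end

end Pool.MP_b7b920_al.H55
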