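import Mathlib
import Pool.Agent.Lib.MP_b7b920_al_h55.DCC

set_option autoImplicit false

namespace Pool.MP_b7b920_al.H55

open Subgroup

/-- subnormal series from `B` to `H` with factors infinite cyclic / finite / abelian `p'`-torsion -/
inductive PSer {G : Type*} [Group G] (p : ℕ) (B : Subgroup G) : ℕ → Subgroup G → Prop
  | base : PSer p B 0 B
  | cyc {c : ℕ} {H₁ H : Subgroup G} (x : G) : PSer p B c H₁ → H₁ ≤ H →
      H ≤ normalizer (H₁ : Set G) → x ∈ H → (∀ y ∈ H, ∃ k : ℤ, y * x ^ k ∈ H₁) →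
      (∀ k : ℕ, 0 < k → x ^ k ∉ H₁) → PSer p B (c + 1) H
  | fin {c : ℕ} {H₁ H : Subgroup G} : PSer p B c H₁ → H₁ ≤ H →
      H ≤ normalizer (H₁ : Set G) → H₁.relIndex H ≠ 0 → PSer p B c H
  | tor {c : ℕ} {H₁ H : Subgroup G} : PSer p B c H₁ → H₁ ≤ H →
      (∀ x ∈ H, ∀ y ∈ H, x * y * x⁻¹ * y⁻¹ ∈ H₁) →
      (∀ x ∈ H, ∃ n : ℕ, n.Coprime p ∧ x ^ n ∈ H₁) → PSer p B c H

/-- derivation on a subgroup -/
def DerOn {G T : Type*} [Group G] [AddCommGroup T] [DistribMulAction G T] (H : Subgroup G)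
    (κ : G → T) : Prop := ∀ x ∈ H, ∀ y ∈ H, κ (x * y) = κ x + x • κ y

section

variable {G T : Type*} [Group G] [AddCommGroup T] [DistribMulAction G T]

theorem PSer.le {p : ℕ} {B : Subgroup G} {c : ℕ} {H : Subgroup G} (h : PSer p B c H) : B ≤ H := by
  induction h with
  | base => exact le_rfl
  | cyc x _ h1 _ _ _ _ ih => exact ih.trans h1
  | fin _ h1 _ _ ih => exact ih.trans h1
  | tor _ h1 _ _ ih => exact ih.trans h1

theorem PSer.trans {p : ℕ} {A B H : Subgroup G} {c d : ℕ} (h1 : PSer p A c B) (h2 : PSer p B d H) :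
    PSer p A (c + d) H := by
  induction h2 with
  | base => exact h1
  | cyc x _ h1 h2 h3 h4 h5 ih => exact PSer.cyc x ih h1 h2 h3 h4 h5
  | fin _ h1 h2 h3 ih => exact PSer.fin ih h1 h2 h3
  | tor _ h1 h2 h3 ih => exact PSer.tor ih h1 h2 h3

namespace DerOn

variable {H : Subgroup G} {κ δ : G → T}

theorem mono {H' : Subgroup G} (h : DerOn H κ) (hle : H' ≤ H) : DerOn H' κ :=
  fun x hx y hy => h x (hle hx) y (hle hy)

theorem one (h : DerOn H κ) : κ 1 = 0 := by
  have := h 1 H.one_mem 1 H.one_mem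
  rw [mul_one, one_smul] at this
  simpa using this

theorem inv (h : DerOn H κ) {x : G} (hx : x ∈ H) : κ x⁻¹ = - (x⁻¹ • κ x) := by
  have := h x⁻¹ (H.inv_mem hx) x hx
  rw [inv_mul_cancel, h.one] at this
  exact eq_neg_of_add_eq_zero_left this.symm

theorem inv_eq_zero (h : DerOn H κ) {x : G} (hx : x ∈ H) (h0 : κ x = 0) : κ x⁻¹ = 0 := by
  rw [h.inv hx, h0, smul_zero, neg_zero]

theorem pow_eq_zero (h : DerOn H κ) {x : G} (hx : x ∈ H) (h0 : κ x = 0) (n : ℕ) :
    κ (x ^ n) = 0 := by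
  induction n with
  | zero => rw [pow_zero, h.one]
  | succ n ih => rw [pow_succ, h _ (H.pow_mem hx n) _ hx, ih, h0, smul_zero, add_zero]

theorem zpow_eq_zero (h : DerOn H κ) {x : G} (hx : x ∈ H) (h0 : κ x = 0) (n : ℤ) :
    κ (x ^ n) = 0 := by
  obtain ⟨n, rfl | rfl⟩ := n.eq_nat_or_neg
  · rw [zpow_natCast]; exact h.pow_eq_zero hx h0 n
  · rw [zpow_neg, zpow_natCast]
    exact h.inv_eq_zero (H.pow_mem hx n) (h.pow_eq_zero hx h0 n)

theorem add (h : DerOn H κ) (h' : DerOn H δ) : DerOn H (fun x => κ x + δ x) := by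
  intro x hx y hy
  simp only
  rw [h x hx y hy, h' x hx y hy, smul_add]
  abel

theorem sub (h : DerOn H κ) (h' : DerOn H δ) : DerOn H (fun x => κ x - δ x) := by
  intro x hx y hy
  simp only
  rw [h x hx y hy, h' x hx y hy, smul_sub]
  abel

theorem neg (h : DerOn H κ) : DerOn H (fun x => - κ x) := by
  intro x hx y hy
  simp only
  rw [h x hx y hy, smul_neg]
  abel

theorem zero : DerOn H (fun _ => (0 : T)) := by
  intro x hx y hy
  simp

theorem nsmul (h : DerOn H κ) (n : ℕ) : DerOn H (fun x => n • κ x) := by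
  intro x hx y hy
  simp only
  rw [h x hx y hy, smul_add, smul_comm]

/-- conjugate derivation -/
theorem conj (h : DerOn H κ) {y : G} (hy : y ∈ normalizer (H : Set G)) :
    DerOn H (fun x => y • κ (y⁻¹ * x * y)) := by
  intro a ha b hb
  have ha' : y⁻¹ * a * y ∈ H := ((Subgroup.mem_normalizer_iff'').1 hy a).1 ha
  have hb' : y⁻¹ * b * y ∈ H := ((Subgroup.mem_normalizer_iff'').1 hy b).1 hb
  have : y⁻¹ * (a * b) * y = (y⁻¹ * a * y) * (y⁻¹ * b * y) := by group
  simp only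
  rw [this, h _ ha' _ hb', smul_add, ← mul_smul, ← mul_smul]
  congr 2
  group

/-- the kernel of a derivation on a subgroup -/
def ker (h : DerOn H κ) : Subgroup G where
  carrier := {x | x ∈ H ∧ κ x = 0}
  one_mem' := ⟨H.one_mem, h.one⟩
  mul_mem' := by
    rintro a b ⟨ha, ha0⟩ ⟨hb, hb0⟩
    exact ⟨H.mul_mem ha hb, by rw [h a ha b hb, ha0, hb0, smul_zero, add_zero]⟩
  inv_mem' := by
    rintro a ⟨ha, ha0⟩
    exact ⟨H.inv_mem ha, h.inv_eq_zero ha ha0⟩

theorem mem_ker (h : DerOn H κ) {x : G} : x ∈ h.ker ↔ x ∈ H ∧ κ x = 0 := Iff.rfl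

end DerOn

/-! ### coprime action -/

variable {p : ℕ}

/-- a `p'`-element which fixes the `p`-torsion of a `p`-torsion module fixes it -/
theorem fix_of_coprime (htor : ∀ t : T, ∃ k : ℕ, p ^ k • t = 0) (M : AddSubgroup T) {y : G}
    (hM : ∀ m ∈ M, y • m ∈ M) {n : ℕ} (hn : n.Coprime p) (hyn : ∀ m ∈ M, y ^ n • m = m)
    (hyp : ∀ m ∈ M, p • m = 0 → y • m = m) : ∀ m ∈ M, y • m = m := by
  have key : ∀ k : ℕ, ∀ m ∈ M, p ^ k • m = 0 → y • m = m := by
    intro k
    induction k with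
    | zero =>
      intro m _ hm
      rw [pow_zero, one_smul] at hm
      rw [hm, smul_zero]
    | succ k ih =>
      intro m hm hk
      have hpm : y • (p • m) = p • m := by
        apply ih _ (M.nsmul_mem hm p)
        rw [← mul_smul, ← pow_succ, hk]
      have hb : y • m - m ∈ M := M.sub_mem (hM m hm) hm
      have hpb : p • (y • m - m) = 0 := by
        rw [smul_sub, smul_comm, hpm, sub_self]
      have hyb : y • (y • m - m) = y • m - m := hyp _ hb hpb
      have hj : ∀ j : ℕ, y ^ j • m = m + j • (y • m - m) := by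
        intro j
        induction j with
        | zero => simp
        | succ j ihj =>
          rw [pow_succ', mul_smul, ihj, smul_add, smul_comm, hyb, add_smul, one_smul]
          abel
      have hnb : n • (y • m - m) = 0 := by
        have h1 := hj n
        rw [hyn m hm] at h1
        exact (add_eq_left.1 h1.symm)
      have h1 : addOrderOf (y • m - m) ∣ Nat.gcd n p :=
        Nat.dvd_gcd (addOrderOf_dvd_of_nsmul_eq_zero hnb) (addOrderOf_dvd_of_nsmul_eq_zero hpb)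
      rw [hn.gcd_eq_one, Nat.dvd_one, AddMonoid.addOrderOf_eq_one_iff, sub_eq_zero] at h1
      exact h1
  intro m hm
  obtain ⟨k, hk⟩ := htor m
  exact key k m hm hk

/-- in a `p`-torsion group, `n • t = 0` with `n` coprime to `p` implies `t = 0` -/
theorem eq_zero_of_coprime (htor : ∀ t : T, ∃ k : ℕ, p ^ k • t = 0) {n : ℕ} (hn : n.Coprime p)
    {t : T} (ht : n • t = 0) : t = 0 := by
  obtain ⟨k, hk⟩ := htor t
  have h1 : addOrderOf t ∣ Nat.gcd n (p ^ k) :=
    Nat.dvd_gcd (addOrderOf_dvd_of_nsmul_eq_zero ht) (addOrderOf_dvd_of_nsmul_eq_zero hk)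
  rw [(hn.pow_right k).gcd_eq_one, Nat.dvd_one, AddMonoid.addOrderOf_eq_one_iff] at h1
  exact h1

/-- multiplication by `n` coprime to `p` is surjective on a `p`-torsion group -/
theorem exists_nsmul_eq (htor : ∀ t : T, ∃ k : ℕ, p ^ k • t = 0) {n : ℕ} (hn : n.Coprime p)
    (t : T) : ∃ u : T, n • u = t := by
  obtain ⟨k, hk⟩ := htor t
  have h1 : (n : ℤ).gcd ((p ^ k : ℕ) : ℤ) = 1 := by
    rw [Int.gcd_natCast_natCast]
    exact hn.pow_right k
  have h2 := Int.gcd_eq_gcd_ab (n : ℤ) ((p ^ k : ℕ) : ℤ)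
  rw [h1] at h2
  refine ⟨(Int.gcdA (n : ℤ) ((p ^ k : ℕ) : ℤ)) • t, ?_⟩
  have h3 : t = ((1 : ℕ) : ℤ) • t := by simp
  conv_rhs => rw [h3, h2]
  rw [add_smul, mul_smul, mul_smul, smul_comm ((p ^ k : ℕ) : ℤ), natCast_zsmul, natCast_zsmul, hk,
    smul_zero, add_zero]

/-- the set of common fixed points -/
def fixSub (T : Type*) [AddCommGroup T] [DistribMulAction G T] (S : Set G) : AddSubgroup T where
  carrier := {t | ∀ x ∈ S, x • t = t}
  zero_mem' := fun x _ => smul_zero x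
  add_mem' := fun {a b} ha hb x hx => by rw [smul_add, ha x hx, hb x hx]
  neg_mem' := fun {a} ha x hx => by rw [smul_neg, ha x hx]

theorem mem_fixSub {S : Set G} {t : T} : t ∈ fixSub T S ↔ ∀ x ∈ S, x • t = t := Iff.rfl

theorem fixSub_closure {S : Set G} {t : T} (h : ∀ x ∈ S, x • t = t) :
    ∀ x ∈ Subgroup.closure S, x • t = t := by
  intro x hx
  have : Subgroup.closure S ≤ MulAction.stabilizer G t := by
    rw [Subgroup.closure_le]
    intro y hy
    exact h y hy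
  exact this hx

/-- determination of fixed points by finitely many elements -/
theorem exists_fix_finset (htor : ∀ t : T, ∃ k : ℕ, p ^ k • t = 0)
    (hfin : {t : T | p • t = 0}.Finite) {H₁ H : Subgroup G} (hle : H₁ ≤ H)
    (hcomm : ∀ x ∈ H, ∀ y ∈ H, x * y * x⁻¹ * y⁻¹ ∈ H₁)
    (hp' : ∀ x ∈ H, ∃ n : ℕ, n.Coprime p ∧ x ^ n ∈ H₁) :
    ∃ S₀ : Finset G, (S₀ : Set G) ⊆ H ∧ ∀ t : T, (∀ x ∈ H₁, x • t = t) →
      (∀ x ∈ S₀, x • t = t) → ∀ y ∈ H, y • t = t := by
  classical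
  let V : Finset G → Set T := fun S => {t | p • t = 0 ∧ (∀ x ∈ H₁, x • t = t) ∧
    (∀ x ∈ S, x • t = t)}
  have hVfin : ∀ S, (V S).Finite := fun S => hfin.subset (fun t ht => ht.1)
  obtain ⟨⟨S₀, hS₀⟩, hmin⟩ : ∃ x : {S : Finset G // (S : Set G) ⊆ H},
      ∀ y : {S : Finset G // (S : Set G) ⊆ H}, (V x.1).ncard ≤ (V y.1).ncard := by
    have hwf := (wellFounded_lt (α := ℕ))
    obtain ⟨m, ⟨x, hx⟩, hm⟩ := hwf.has_min
      (Set.range (fun x : {S : Finset G // (S : Set G) ⊆ H} => (V x.1).ncard))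
      ⟨_, ⟨⟨∅, by simp⟩, rfl⟩⟩
    refine ⟨x, fun y => ?_⟩
    have := hm _ ⟨y, rfl⟩
    simp only at hx this
    omega
  refine ⟨S₀, hS₀, ?_⟩
  intro t ht1 ht2 y hy
  obtain ⟨n, hn, hyn⟩ := hp' y hy
  let M : AddSubgroup T := fixSub T ((H₁ : Set G) ∪ S₀)
  have hMcl : ∀ m ∈ M, ∀ x ∈ Subgroup.closure ((H₁ : Set G) ∪ S₀), x • m = m :=
    fun m hm => fixSub_closure hm
  apply fix_of_coprime (T := T) htor M (n := n) ?_ hn ?_ ?_ t
  · rintro x (hx | hx)
    · exact ht1 x hx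
    · exact ht2 x hx
  · -- M is y-invariant
    intro m hm x hx
    have hxH : x ∈ H := by
      rcases hx with hx | hx
      · exact hle hx
      · exact hS₀ hx
    have h1 : y⁻¹ * x * y ∈ Subgroup.closure ((H₁ : Set G) ∪ S₀) := by
      have h2 : y⁻¹ * x * y * x⁻¹ ∈ H₁ := by
        have := hcomm y⁻¹ (H.inv_mem hy) x hxH
        rwa [inv_inv] at this
      have h3 : y⁻¹ * x * y = (y⁻¹ * x * y * x⁻¹) * x := by group
      rw [h3]
      exact Subgroup.mul_mem _ (Subgroup.subset_closure (Or.inl h2)) (Subgroup.subset_closure hx)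
    have h4 := hMcl m hm _ h1
    calc x • y • m = y • (y⁻¹ * x * y) • m := by
          rw [← mul_smul, ← mul_smul]; congr 1; group
      _ = y • m := by rw [h4]
  · intro m hm
    exact hm _ (Or.inl hyn)
  · intro m hm hpm
    have hins : ((insert y S₀ : Finset G) : Set G) ⊆ H := by
      rw [Finset.coe_insert]
      exact Set.insert_subset hy hS₀
    have hsubV : V (insert y S₀) ⊆ V S₀ := by
      rintro t ⟨h1, h2, h3⟩
      exact ⟨h1, h2, fun x hx => h3 x (Finset.mem_insert_of_mem hx)⟩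
    have h1 : V (insert y S₀) = V S₀ :=
      Set.eq_of_subset_of_ncard_le hsubV (hmin ⟨insert y S₀, hins⟩) (hVfin _)
    have h2 : m ∈ V S₀ := ⟨hpm, fun x hx => hm x (Or.inl hx), fun x hx => hm x (Or.inr hx)⟩
    rw [← h1] at h2
    exact h2.2.2 y (Finset.mem_insert_self _ _)

/-- vanishing of derivations in a `p'`-torsion step -/
theorem vanish_tor (htor : ∀ t : T, ∃ k : ℕ, p ^ k • t = 0) {H₁ H M : Subgroup G}
    (hcomm : ∀ x ∈ H, ∀ y ∈ H, x * y * x⁻¹ * y⁻¹ ∈ H₁)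
    (hp' : ∀ x ∈ H, ∃ n : ℕ, n.Coprime p ∧ x ^ n ∈ H₁) {S₀ : Finset G}
    (hfix : ∀ t : T, (∀ x ∈ H₁, x • t = t) → (∀ x ∈ S₀, x • t = t) → ∀ y ∈ H, y • t = t)
    (hM1 : H₁ ≤ M) (hM2 : M ≤ H) (hS : (S₀ : Set G) ⊆ M) {δ : G → T} (hδ : DerOn M δ)
    (h1 : ∀ x ∈ H₁, δ x = 0) (h2 : ∀ x ∈ S₀, δ x = 0) : ∀ y ∈ M, δ y = 0 := by
  intro y hy
  obtain ⟨n, hn, hyn⟩ := hp' y (hM2 hy)
  let L := Subgroup.closure ((H₁ : Set G) ∪ S₀)
  have hLker : L ≤ hδ.ker := by
    rw [Subgroup.closure_le]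
    rintro x (hx | hx)
    · exact ⟨hM1 hx, h1 x hx⟩
    · exact ⟨hS hx, h2 x hx⟩
  have hfixL : ∀ x ∈ L, x ∈ (H₁ : Set G) ∪ S₀ → x • δ y = δ y := by
    intro x hx hx'
    have hxM : x ∈ M := (hLker hx).1
    have h3 : y⁻¹ * x * y ∈ L := by
      have h2 : y⁻¹ * x * y * x⁻¹ ∈ H₁ := by
        have := hcomm y⁻¹ (H.inv_mem (hM2 hy)) x (hM2 hxM)
        rwa [inv_inv] at this
      have h3 : y⁻¹ * x * y = (y⁻¹ * x * y * x⁻¹) * x := by group
      rw [h3]
      exact Subgroup.mul_mem _ (Subgroup.subset_closure (Or.inl h2)) hx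
    have h4 : δ (x * y) = x • δ y := by
      rw [hδ x hxM y hy, (hLker hx).2, zero_add]
    have h5 : δ (x * y) = δ y := by
      have : x * y = y * (y⁻¹ * x * y) := by group
      rw [this, hδ y hy _ (hLker h3).1, (hLker h3).2, smul_zero, add_zero]
    rw [← h4, h5]
  have hyfix : ∀ z ∈ H, z • δ y = δ y := by
    apply hfix
    · intro x hx
      exact hfixL x (Subgroup.subset_closure (Or.inl hx)) (Or.inl hx)
    · intro x hx
      exact hfixL x (Subgroup.subset_closure (Or.inr hx)) (Or.inr hx)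
  have hpow : ∀ j : ℕ, δ (y ^ j) = j • δ y := by
    intro j
    induction j with
    | zero => rw [pow_zero, hδ.one, zero_smul]
    | succ j ih =>
      rw [pow_succ, hδ _ (M.pow_mem hy j) _ hy, ih, hyfix _ (H.pow_mem (hM2 hy) j), add_smul,
        one_smul]
  apply eq_zero_of_coprime htor hn
  rw [← hpow n]
  exact h1 _ hyn

/-- finite determination of derivations along a `PSer` -/
theorem finite_det (htor : ∀ t : T, ∃ k : ℕ, p ^ k • t = 0)
    (hfin : {t : T | p • t = 0}.Finite) {A H : Subgroup G} {c : ℕ} (h : PSer p A c H) :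
    ∃ F : Finset G, (F : Set G) ⊆ H ∧ ∀ δ : G → T, DerOn H δ → (∀ a ∈ A, δ a = 0) →
      (∀ x ∈ F, δ x = 0) → ∀ x ∈ H, δ x = 0 := by
  classical
  induction h with
  | base => exact ⟨∅, by simp, fun δ _ h _ => h⟩
  | @cyc c H₁ H x hP hle hn hx hgen hinf ih =>
    obtain ⟨F, hF, hdet⟩ := ih
    refine ⟨insert x F, ?_, ?_⟩
    · rw [Finset.coe_insert]
      exact Set.insert_subset hx (hF.trans hle)
    · intro δ hδ hA hFδ y hy
      obtain ⟨k, hk⟩ := hgen y hy
      have h1 : δ (y * x ^ k) = 0 := by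
        apply hdet δ (hδ.mono hle) hA _ _ hk
        intro z hz
        exact hFδ z (Finset.mem_insert_of_mem hz)
      have h2 : δ (x ^ k) = 0 := hδ.zpow_eq_zero hx (hFδ x (Finset.mem_insert_self _ _)) k
      rw [hδ y hy _ (H.zpow_mem hx k), h2, smul_zero, add_zero] at h1
      exact h1
  | @fin c H₁ H hP hle hn hidx ih =>
    obtain ⟨F, hF, hdet⟩ := ih
    have hfinQ : Finite (H ⧸ H₁.subgroupOf H) := Subgroup.index_ne_zero_iff_finite.1 hidx
    have := Fintype.ofFinite (H ⧸ H₁.subgroupOf H)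
    refine ⟨F ∪ (Finset.univ.image (fun c : H ⧸ H₁.subgroupOf H => ((c.out : H) : G))), ?_, ?_⟩
    · rw [Finset.coe_union]
      apply Set.union_subset (hF.trans hle)
      intro z hz
      simp only [Finset.coe_image, Finset.coe_univ, Set.image_univ, Set.mem_range] at hz
      obtain ⟨c, rfl⟩ := hz
      exact c.out.2
    · intro δ hδ hA hFδ y hy
      let r : H := (QuotientGroup.mk (s := H₁.subgroupOf H) (⟨y, hy⟩ : H)).out
      have hr : ((r⁻¹ * ⟨y, hy⟩ : H) : G) ∈ H₁ := by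
        have : (QuotientGroup.mk (s := H₁.subgroupOf H) r) = QuotientGroup.mk ⟨y, hy⟩ :=
          Quotient.out_eq' _
        rw [QuotientGroup.eq] at this
        exact this
      have h1 : δ ((r⁻¹ * ⟨y, hy⟩ : H) : G) = 0 := by
        apply hdet δ (hδ.mono hle) hA _ _ hr
        intro z hz
        exact hFδ z (Finset.mem_union_left _ hz)
      have h2 : δ (r : G) = 0 := by
        apply hFδ
        apply Finset.mem_union_right
        exact Finset.mem_image.2 ⟨_, Finset.mem_univ _, rfl⟩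
      have h3 : y = (r : G) * ((r⁻¹ * ⟨y, hy⟩ : H) : G) := by
        simp
      rw [h3, hδ _ r.2 _ (r⁻¹ * ⟨y, hy⟩ : H).2, h1, h2, smul_zero, add_zero]
  | @tor c H₁ H hP hle hcomm hp' ih =>
    obtain ⟨F, hF, hdet⟩ := ih
    obtain ⟨S₀, hS₀, hfix⟩ := exists_fix_finset htor hfin hle hcomm hp'
    refine ⟨F ∪ S₀, ?_, ?_⟩
    · rw [Finset.coe_union]
      exact Set.union_subset (hF.trans hle) hS₀
    · intro δ hδ hA hFδ
      apply vanish_tor htor hcomm hp' hfix hle le_rfl hS₀ hδ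
      · exact hdet δ (hδ.mono hle) hA (fun z hz => hFδ z (Finset.mem_union_left _ hz))
      · exact fun z hz => hFδ z (Finset.mem_union_right _ hz)

end

end Pool.MP_b7b920_al.H55
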