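import Mathlib
import Pool.Agent.Lib.MP_b7b920_al_h55.Der

set_option autoImplicit false

namespace Pool.MP_b7b920_al.H55

open Subgroup

section

variable {G T : Type*} [Group G] [AddCommGroup T] [DistribMulAction G T]

theorem smul_aux (a b c d : G) (w : T) (h : a * b = c * d) : a • b • w = c • d • w := by
  rw [smul_smul, smul_smul, h]

/-- transfer of derivations -/
theorem transfer {H₁ H A : Subgroup G} (hidx : H₁.relIndex H ≠ 0)
    (hA : A ≤ H₁) (hAH : A ≤ H) (hAn : H ≤ normalizer (A : Set G)) (N : ℕ) {κ₀ κ : G → T}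
    (hκ : DerOn H₁ κ) (hκA : ∀ a ∈ A, κ a = N • κ₀ a)
    (heq : ∀ x ∈ H, ∀ a ∈ A, κ₀ (x * a * x⁻¹) = x • κ₀ a) :
    ∃ κ' : G → T, DerOn H κ' ∧ ∀ a ∈ A, κ' a = (H₁.relIndex H * N) • κ₀ a := by
  classical
  let Y := H₁.subgroupOf H
  have hfinQ : Finite (H ⧸ Y) := Subgroup.index_ne_zero_iff_finite.1 hidx
  have := Fintype.ofFinite (H ⧸ Y)
  have hout : ∀ (g : H) (c : H ⧸ Y), QuotientGroup.mk (s := Y) ((g • c).out) =
      QuotientGroup.mk (g * c.out) := by
    intro g c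
    rw [QuotientGroup.out_eq']
    conv_lhs => rw [← QuotientGroup.out_eq' c]
    rfl
  have hmem : ∀ (g : H) (c : H ⧸ Y), (((g • c).out⁻¹ * g * c.out : H) : G) ∈ H₁ := by
    intro g c
    have h1 := hout g c
    rw [QuotientGroup.eq, ← mul_assoc] at h1
    exact h1
  let term : H → (H ⧸ Y) → T := fun g c =>
    ((g • c).out : G) • κ (((g • c).out⁻¹ * g * c.out : H) : G)
  let κ' : G → T := fun x => if h : x ∈ H then ∑ c, term ⟨x, h⟩ c else 0
  have hκ' : ∀ (x : H), κ' (x : G) = ∑ c, term x c := by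
    intro x
    simp only [κ', x.2, dif_pos]
  refine ⟨κ', ?_, ?_⟩
  · intro x hx y hy
    have e1 := hκ' (⟨x, hx⟩ * ⟨y, hy⟩)
    have e2 := hκ' ⟨x, hx⟩
    have e3 := hκ' ⟨y, hy⟩
    simp only [Subgroup.coe_mul] at e1 e2 e3
    rw [e1, e2, e3]
    set X : H := ⟨x, hx⟩
    set Z : H := ⟨y, hy⟩
    have hterm : ∀ c, term (X * Z) c = term X (Z • c) + x • term Z c := by
      intro c
      simp only [term]
      have hu := hmem X (Z • c)
      have hv := hmem Z c
      have hprod : (((X * Z) • c).out⁻¹ * (X * Z) * c.out : H) =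
          ((X • Z • c).out⁻¹ * X * (Z • c).out) * ((Z • c).out⁻¹ * Z * c.out) := by
        rw [mul_smul]; group
      rw [hprod, Subgroup.coe_mul, hκ _ hu _ hv, smul_add, mul_smul X Z c]
      congr 1
      have h2 : ((X • Z • c).out : H) * ((X • Z • c).out⁻¹ * X * (Z • c).out) =
          X * (Z • c).out := by group
      exact smul_aux _ _ _ _ _ (congrArg (Subtype.val) h2)
    rw [Finset.sum_congr rfl (fun c _ => hterm c), Finset.sum_add_distrib, Finset.smul_sum]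
    congr 1
    exact Equiv.sum_comp (MulAction.toPerm Z) (fun c => term X c)
  · intro a ha
    have e1 := hκ' ⟨a, hAH ha⟩
    simp only at e1
    rw [e1]
    have hterm : ∀ c, term ⟨a, hAH ha⟩ c = N • κ₀ a := by
      intro c
      have hconj : ((c.out⁻¹ * ⟨a, hAH ha⟩ * c.out : H) : G) ∈ A :=
        ((Subgroup.mem_normalizer_iff'').1 (hAn c.out.2) a).1 ha
      have hsm : (⟨a, hAH ha⟩ : H) • c = c := by
        conv_lhs => rw [← QuotientGroup.out_eq' c]
        conv_rhs => rw [← QuotientGroup.out_eq' c]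
        change QuotientGroup.mk (s := Y) ((⟨a, hAH ha⟩ : H) * c.out) = QuotientGroup.mk c.out
        rw [eq_comm, QuotientGroup.eq, ← mul_assoc]
        exact hA hconj
      simp only [term]
      rw [hsm, hκA _ hconj]
      have h3 : κ₀ ((c.out⁻¹ * ⟨a, hAH ha⟩ * c.out : H) : G) = ((c.out : H) : G)⁻¹ • κ₀ a := by
        have := heq ((c.out : H) : G)⁻¹ (H.inv_mem c.out.2) a ha
        rw [inv_inv] at this
        exact this
      rw [h3, smul_comm, smul_smul, mul_inv_cancel, one_smul]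
    rw [Finset.sum_congr rfl (fun c _ => hterm c), Finset.sum_const, Finset.card_univ, ← mul_smul]
    congr 1
    rw [Subgroup.relIndex, Subgroup.index, Nat.card_eq_fintype_card]

/-- extension of a derivation across an infinite cyclic factor -/
theorem extend_cyc {H₁ H : Subgroup G} (hle : H₁ ≤ H) (hn : H ≤ normalizer (H₁ : Set G)) {y : G}
    (hy : y ∈ H) (hgen : ∀ z ∈ H, ∃ k : ℤ, z * y ^ k ∈ H₁) (hinf : ∀ k : ℕ, 0 < k → y ^ k ∉ H₁)
    {κ : G → T} (hκ : DerOn H₁ κ) (hinv : ∀ x ∈ H₁, κ (y * x * y⁻¹) = y • κ x) :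
    ∃ (κ' : G → T) (ν : G → ℤ), DerOn H κ' ∧ (∀ x ∈ H₁, κ' x = κ x) ∧ κ' y = 0 ∧
      (∀ a ∈ H, ∀ b ∈ H, ν (a * b) = ν a + ν b) ∧ (∀ x ∈ H₁, ν x = 0) ∧ ν y = 1 ∧
      (∀ x ∈ H, x * y ^ (-(ν x)) ∈ H₁) := by
  classical
  choose! k hk using hgen
  have hinfz : ∀ j : ℤ, y ^ j ∈ H₁ → j = 0 := by
    intro j hj
    obtain ⟨l, hl | hl⟩ := j.eq_nat_or_neg
    · by_contra h0
      rw [hl, zpow_natCast] at hj
      exact hinf l (Nat.pos_of_ne_zero (by rintro rfl; simp at hl; exact h0 hl)) hj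
    · by_contra h0
      rw [hl, zpow_neg, zpow_natCast, Subgroup.inv_mem_iff] at hj
      exact hinf l (Nat.pos_of_ne_zero (by rintro rfl; simp at hl; exact h0 hl)) hj
  have hyN : y ∈ normalizer (H₁ : Set G) := hn hy
  have hconj : ∀ (j : ℤ) (x : G), x ∈ H₁ → y ^ j * x * (y ^ j)⁻¹ ∈ H₁ := by
    intro j x hx
    exact ((Subgroup.mem_normalizer_iff).1 (Subgroup.zpow_mem _ hyN j) x).1 hx
  have huniq : ∀ z ∈ H, ∀ j : ℤ, z * y ^ j ∈ H₁ → k z = j := by
    intro z hz j hj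
    have h1 : y ^ (j - k z) ∈ H₁ := by
      have : y ^ (j - k z) = (y ^ (k z))⁻¹ * y ^ j := by rw [← zpow_neg, ← zpow_add]; congr 1; ring
      rw [this]
      have h2 : (y ^ (k z))⁻¹ * y ^ j = (z * y ^ (k z))⁻¹ * (z * y ^ j) := by group
      rw [h2]
      exact H₁.mul_mem (H₁.inv_mem (hk z hz)) hj
    have := hinfz _ h1
    omega
  -- invariance under all powers of y
  have hinv' : ∀ x ∈ H₁, κ (y⁻¹ * x * y) = y⁻¹ • κ x := by
    intro x hx
    have h1 : y⁻¹ * x * y ∈ H₁ := ((Subgroup.mem_normalizer_iff'').1 hyN x).1 hx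
    have h2 := hinv _ h1
    have h3 : y * (y⁻¹ * x * y) * y⁻¹ = x := by group
    rw [h3] at h2
    rw [h2, smul_smul, inv_mul_cancel, one_smul]
  have hinvn : ∀ (n : ℕ), ∀ x ∈ H₁, κ (y ^ n * x * (y ^ n)⁻¹) = y ^ n • κ x := by
    intro n
    induction n with
    | zero => intro x _; simp
    | succ n ih =>
      intro x hx
      have h1 := hinv _ (by simpa using hconj n x hx)
      rw [ih x hx] at h1
      rw [pow_succ', mul_smul, ← h1]
      congr 1
      group
  have hinvn' : ∀ (n : ℕ), ∀ x ∈ H₁, κ ((y ^ n)⁻¹ * x * (y ^ n)) = (y ^ n)⁻¹ • κ x := by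
    intro n x hx
    have h1 : (y ^ n)⁻¹ * x * (y ^ n) ∈ H₁ := by
      have := hconj (-(n:ℤ)) x hx
      simpa using this
    have h2 := hinvn n _ h1
    have h3 : y ^ n * ((y ^ n)⁻¹ * x * y ^ n) * (y ^ n)⁻¹ = x := by group
    rw [h3] at h2
    rw [h2, smul_smul, inv_mul_cancel, one_smul]
  have hinvz : ∀ (j : ℤ), ∀ x ∈ H₁, κ (y ^ j * x * (y ^ j)⁻¹) = y ^ j • κ x := by
    intro j x hx
    obtain ⟨l, rfl | rfl⟩ := j.eq_nat_or_neg
    · simpa using hinvn l x hx
    · have := hinvn' l x hx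
      simpa using this
  have hkmul : ∀ a ∈ H, ∀ b ∈ H, k (a * b) = k a + k b := by
    intro a ha b hb
    apply huniq _ (H.mul_mem ha hb)
    have h1 : a * b * y ^ (k a + k b) =
        (a * y ^ (k a)) * (y ^ (-(k a)) * (b * y ^ (k b)) * (y ^ (-(k a)))⁻¹) := by
      rw [zpow_neg, inv_inv, zpow_add]
      have : y ^ (k b) * y ^ (k a) = y ^ (k a) * y ^ (k b) := by
        rw [← zpow_add, ← zpow_add, add_comm]
      simp only [mul_assoc]
      rw [this]
      group
    rw [h1]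
    exact H₁.mul_mem (hk a ha) (hconj _ _ (hk b hb))
  refine ⟨fun z => κ (z * y ^ (k z)), fun z => - k z, ?_, ?_, ?_, ?_, ?_, ?_, ?_⟩
  · intro a ha b hb
    simp only
    have h1 : a * b * y ^ (k (a * b)) =
        (a * y ^ (k a)) * (y ^ (-(k a)) * (b * y ^ (k b)) * (y ^ (-(k a)))⁻¹) := by
      rw [hkmul a ha b hb, zpow_neg, inv_inv, zpow_add]
      have : y ^ (k b) * y ^ (k a) = y ^ (k a) * y ^ (k b) := by
        rw [← zpow_add, ← zpow_add, add_comm]
      simp only [mul_assoc]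
      rw [this]
      group
    rw [h1, hκ _ (hk a ha) _ (hconj _ _ (hk b hb)), hinvz _ _ (hk b hb), smul_smul]
    congr 2
    rw [mul_assoc, ← zpow_add, add_neg_cancel, zpow_zero, mul_one]
  · intro x hx
    simp only
    rw [huniq x (hle hx) 0 (by simpa using hx)]
    simp
  · simp only
    rw [huniq y hy (-1) (by simp)]
    simp [hκ.one]
  · intro a ha b hb
    simp only
    rw [hkmul a ha b hb]
    ring
  · intro x hx
    simp only
    rw [huniq x (hle hx) 0 (by simpa using hx)]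
    simp
  · simp only
    rw [huniq y hy (-1) (by simp)]
    simp
  · intro x hx
    simp only [neg_neg]
    exact hk x hx

/-- adjoining one element of `p'`-order gives a relative index dividing that order -/
theorem relIndex_dvd {M M' : Subgroup G} (hle : M ≤ M') (hn : M' ≤ normalizer (M : Set G)) {y : G}
    (hy : y ∈ M') (hgen : M' ≤ M ⊔ Subgroup.closure {y}) {n : ℕ} (hyn : y ^ n ∈ M) :
    M.relIndex M' ∣ n := by
  have hnorm : (M.subgroupOf M').Normal := (Subgroup.normal_subgroupOf_iff_le_normalizer hle).2 hn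
  let Q := M' ⧸ M.subgroupOf M'
  let yb : Q := QuotientGroup.mk' (M.subgroupOf M') ⟨y, hy⟩
  let L : Subgroup G := ((Subgroup.zpowers yb).comap (QuotientGroup.mk' (M.subgroupOf M'))).map
    M'.subtype
  have hL : M' ≤ L := by
    refine hgen.trans (sup_le ?_ ?_)
    · intro m hm
      refine ⟨⟨m, hle hm⟩, ?_, rfl⟩
      have : QuotientGroup.mk' (M.subgroupOf M') ⟨m, hle hm⟩ = 1 :=
        (QuotientGroup.eq_one_iff _).2 hm
      rw [SetLike.mem_coe, Subgroup.mem_comap, this]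
      exact Subgroup.one_mem _
    · rw [Subgroup.closure_le, Set.singleton_subset_iff]
      exact ⟨⟨y, hy⟩, Subgroup.mem_zpowers yb, rfl⟩
  have hall : ∀ q : Q, q ∈ Subgroup.zpowers yb := by
    intro q
    obtain ⟨g, rfl⟩ := QuotientGroup.mk'_surjective _ q
    obtain ⟨g', hg', he⟩ := hL g.2
    have : g' = g := Subtype.ext he
    rw [← this]
    exact hg'
  have h1 : M.relIndex M' = orderOf yb := by
    rw [Subgroup.relIndex, Subgroup.index, ← Nat.card_zpowers]
    have : Subgroup.zpowers yb = ⊤ := by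
      rw [eq_top_iff]
      exact fun q _ => hall q
    rw [this]
    exact (Nat.card_congr (Subgroup.topEquiv.toEquiv)).symm
  rw [h1]
  apply orderOf_dvd_of_pow_eq_one
  rw [← map_pow]
  exact (QuotientGroup.eq_one_iff _).2 hyn

/-- normality of intermediate subgroups when the quotient is abelian -/
theorem normal_of_comm {H₁ H M : Subgroup G} (hcomm : ∀ x ∈ H, ∀ y ∈ H, x * y * x⁻¹ * y⁻¹ ∈ H₁)
    (h1 : H₁ ≤ M) (h2 : M ≤ H) : H ≤ normalizer (M : Set G) := by
  rw [Subgroup.le_normalizer_iff]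
  intro h hh k hk
  have h3 : h * k * h⁻¹ = (h * k * h⁻¹ * k⁻¹) * k := by group
  rw [h3]
  exact M.mul_mem (h1 (hcomm h hh k (h2 hk))) hk

variable {p : ℕ}

/-- the `p'`-torsion step of the near splitting theorem -/
theorem tor_step (htor : ∀ t : T, ∃ k : ℕ, p ^ k • t = 0)
    (hfin : {t : T | p • t = 0}.Finite) (hp : p.Prime) {A H₁ H : Subgroup G} (hA : A ≤ H₁)
    (hAn : H ≤ normalizer (A : Set G)) (hle : H₁ ≤ H)
    (hcomm : ∀ x ∈ H, ∀ y ∈ H, x * y * x⁻¹ * y⁻¹ ∈ H₁)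
    (hp' : ∀ x ∈ H, ∃ n : ℕ, n.Coprime p ∧ x ^ n ∈ H₁)
    {F₁ : Finset G}
    (hdet : ∀ δ : G → T, DerOn H₁ δ → (∀ a ∈ A, δ a = 0) → (∀ x ∈ F₁, δ x = 0) →
      ∀ x ∈ H₁, δ x = 0)
    {N : ℕ} {κ₀ κ : G → T} (hκ : DerOn H₁ κ) (hκA : ∀ a ∈ A, κ a = N • κ₀ a)
    (heq : ∀ x ∈ H, ∀ a ∈ A, κ₀ (x * a * x⁻¹) = x • κ₀ a) :
    ∃ κ' : G → T, DerOn H κ' ∧ ∀ a ∈ A, κ' a = N • κ₀ a := by
  classical
  obtain ⟨S₀, hS₀, hfix⟩ := exists_fix_finset (T := T) htor hfin hle hcomm hp'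
  let HS : Finset H → Subgroup G := fun S => H₁ ⊔ Subgroup.closure (((↑) : H → G) '' (S : Set H))
  have hHS1 : ∀ S, H₁ ≤ HS S := fun S => le_sup_left
  have hHS2 : ∀ S, HS S ≤ H := by
    intro S
    refine sup_le hle ?_
    rw [Subgroup.closure_le]
    rintro _ ⟨x, _, rfl⟩
    exact x.2
  have hHSmem : ∀ (S : Finset H) (x : H), x ∈ S → (x : G) ∈ HS S := fun S x hx =>
    (le_sup_right : _ ≤ HS S) (Subgroup.subset_closure ⟨x, hx, rfl⟩)
  have hHSmono : ∀ S S' : Finset H, S ≤ S' → HS S ≤ HS S' := by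
    intro S S' h
    refine sup_le le_sup_left ?_
    rw [Subgroup.closure_le]
    rintro _ ⟨x, hx, rfl⟩
    exact hHSmem S' x (h hx)
  have hAH : ∀ S, A ≤ HS S := fun S => hA.trans (hHS1 S)
  -- Step A: extension to every `HS S`
  have stepA : ∀ S : Finset H, ∃ κ' : G → T, DerOn (HS S) κ' ∧ ∀ a ∈ A, κ' a = N • κ₀ a := by
    intro S
    induction S using Finset.induction_on with
    | empty =>
      refine ⟨κ, ?_, hκA⟩
      have : HS ∅ = H₁ := by simp [HS]
      rw [this]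
      exact hκ
    | insert y S _ ih =>
      obtain ⟨κ', hκ', hκ'A⟩ := ih
      have hle' : HS S ≤ HS (insert y S) := hHSmono _ _ (Finset.subset_insert _ _)
      obtain ⟨n, hn, hyn⟩ := hp' y y.2
      have hdvd : (HS S).relIndex (HS (insert y S)) ∣ n := by
        apply relIndex_dvd hle' ((hHS2 _).trans (normal_of_comm hcomm (hHS1 S) (hHS2 S)))
          (hHSmem _ y (Finset.mem_insert_self _ _)) _ (hHS1 _ hyn)
        refine sup_le ((hHS1 S).trans le_sup_left) ?_
        rw [Subgroup.closure_le]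
        rintro _ ⟨x, hx, rfl⟩
        rw [Finset.coe_insert, Set.mem_insert_iff] at hx
        rcases hx with rfl | hx
        · exact (le_sup_right : _ ≤ HS S ⊔ _) (Subgroup.subset_closure rfl)
        · exact (le_sup_left : HS S ≤ _) (hHSmem S x hx)
      have hcop : ((HS S).relIndex (HS (insert y S))).Coprime p := Nat.Coprime.coprime_dvd_left hdvd hn
      have hne : (HS S).relIndex (HS (insert y S)) ≠ 0 := by
        intro h0
        rw [h0, Nat.coprime_zero_left] at hcop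
        exact hp.one_lt.ne' hcop
      obtain ⟨κ'', hκ'', hκ''A⟩ := transfer hne (hAH S) (hAH _) ((hHS2 _).trans hAn) N hκ' hκ'A
        (fun x hx a ha => heq x (hHS2 _ hx) a ha)
      choose dv hdv using (fun t : T => exists_nsmul_eq htor hcop t)
      have hinj : ∀ a b : T, (HS S).relIndex (HS (insert y S)) • a =
          (HS S).relIndex (HS (insert y S)) • b → a = b := by
        intro a b hab
        rw [← sub_eq_zero]
        apply eq_zero_of_coprime htor hcop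
        rw [smul_sub, hab, sub_self]
      refine ⟨fun x => dv (κ'' x), ?_, ?_⟩
      · intro a ha b hb
        apply hinj
        simp only
        rw [hdv, hκ'' a ha b hb, smul_add, hdv, smul_comm _ a, hdv]
      · intro a ha
        apply hinj
        simp only
        rw [hdv, hκ''A a ha, mul_smul]
  -- the finite evaluation set
  let F' : Finset G := F₁ ∪ S₀
  have hUtor : ∀ u : F' → T, ∃ k : ℕ, p ^ k • u = 0 := by
    intro u
    choose k hk using fun f : F' => htor (u f)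
    refine ⟨∑ f, k f, ?_⟩
    funext f
    rw [Pi.smul_apply, Pi.zero_apply,
      ← Nat.sub_add_cancel (Finset.single_le_sum (f := k) (fun _ _ => Nat.zero_le _) (Finset.mem_univ f)),
      pow_add, mul_smul, hk, smul_zero]
  have hUfin : {u : F' → T | p • u = 0}.Finite := by
    have := Set.Finite.pi' (ι := F') (fun _ => hfin)
    apply this.subset
    intro u hu f
    exact congrFun hu f
  let D : Finset H → AddSubgroup (F' → T) := fun S =>
    { carrier := {v | ∃ δ : G → T, DerOn (HS S) δ ∧ (∀ a ∈ A, δ a = 0) ∧ ∀ f : F', v f = δ f}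
      zero_mem' := ⟨fun _ => 0, DerOn.zero, fun _ _ => rfl, fun _ => rfl⟩
      add_mem' := by
        rintro a b ⟨δ, h1, h2, h3⟩ ⟨δ', h1', h2', h3'⟩
        exact ⟨_, h1.add h1', fun a ha => by simp [h2 a ha, h2' a ha],
          fun f => by simp [h3 f, h3' f]⟩
      neg_mem' := by
        rintro a ⟨δ, h1, h2, h3⟩
        exact ⟨_, h1.neg, fun a ha => by simp [h2 a ha], fun f => by simp [h3 f]⟩ }
  have hDmono : ∀ S S' : Finset H, S ≤ S' → D S' ≤ D S := by
    rintro S S' h v ⟨δ, h1, h2, h3⟩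
    exact ⟨δ, h1.mono (hHSmono _ _ h), h2, h3⟩
  obtain ⟨S₁, hS₁, hstab⟩ := dcc_directed hUtor hUfin (S₀.subtype (· ∈ H)) D hDmono
  have hS₀mem : ∀ S : Finset H, S₁ ≤ S → (S₀ : Set G) ⊆ HS S := by
    intro S hS x hx
    have : (⟨x, hS₀ hx⟩ : H) ∈ S₀.subtype (· ∈ H) := Finset.mem_subtype.2 hx
    exact hHSmem S _ (hS (hS₁ this))
  obtain ⟨κ₁, hκ₁, hκ₁A⟩ := stepA S₁
  -- Step C
  have stepC : ∀ S : Finset H, S₁ ≤ S → ∃ κ' : G → T, DerOn (HS S) κ' ∧
      (∀ a ∈ A, κ' a = N • κ₀ a) ∧ ∀ f ∈ F', κ' f = κ₁ f := by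
    intro S hS
    obtain ⟨μ, hμ, hμA⟩ := stepA S
    have h1 : (fun f : F' => κ₁ f - μ f) ∈ D S₁ :=
      ⟨fun x => κ₁ x - μ x, hκ₁.sub (hμ.mono (hHSmono _ _ hS)),
        fun a ha => by simp only; rw [hκ₁A a ha, hμA a ha, sub_self], fun f => rfl⟩
    rw [← hstab S hS] at h1
    obtain ⟨δ, hδ, hδA, hδF⟩ := h1
    refine ⟨fun x => μ x + δ x, hμ.add hδ, fun a ha => by
      simp only; rw [hμA a ha, hδA a ha, add_zero], fun f hf => ?_⟩
    have := hδF ⟨f, hf⟩
    simp only at this ⊢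
    rw [← this]; abel
  -- Step D: uniqueness
  have stepD : ∀ S : Finset H, S₁ ≤ S → ∀ μ μ' : G → T, DerOn (HS S) μ → DerOn (HS S) μ' →
      (∀ a ∈ A, μ a = μ' a) → (∀ f ∈ F', μ f = μ' f) → ∀ x ∈ HS S, μ x = μ' x := by
    intro S hS μ μ' hμ hμ' hA' hF' x hx
    rw [← sub_eq_zero]
    have hsub := hμ.sub hμ'
    refine vanish_tor htor hcomm hp' hfix (hHS1 S) (hHS2 S) (hS₀mem S hS) hsub ?_ ?_ x hx
    · apply hdet _ (hsub.mono (hHS1 S))
      · intro a ha
        rw [hA' a ha, sub_self]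
      · intro z hz
        rw [hF' z (Finset.mem_union_left _ hz), sub_self]
    · intro z hz
      rw [hF' z (Finset.mem_union_right _ hz), sub_self]
  choose! K hK1 hK2 hK3 using stepC
  let κ' : G → T := fun y => if h : y ∈ H then K (insert ⟨y, h⟩ S₁) y else 0
  have hins : ∀ y : H, S₁ ≤ insert y S₁ := fun y => Finset.subset_insert _ _
  have claim : ∀ S : Finset H, S₁ ≤ S → ∀ y ∈ HS S, κ' y = K S y := by
    intro S hS y hy
    have hyH : y ∈ H := hHS2 S hy
    have e1 : κ' y = K (insert ⟨y, hyH⟩ S₁) y := by simp only [κ', hyH, dif_pos]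
    rw [e1]
    have hle' : HS (insert ⟨y, hyH⟩ S₁) ≤ HS S := by
      refine sup_le (hHS1 S) ?_
      rw [Subgroup.closure_le]
      rintro _ ⟨x, hx, rfl⟩
      rw [Finset.coe_insert, Set.mem_insert_iff] at hx
      rcases hx with rfl | hx
      · exact hy
      · exact hHSmem S x (hS hx)
    apply stepD _ (hins _) _ _ (hK1 _ (hins _)) ((hK1 S hS).mono hle')
    · intro a ha
      rw [hK2 _ (hins _) a ha, hK2 S hS a ha]
    · intro f hf
      rw [hK3 _ (hins _) f hf, hK3 S hS f hf]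
    · exact hHSmem _ ⟨y, hyH⟩ (Finset.mem_insert_self _ _)
  refine ⟨κ', ?_, ?_⟩
  · intro x hx y hy
    let S : Finset H := insert ⟨x, hx⟩ (insert ⟨y, hy⟩ S₁)
    have hS : S₁ ≤ S := (hins _).trans (Finset.subset_insert _ _)
    have hxS : x ∈ HS S := hHSmem S ⟨x, hx⟩ (Finset.mem_insert_self _ _)
    have hyS : y ∈ HS S := hHSmem S ⟨y, hy⟩
      (Finset.mem_insert_of_mem (Finset.mem_insert_self _ _))
    rw [claim S hS x hxS, claim S hS y hyS, claim S hS _ ((HS S).mul_mem hxS hyS)]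
    exact hK1 S hS x hxS y hyS
  · intro a ha
    rw [claim S₁ le_rfl a (hAH S₁ ha)]
    exact hK2 S₁ le_rfl a ha

/-- **near splitting** -/
theorem near_split (htor : ∀ t : T, ∃ k : ℕ, p ^ k • t = 0)
    (hfin : {t : T | p • t = 0}.Finite) (hp : p.Prime) {A : Subgroup G} {κ₀ : G → T}
    (htriv : ∀ a ∈ A, ∀ t : T, a • t = t) (hadd : ∀ a ∈ A, ∀ b ∈ A, κ₀ (a * b) = κ₀ a + κ₀ b)
    {c : ℕ} {H : Subgroup G} (hP : PSer p A c H) : (H ≤ normalizer (A : Set G)) →
    (∀ x ∈ H, ∀ a ∈ A, κ₀ (x * a * x⁻¹) = x • κ₀ a) →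
    ∃ N : ℕ, 0 < N ∧ ∃ κ : G → T, DerOn H κ ∧ ∀ a ∈ A, κ a = N • κ₀ a := by
  classical
  induction hP with
  | base =>
    intro _ _
    refine ⟨1, Nat.one_pos, κ₀, ?_, fun a _ => (one_smul _ _).symm⟩
    intro x hx y hy
    rw [hadd x hx y hy, htriv x hx]
  | @cyc c H₁ H y hP hle hn hy hgen hinf ih =>
    intro hAn heq
    obtain ⟨N, hN, κ, hκ, hκA⟩ := ih (hle.trans hAn) (fun x hx => heq x (hle hx))
    obtain ⟨F, hF, hdet⟩ := finite_det htor hfin hP
    have hconj := hκ.conj (hn hy)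
    have hδ := hconj.sub hκ
    choose k hk using fun z : G => htor (y • κ (y⁻¹ * z * y) - κ z)
    let l := ∑ z ∈ F, k z
    have hl : ∀ z ∈ F, p ^ l • (y • κ (y⁻¹ * z * y) - κ z) = 0 := by
      intro z hz
      change p ^ (∑ z ∈ F, k z) • (y • κ (y⁻¹ * z * y) - κ z) = 0
      rw [← Nat.sub_add_cancel (Finset.single_le_sum (f := k) (fun _ _ => Nat.zero_le _) hz),
        pow_add, mul_smul, hk, smul_zero]
    have hA1 : A ≤ H₁ := hP.le
    have hzero := hdet _ (hδ.nsmul (p ^ l)) (by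
      intro a ha
      have h1 : y⁻¹ * a * y ∈ A := ((Subgroup.mem_normalizer_iff'').1 (hAn hy) a).1 ha
      rw [hκA _ h1, hκA _ ha]
      have h2 := heq y⁻¹ (H.inv_mem hy) a ha
      rw [inv_inv] at h2
      rw [h2, smul_comm y N, smul_smul y, mul_inv_cancel, one_smul, sub_self, smul_zero]) hl
    have hκ' := hκ.nsmul (p ^ l)
    obtain ⟨κ', ν, h1, h2, _⟩ := extend_cyc hle hn hy hgen hinf hκ' (by
      intro x hx
      have hx' : y * x * y⁻¹ ∈ H₁ := ((Subgroup.mem_normalizer_iff).1 (hn hy) x).1 hx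
      have h3 := hzero _ hx'
      have h4 : y⁻¹ * (y * x * y⁻¹) * y = x := by group
      rw [h4, smul_sub, sub_eq_zero] at h3
      rw [← h3, smul_comm])
    refine ⟨p ^ l * N, Nat.mul_pos (pow_pos hp.pos _) hN, κ', h1, fun a ha => ?_⟩
    rw [h2 a (hA1 ha), hκA a ha, mul_smul]
  | @fin c H₁ H hP hle hn hidx ih =>
    intro hAn heq
    obtain ⟨N, hN, κ, hκ, hκA⟩ := ih (hle.trans hAn) (fun x hx => heq x (hle hx))
    obtain ⟨κ', h1, h2⟩ := transfer hidx hP.le (hP.le.trans hle) hAn N hκ hκA heq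
    exact ⟨_, Nat.mul_pos (Nat.pos_of_ne_zero hidx) hN, κ', h1, h2⟩
  | @tor c H₁ H hP hle hcomm hp' ih =>
    intro hAn heq
    obtain ⟨N, hN, κ, hκ, hκA⟩ := ih (hle.trans hAn) (fun x hx => heq x (hle hx))
    obtain ⟨F, hF, hdet⟩ := finite_det htor hfin hP
    obtain ⟨κ', h1, h2⟩ := tor_step htor hfin hp hP.le hAn hle hcomm hp' hdet hκ hκA heq
    exact ⟨N, hN, κ', h1, h2⟩

end

end Pool.MP_b7b920_al.H55
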