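import Mathlib
import Pool.Agent.Lib.MP_b7b920_al_h55.Basic
import Pool.Agent.Lib.MP_b7b920_al_h55.NS

set_option autoImplicit false

namespace Pool.MP_b7b920_al.H55

open Subgroup

theorem card_le_of_linearIndependent {r k : ℕ} {A : Type*} [CommGroup A] (hr : RankLE r A)
    (v : Fin k → Additive A) (hv : LinearIndependent ℤ v) : k ≤ r := by
  classical
  let K : Subgroup A := Subgroup.closure (Set.range (fun i => Additive.toMul (v i)))
  obtain ⟨s, hs, hsK⟩ := hr K ⟨Finset.univ.image (fun i => Additive.toMul (v i)), by simp [K]⟩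
  have h1 : Set.range v ⊆ (Submodule.span ℤ ((s.image Additive.ofMul : Finset (Additive A)) :
      Set (Additive A)) : Set (Additive A)) := by
    rintro _ ⟨i, rfl⟩
    have h2 : Additive.toMul (v i) ∈ Subgroup.closure (s : Set A) := by
      rw [hsK]
      exact Subgroup.subset_closure ⟨i, rfl⟩
    have h3 : ∀ x ∈ Subgroup.closure (s : Set A), Additive.ofMul x ∈
        (Submodule.span ℤ ((s.image Additive.ofMul : Finset (Additive A)) :
      Set (Additive A))) := by
      intro x hx
      induction hx using Subgroup.closure_induction with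
      | mem x hx => exact Submodule.subset_span (by simpa using hx)
      | one => rw [ofMul_one]; exact Submodule.zero_mem _
      | mul a b _ _ ha hb => rw [ofMul_mul]; exact Submodule.add_mem _ ha hb
      | inv a _ ha => rw [ofMul_inv]; exact Submodule.neg_mem _ ha
    exact h3 _ h2
  have h4 := linearIndependent_le_span' v hv _ h1
  simp only [Cardinal.mk_fin] at h4
  have h5 : k ≤ (s.image Additive.ofMul : Finset (Additive A)).card := by
    have : (Fintype.card ((s.image Additive.ofMul : Finset (Additive A)) : Set (Additive A))) =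
        (s.image Additive.ofMul : Finset (Additive A)).card := by simp
    rw [this] at h4
    exact_mod_cast h4
  exact h5.trans (Finset.card_image_le.trans hs)

/-- an abelian group of finite rank is torsion over a finitely generated subgroup -/
theorem exists_lattice_comm {r : ℕ} {A : Type*} [CommGroup A] (hr : RankLE r A) :
    ∃ F : Finset A, ∀ a : A, ∃ n : ℕ, 0 < n ∧ a ^ n ∈ Subgroup.closure (F : Set A) := by
  classical
  let P : ℕ → Prop := fun k => ∃ v : Fin k → Additive A, LinearIndependent ℤ v
  have hP0 : P 0 := ⟨fun i => i.elim0, linearIndependent_empty_type⟩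
  have hPb : ∀ k, P k → k ≤ r := fun k ⟨v, hv⟩ => card_le_of_linearIndependent hr v hv
  let k := Nat.findGreatest P r
  have hPk : P k := Nat.findGreatest_spec (P := P) (Nat.zero_le r) hP0
  have hmax : ¬ P (k + 1) := by
    intro h
    have := Nat.le_findGreatest (hPb _ h) h
    change k + 1 ≤ k at this
    omega
  obtain ⟨v, hv⟩ := hPk
  refine ⟨Finset.univ.image (fun i => Additive.toMul (v i)), fun a => ?_⟩
  by_contra hcon
  push Not at hcon
  apply hmax
  have hspan : ∀ y ∈ Submodule.span ℤ (Set.range v), Additive.toMul y ∈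
      Subgroup.closure ((Finset.univ.image (fun i => Additive.toMul (v i)) : Finset A) : Set A) := by
    intro y hy
    induction hy using Submodule.span_induction with
    | mem x hx =>
      obtain ⟨i, rfl⟩ := hx
      exact Subgroup.subset_closure (by simp)
    | zero => exact Subgroup.one_mem _
    | add x y _ _ hx hy => exact Subgroup.mul_mem _ hx hy
    | smul n x _ hx => exact Subgroup.zpow_mem _ hx n
  refine ⟨Fin.cons (Additive.ofMul a) v, LinearIndependent.finCons' _ _ hv ?_⟩
  intro c y hy hcy
  by_contra hc
  have h1 : c • (Additive.ofMul a) ∈ Submodule.span ℤ (Set.range v) := by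
    rw [eq_neg_of_add_eq_zero_left hcy]
    exact Submodule.neg_mem _ hy
  have h2 := hspan _ h1
  obtain ⟨n, rfl | rfl⟩ := c.eq_nat_or_neg
  · apply hcon n (Nat.pos_of_ne_zero (by rintro rfl; exact hc rfl))
    simpa using h2
  · apply hcon n (Nat.pos_of_ne_zero (by rintro rfl; exact hc rfl))
    simpa using h2

variable {G : Type*} [Group G]

theorem exists_lattice {r : ℕ} (hr : RankLE r G) (A : Subgroup G)
    (hc : ∀ x ∈ A, ∀ y ∈ A, x * y = y * x) :
    ∃ F : Finset G, (F : Set G) ⊆ A ∧ ∀ a ∈ A, ∃ n : ℕ, 0 < n ∧ a ^ n ∈
      Subgroup.closure (F : Set G) := by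
  classical
  let _ : CommGroup A := { (inferInstance : Group A) with
    mul_comm := fun a b => Subtype.ext (hc a a.2 b b.2) }
  obtain ⟨F, hF⟩ := exists_lattice_comm (hr.subgroup A)
  refine ⟨F.image A.subtype, ?_, ?_⟩
  · intro x hx
    simp only [Finset.coe_image, Set.mem_image] at hx
    obtain ⟨y, _, rfl⟩ := hx
    exact y.2
  · intro a ha
    obtain ⟨n, hn, h⟩ := hF ⟨a, ha⟩
    refine ⟨n, hn, ?_⟩
    rw [Finset.coe_image, ← MonoidHom.map_closure]
    exact ⟨_, h, rfl⟩

/-- a finitely generated commutative subgroup has a series -/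
theorem PSer.closure_finset {p : ℕ} {A : Subgroup G} (hc : ∀ x ∈ A, ∀ y ∈ A, x * y = y * x)
    (F : Finset G) : (F : Set G) ⊆ A → ∃ c, PSer p (⊥ : Subgroup G) c
      (Subgroup.closure (F : Set G)) := by
  classical
  induction F using Finset.induction_on with
  | empty =>
    intro _
    exact ⟨0, by simpa using PSer.base⟩
  | insert a F _ ih =>
    intro hF
    rw [Finset.coe_insert] at hF ⊢
    obtain ⟨c, hcF⟩ := ih ((Set.subset_insert _ _).trans hF)
    have haA : a ∈ A := hF (Set.mem_insert _ _)
    have hle : Subgroup.closure (F : Set G) ≤ Subgroup.closure (insert a (F : Set G)) :=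
      Subgroup.closure_mono (Set.subset_insert _ _)
    have hleA : Subgroup.closure (insert a (F : Set G)) ≤ A := (Subgroup.closure_le _).2 hF
    have hn : Subgroup.closure (insert a (F : Set G)) ≤
        normalizer (Subgroup.closure (F : Set G) : Set G) := by
      rw [Subgroup.le_normalizer_iff]
      intro h hh k hk
      have : h * k * h⁻¹ = k := by
        rw [hc h (hleA hh) k (hleA (hle hk))]
        group
      rw [this]
      exact hk
    have ha : a ∈ Subgroup.closure (insert a (F : Set G)) :=
      Subgroup.subset_closure (Set.mem_insert _ _)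
    have hsup : Subgroup.closure (insert a (F : Set G)) ≤
        Subgroup.closure (F : Set G) ⊔ Subgroup.closure {a} := by
      rw [Subgroup.closure_le]
      rintro x (rfl | hx)
      · exact (le_sup_right : _ ≤ Subgroup.closure (F : Set G) ⊔ _) (Subgroup.subset_closure rfl)
      · exact (le_sup_left : Subgroup.closure (F : Set G) ≤ _) (Subgroup.subset_closure hx)
    by_cases h : ∀ k : ℕ, 0 < k → a ^ k ∉ Subgroup.closure (F : Set G)
    · refine ⟨c + 1, PSer.cyc a hcF hle hn ha ?_ h⟩
      intro y hy
      induction hy using Subgroup.closure_induction with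
      | mem y hy =>
        rcases hy with rfl | hy
        · exact ⟨-1, by simp⟩
        · exact ⟨0, by simpa using Subgroup.subset_closure hy⟩
      | one => exact ⟨0, by simp⟩
      | mul x y hx hy ihx ihy =>
        obtain ⟨k, hk⟩ := ihx
        obtain ⟨l, hl⟩ := ihy
        refine ⟨k + l, ?_⟩
        have hxy : x * y * a ^ (k + l) = (x * a ^ k) * (y * a ^ l) := by
          rw [zpow_add]
          have : y * a ^ k = a ^ k * y :=
            hc _ (hleA hy) _ (A.zpow_mem haA k)
          calc x * y * (a ^ k * a ^ l) = x * (y * a ^ k) * a ^ l := by group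
            _ = x * (a ^ k * y) * a ^ l := by rw [this]
            _ = _ := by group
        rw [hxy]
        exact Subgroup.mul_mem _ hk hl
      | inv x hx ihx =>
        obtain ⟨k, hk⟩ := ihx
        refine ⟨-k, ?_⟩
        have : x⁻¹ * a ^ (-k) = (x * a ^ k)⁻¹ := by
          rw [mul_inv_rev, zpow_neg]
          exact hc _ (A.inv_mem (hleA hx)) _ (A.inv_mem (A.zpow_mem haA k))
        rw [this]
        exact Subgroup.inv_mem _ hk
    · push Not at h
      obtain ⟨k, hk, hak⟩ := h
      refine ⟨c, PSer.fin hcF hle hn ?_⟩
      have hdvd := relIndex_dvd hle hn ha hsup hak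
      intro h0
      rw [h0, zero_dvd_iff] at hdvd
      omega

/-- pulling back a series along a surjection -/
theorem PSer.comap {G' : Type*} [Group G'] {p : ℕ} (f : G →* G') (hf : Function.Surjective f)
    {B : Subgroup G'} {c : ℕ} {H : Subgroup G'} (h : PSer p B c H) :
    PSer p (B.comap f) c (H.comap f) := by
  induction h with
  | base => exact PSer.base
  | @cyc c H₁ H x hP hle hn hx hgen hinf ih =>
    obtain ⟨x', rfl⟩ := hf x
    refine PSer.cyc x' ih (Subgroup.comap_mono hle) ?_ hx ?_ ?_
    · exact (Subgroup.comap_mono hn).trans (Subgroup.le_normalizer_comap f)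
    · intro y hy
      obtain ⟨k, hk⟩ := hgen (f y) hy
      exact ⟨k, by simpa using hk⟩
    · intro k hk hmem
      exact hinf k hk (by simpa using hmem)
  | @fin c H₁ H hP hle hn hidx ih =>
    refine PSer.fin ih (Subgroup.comap_mono hle)
      ((Subgroup.comap_mono hn).trans (Subgroup.le_normalizer_comap f)) ?_
    rw [Subgroup.relIndex_comap, Subgroup.map_comap_eq_self_of_surjective hf]
    exact hidx
  | @tor c H₁ H hP hle hcomm hp' ih =>
    refine PSer.tor ih (Subgroup.comap_mono hle) ?_ ?_
    · intro x hx y hy
      have := hcomm (f x) hx (f y) hy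
      simpa using this
    · intro x hx
      obtain ⟨n, hn, h⟩ := hp' (f x) hx
      exact ⟨n, hn, by simpa using h⟩

end Pool.MP_b7b920_al.H55
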