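import Mathlib
import Pool.Agent.Lib.MP_b7b920_al_h55.Lattice

set_option autoImplicit false

namespace Pool.MP_b7b920_al.H55

open Subgroup

/-- a finitely generated group with an abelian normal `p`-section `A/B` of finite rank such that
`G/A` has a series with factors infinite cyclic, finite, or `p'`-torsion: then `A/B` is finite -/
theorem step_p {p r : ℕ} (hp : p.Prime) {G : Type*} [Group G] (hfg : Group.FG G) (hr : RankLE r G)
    {A B : Subgroup G} (hA : A.Normal) (hB : B.Normal)
    (hcomm : ∀ x ∈ A, ∀ y ∈ A, x * y = y * x) (htor : ∀ a ∈ A, ∃ k : ℕ, a ^ (p ^ k) ∈ B)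
    {c : ℕ} (hP : PSer p A c ⊤) : B.relIndex A ≠ 0 := by
  classical
  let Ab : Subgroup (G ⧸ B) := A.map (QuotientGroup.mk' B)
  have hAb : Ab.Normal := Subgroup.Normal.map hA _ (QuotientGroup.mk'_surjective B)
  have hAbc : ∀ x y : Ab, x * y = y * x := by
    rintro ⟨_, ⟨x, hx, rfl⟩⟩ ⟨_, ⟨y, hy, rfl⟩⟩
    apply Subtype.ext
    change QuotientGroup.mk' B x * QuotientGroup.mk' B y =
      QuotientGroup.mk' B y * QuotientGroup.mk' B x
    rw [← map_mul, ← map_mul, hcomm x hx y hy]
  let _ : CommGroup Ab := { (inferInstance : Group Ab) with mul_comm := hAbc }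
  let act : DistribMulAction G (Additive Ab) :=
    { smul := fun g t => Additive.ofMul (MulAut.conjNormal (QuotientGroup.mk' B g)
        (Additive.toMul t))
      one_smul := by
        intro t
        change Additive.ofMul (MulAut.conjNormal (QuotientGroup.mk' B 1) (Additive.toMul t)) = t
        rw [map_one, map_one]; rfl
      mul_smul := by
        intro g h t
        change Additive.ofMul (MulAut.conjNormal (QuotientGroup.mk' B (g * h)) (Additive.toMul t)) =
          Additive.ofMul (MulAut.conjNormal (QuotientGroup.mk' B g)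
            (MulAut.conjNormal (QuotientGroup.mk' B h) (Additive.toMul t)))
        rw [map_mul, map_mul]; rfl
      smul_zero := by
        intro g
        change Additive.ofMul (MulAut.conjNormal (QuotientGroup.mk' B g) (1 : Ab)) = 0
        rw [map_one]; rfl
      smul_add := by
        intro g s t
        change Additive.ofMul (MulAut.conjNormal (QuotientGroup.mk' B g)
          (Additive.toMul s * Additive.toMul t)) = _
        rw [map_mul]; rfl }
  have hsmul : ∀ (g : G) (t : Ab), ((Additive.toMul (g • (Additive.ofMul t)) : Ab) : G ⧸ B) =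
      QuotientGroup.mk' B g * t * (QuotientGroup.mk' B g)⁻¹ := by
    intro g t
    exact MulAut.conjNormal_apply _ _
  let κ₀ : G → Additive Ab := fun a =>
    if h : a ∈ A then Additive.ofMul ⟨QuotientGroup.mk' B a, Subgroup.mem_map_of_mem _ h⟩ else 0
  have hκ₀ : ∀ a (h : a ∈ A), κ₀ a =
      Additive.ofMul (⟨QuotientGroup.mk' B a, Subgroup.mem_map_of_mem _ h⟩ : Ab) := by
    intro a h
    simp only [κ₀, h, dif_pos]
  have hκ₀surj : ∀ t : Additive Ab, ∃ a ∈ A, κ₀ a = t := by
    intro t
    obtain ⟨a, ha, h⟩ := (Additive.toMul t).2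
    refine ⟨a, ha, ?_⟩
    rw [hκ₀ a ha]
    apply Additive.toMul.injective
    exact Subtype.ext h
  have hT1 : ∀ t : Additive Ab, ∃ k : ℕ, p ^ k • t = 0 := by
    intro t
    obtain ⟨a, ha, rfl⟩ := hκ₀surj t
    obtain ⟨k, hk⟩ := htor a ha
    refine ⟨k, ?_⟩
    rw [hκ₀ a ha]
    apply Additive.toMul.injective
    apply Subtype.ext
    change (QuotientGroup.mk' B a) ^ (p ^ k) = 1
    rw [← map_pow]
    exact (QuotientGroup.eq_one_iff _).2 hk
  have hrAb : RankLE r Ab := (hr.quotient B).subgroup Ab
  have hT2 : {t : Additive Ab | p • t = 0}.Finite := by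
    let Ω : Subgroup Ab := { carrier := {x | x ^ p = 1}
                             one_mem' := one_pow p
                             mul_mem' := fun {a b} ha hb => by
                               simp only [Set.mem_ofPred_eq] at ha hb ⊢
                               rw [mul_pow, ha, hb, one_mul]
                             inv_mem' := fun {a} ha => by
                               simp only [Set.mem_ofPred_eq] at ha ⊢
                               rw [inv_pow, ha, inv_one] }
    have hΩ : Finite Ω := finite_of_comm (hrAb.subgroup Ω) hp.pos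
      (fun x y => mul_comm x y) (fun x => Subtype.ext x.2)
    have : {t : Additive Ab | p • t = 0} = (fun x : Ω => Additive.ofMul (x : Ab)) '' Set.univ := by
      ext t
      constructor
      · intro ht
        exact ⟨⟨Additive.toMul t, ht⟩, trivial, rfl⟩
      · rintro ⟨x, _, rfl⟩
        exact x.2
    rw [this]
    exact Set.Finite.image _ Set.finite_univ
  obtain ⟨N, hN, κ, hκ, hκA⟩ := near_split (T := Additive Ab) hT1 hT2 hp (A := A) (κ₀ := κ₀)
    (by
      intro a ha t
      obtain ⟨b, hb, rfl⟩ := hκ₀surj t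
      rw [hκ₀ b hb]
      apply Additive.toMul.injective
      apply Subtype.ext
      rw [hsmul]
      change QuotientGroup.mk' B a * QuotientGroup.mk' B b * (QuotientGroup.mk' B a)⁻¹ =
        QuotientGroup.mk' B b
      rw [← map_mul, hcomm a ha b hb, map_mul, mul_inv_cancel_right])
    (by
      intro a ha b hb
      rw [hκ₀ a ha, hκ₀ b hb, hκ₀ _ (A.mul_mem ha hb)]
      rfl)
    hP (by rw [Subgroup.normalizer_eq_top])
    (by
      intro x _ a ha
      have hxa : x * a * x⁻¹ ∈ A := hA.conj_mem a ha x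
      rw [hκ₀ a ha, hκ₀ _ hxa]
      apply Additive.toMul.injective
      apply Subtype.ext
      rw [hsmul]
      change QuotientGroup.mk' B (x * a * x⁻¹) = _
      rw [map_mul, map_mul, map_inv])
  -- finite generation
  obtain ⟨S, hS⟩ := hfg.out
  choose k hk using fun z : G => hT1 (κ z)
  let l := ∑ z ∈ S, k z
  have hl : ∀ z ∈ S, p ^ l • κ z = 0 := by
    intro z hz
    change p ^ (∑ z ∈ S, k z) • κ z = 0
    rw [← Nat.sub_add_cancel (Finset.single_le_sum (f := k) (fun _ _ => Nat.zero_le _) hz),
      pow_add, mul_smul, hk, smul_zero]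
  have hker' : Subgroup.closure (S : Set G) ≤ (hκ.nsmul (p ^ l)).ker := by
    rw [Subgroup.closure_le]
    intro z hz
    exact ⟨Subgroup.mem_top z, hl z hz⟩
  have hker : ∀ z : G, z ∈ (hκ.nsmul (p ^ l)).ker := by
    intro z
    apply hker'
    rw [hS]
    exact Subgroup.mem_top z
  have hexp : ∀ t : Ab, t ^ (p ^ l * N) = 1 := by
    intro t
    obtain ⟨a, ha, hat⟩ := hκ₀surj (Additive.ofMul t)
    have h1 := (hker a).2
    simp only at h1
    rw [hκA a ha, hat] at h1
    rw [mul_comm, pow_mul]
    exact h1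
  have hfinAb : Finite Ab := finite_of_comm hrAb (Nat.mul_pos (pow_pos hp.pos l) hN) hAbc hexp
  have h1 : B.relIndex A = Nat.card Ab := by
    have := Subgroup.relIndex_ker (K := A) (QuotientGroup.mk' B)
    rwa [QuotientGroup.ker_mk'] at this
  rw [h1]
  exact Nat.card_pos.ne'

/-- **Theorem R**: a f.g. soluble group of finite rank has, for almost all primes `p`, a
subnormal series with factors infinite cyclic, finite, or abelian `p'`-torsion -/
theorem exists_series {r : ℕ} (n : ℕ) : ∀ {G : Type*} [Group G], Group.FG G →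
    derivedSeries G n = ⊥ → RankLE r G →
    ∃ m : ℕ, 0 < m ∧ ∀ p : ℕ, p.Prime → ¬ p ∣ m → ∃ c, PSer p (⊥ : Subgroup G) c ⊤ := by
  classical
  induction n with
  | zero =>
    intro G _ _ h _
    rw [derivedSeries_zero] at h
    exact ⟨1, Nat.one_pos, fun p _ _ => ⟨0, h ▸ PSer.base⟩⟩
  | succ n ih =>
    intro G _ hfg h hr
    let A := derivedSeries G n
    have hAn : A.Normal := derivedSeries_normal G n
    have hcomm : ∀ x ∈ A, ∀ y ∈ A, x * y = y * x := by
      intro x hx y hy
      have : x * y * x⁻¹ * y⁻¹ ∈ derivedSeries G (n+1) := by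
        rw [derivedSeries_succ]
        exact Subgroup.commutator_mem_commutator hx hy
      rw [h, Subgroup.mem_bot, mul_inv_eq_one, mul_inv_eq_iff_eq_mul] at this
      exact this
    have hfgQ : Group.FG (G ⧸ A) := Group.fg_of_surjective (QuotientGroup.mk'_surjective A)
    obtain ⟨m₁, hm₁, hm₁p⟩ := ih hfgQ
      (by
        rw [← map_derivedSeries_eq (QuotientGroup.mk'_surjective A) n]
        exact (Subgroup.map_eq_bot_iff _).2 (by rw [QuotientGroup.ker_mk'])) (hr.quotient A)
    obtain ⟨F, hFA, hF⟩ := exists_lattice hr A hcomm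
    have hclA : Subgroup.closure (F : Set G) ≤ A := (Subgroup.closure_le _).2 hFA
    obtain ⟨S, hS⟩ := hfg.out
    -- denominators
    choose! d hd0 hd using hF
    let S' : Finset G := S ∪ S.image (fun x => x⁻¹)
    let m₂ : ℕ := ∏ g ∈ S', ∏ f ∈ F, d (g * f * g⁻¹)
    have hconjA : ∀ g : G, ∀ a ∈ A, g * a * g⁻¹ ∈ A := fun g a ha => hAn.conj_mem a ha g
    have hm₂ : 0 < m₂ := Finset.prod_pos (fun g _ => Finset.prod_pos (fun f hf =>
      hd0 _ (hconjA g f (hFA hf))))
    have hm₂F : ∀ g ∈ S', ∀ f ∈ F, (g * f * g⁻¹) ^ m₂ ∈ Subgroup.closure (F : Set G) := by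
      intro g hg f hf
      have h1 : d (g * f * g⁻¹) ∣ m₂ :=
        (Finset.dvd_prod_of_mem (fun f => d (g * f * g⁻¹)) hf).trans
          (Finset.dvd_prod_of_mem (fun g => ∏ f ∈ F, d (g * f * g⁻¹)) hg)
      obtain ⟨e, he⟩ := h1
      rw [he, pow_mul]
      exact Subgroup.pow_mem _ (hd _ (hconjA g f (hFA hf))) e
    have hm₂cl : ∀ g ∈ S', ∀ u ∈ Subgroup.closure (F : Set G),
        (g * u * g⁻¹) ^ m₂ ∈ Subgroup.closure (F : Set G) := by
      intro g hg u hu
      induction hu using Subgroup.closure_induction with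
      | mem u hu => exact hm₂F g hg u hu
      | one => simp
      | mul a b ha hb iha ihb =>
        have h1 : g * (a * b) * g⁻¹ = (g * a * g⁻¹) * (g * b * g⁻¹) := by group
        have h2 : Commute (g * a * g⁻¹) (g * b * g⁻¹) :=
          hcomm _ (hconjA g a (hclA ha)) _ (hconjA g b (hclA hb))
        rw [h1, h2.mul_pow]
        exact Subgroup.mul_mem _ iha ihb
      | inv a ha iha =>
        have h1 : g * a⁻¹ * g⁻¹ = (g * a * g⁻¹)⁻¹ := by group
        rw [h1, inv_pow]
        exact Subgroup.inv_mem _ iha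
    refine ⟨m₁ * m₂, Nat.mul_pos hm₁ hm₂, fun p hp hpm => ?_⟩
    have hpm₁ : ¬ p ∣ m₁ := fun h => hpm (h.mul_right _)
    have hpm₂ : ¬ p ∣ m₂ := fun h => hpm (h.mul_left _)
    have hcop : m₂.Coprime p := ((Nat.Prime.coprime_iff_not_dvd hp).2 hpm₂).symm
    obtain ⟨c₁, hc₁⟩ := hm₁p p hp hpm₁
    have hser1 : PSer p A c₁ ⊤ := by
      have := hc₁.comap (QuotientGroup.mk' A) (QuotientGroup.mk'_surjective A)
      rwa [Subgroup.comap_top, MonoidHom.comap_bot, QuotientGroup.ker_mk'] at this
    -- the `p'`-isolator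
    let B : Subgroup G :=
      { carrier := {a | a ∈ A ∧ ∃ k : ℕ, k.Coprime p ∧ a ^ k ∈ Subgroup.closure (F : Set G)}
        one_mem' := ⟨A.one_mem, 1, Nat.coprime_one_left p, by simp⟩
        mul_mem' := by
          rintro a b ⟨ha, k, hk, hak⟩ ⟨hb, l, hl, hbl⟩
          refine ⟨A.mul_mem ha hb, k * l, hk.mul_left hl, ?_⟩
          have h2 : Commute a b := hcomm a ha b hb
          rw [h2.mul_pow, pow_mul, mul_comm k l, pow_mul]
          exact Subgroup.mul_mem _ (Subgroup.pow_mem _ hak l) (Subgroup.pow_mem _ hbl k)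
        inv_mem' := by
          rintro a ⟨ha, k, hk, hak⟩
          exact ⟨A.inv_mem ha, k, hk, by rw [inv_pow]; exact Subgroup.inv_mem _ hak⟩ }
    have hBA : B ≤ A := fun a ha => ha.1
    have hclB : Subgroup.closure (F : Set G) ≤ B :=
      fun a ha => ⟨hclA ha, 1, Nat.coprime_one_left p, by rwa [pow_one]⟩
    have hBgen : ∀ g ∈ S', ∀ a ∈ B, g * a * g⁻¹ ∈ B := by
      rintro g hg a ⟨ha, k, hk, hak⟩
      refine ⟨hconjA g a ha, k * m₂, hk.mul_left hcop, ?_⟩
      rw [pow_mul, conj_pow]
      exact hm₂cl g hg _ hak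
    have hBn : B.Normal := by
      have h1 : ∀ g ∈ Subgroup.closure (S : Set G), ∀ a ∈ B, g * a * g⁻¹ ∈ B := by
        intro g hg
        induction hg using Subgroup.closure_induction'' with
        | mem x hx =>
          exact hBgen x (Finset.mem_union_left _ hx)
        | inv_mem x hx =>
          exact hBgen x⁻¹ (Finset.mem_union_right _ (Finset.mem_image_of_mem _ hx))
        | one => intro a ha; simpa using ha
        | mul x y _ _ ihx ihy =>
          intro a ha
          have : x * y * a * (x * y)⁻¹ = x * (y * a * y⁻¹) * x⁻¹ := by group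
          rw [this]
          exact ihx _ (ihy a ha)
      constructor
      intro a ha g
      exact h1 g (by rw [hS]; exact Subgroup.mem_top g) a ha
    have htor : ∀ a ∈ A, ∃ k : ℕ, a ^ (p ^ k) ∈ B := by
      intro a ha
      have hd1 := hd0 a ha
      obtain ⟨k, q, hq, hkq⟩ := Nat.exists_eq_pow_mul_and_not_dvd hd1.ne' p hp.ne_one
      refine ⟨k, A.pow_mem ha _, q, ((Nat.Prime.coprime_iff_not_dvd hp).2 hq).symm, ?_⟩
      rw [← pow_mul, ← hkq]
      exact hd a ha
    have hfin := step_p hp hfg hr hAn hBn hcomm htor hser1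
    obtain ⟨c₀, hc₀⟩ := PSer.closure_finset (p := p) hcomm F hFA
    have hser2 : PSer p (⊥ : Subgroup G) c₀ B := by
      apply PSer.tor hc₀ hclB
      · intro x hx y hy
        rw [hcomm x hx.1 y hy.1]
        simp
      · rintro x ⟨hx, k, hk, hxk⟩
        exact ⟨k, hk, hxk⟩
    have hser3 : PSer p (⊥ : Subgroup G) c₀ A :=
      PSer.fin hser2 hBA (by rw [Subgroup.normalizer_eq_top]; exact le_top) hfin
    exact ⟨_, hser3.trans hser1⟩

end Pool.MP_b7b920_al.H55
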