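import Mathlib

set_option autoImplicit false

namespace Pool.MP_b7b920_al.H55

open Subgroup

/-- `ZLen n H`: Hirsch length at least `n`. -/
def ZLen {G : Type*} [Group G] : ℕ → Subgroup G → Prop
  | 0, _ => True
  | n + 1, H => ∃ H' : Subgroup G, H' ≤ H ∧ ZLen n H' ∧
      ∃ x ∈ H, (∀ y, y ∈ H' ↔ x * y * x⁻¹ ∈ H') ∧ ∀ k : ℕ, 0 < k → x ^ k ∉ H'

section

variable {G : Type*} [Group G]

theorem ZLen.mono {n : ℕ} {H₁ H₂ : Subgroup G} (h : H₁ ≤ H₂) (hn : ZLen n H₁) : ZLen n H₂ := by
  cases n with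
  | zero => trivial
  | succ n =>
    obtain ⟨H', hH', hz, x, hx, hxn, hxk⟩ := hn
    exact ⟨H', hH'.trans h, hz, x, h hx, hxn, hxk⟩

theorem ZLen.of_succ {n : ℕ} {H : Subgroup G} (hn : ZLen (n+1) H) : ZLen n H := by
  obtain ⟨H', hH', hz, _⟩ := hn
  exact hz.mono hH'

theorem ZLen.of_le {m n : ℕ} {H : Subgroup G} (hmn : m ≤ n) (hn : ZLen n H) : ZLen m H := by
  induction hmn with
  | refl => exact hn
  | step _ ih => exact ih hn.of_succ

theorem mem_norm_iff {H' : Subgroup G} {x : G} :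
    x ∈ normalizer (H' : Set G) ↔ ∀ y, y ∈ H' ↔ x * y * x⁻¹ ∈ H' := Subgroup.mem_normalizer_iff

/-- passing to a subgroup containing a power of every element -/
theorem ZLen.inf_of_pow {H₁ : Subgroup G} {n : ℕ} : ∀ {H : Subgroup G},
    (∀ x ∈ H, ∃ j : ℕ, 0 < j ∧ x ^ j ∈ H₁) → ZLen n H → ZLen n (H ⊓ H₁) := by
  induction n with
  | zero => intros; trivial
  | succ n ih =>
    intro H hpow hn
    obtain ⟨H', hH', hz, x, hx, hxn, hxk⟩ := hn
    obtain ⟨j, hj, hxj⟩ := hpow x hx
    refine ⟨H' ⊓ H₁, inf_le_inf_right _ hH', ih (fun y hy => hpow y (hH' hy)) hz, x ^ j,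
      ⟨H.pow_mem hx j, hxj⟩, ?_, ?_⟩
    · rw [← mem_norm_iff]
      apply Subgroup.inf_normalizer_le_normalizer_inf
      exact ⟨Subgroup.pow_mem _ (mem_norm_iff.2 hxn) j, Subgroup.le_normalizer hxj⟩
    · intro k hk hmem
      rw [← pow_mul] at hmem
      exact hxk (j * k) (Nat.mul_pos hj hk) hmem.1

/-- images under injective homomorphisms -/
theorem ZLen.map {G' : Type*} [Group G'] (f : G →* G') (hf : Function.Injective f) {n : ℕ} :
    ∀ {H : Subgroup G}, ZLen n H → ZLen n (H.map f) := by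
  induction n with
  | zero => intros; trivial
  | succ n ih =>
    intro H hn
    obtain ⟨H', hH', hz, x, hx, hxn, hxk⟩ := hn
    refine ⟨H'.map f, Subgroup.map_mono hH', ih hz, f x, Subgroup.mem_map_of_mem f hx, ?_, ?_⟩
    · rw [← mem_norm_iff]
      exact Subgroup.le_normalizer_map f (Subgroup.mem_map_of_mem f (mem_norm_iff.2 hxn))
    · intro k hk hmem
      rw [← map_pow] at hmem
      obtain ⟨y, hy, hyx⟩ := hmem
      exact hxk k hk (hf hyx ▸ hy)

/-- preimages under homomorphisms whose range contains `H` -/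
theorem ZLen.comap {G' : Type*} [Group G'] (f : G →* G') {n : ℕ} :
    ∀ {H : Subgroup G'}, H ≤ f.range → ZLen n H → ZLen n (H.comap f) := by
  induction n with
  | zero => intros; trivial
  | succ n ih =>
    intro H hr hn
    obtain ⟨H', hH', hz, x, hx, hxn, hxk⟩ := hn
    obtain ⟨x', rfl⟩ := hr hx
    refine ⟨H'.comap f, Subgroup.comap_mono hH', ih (hH'.trans hr) hz, x', hx, ?_, ?_⟩
    · intro y
      simp only [Subgroup.mem_comap, map_mul, map_inv]
      exact hxn (f y)
    · intro k hk hmem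
      simp only [Subgroup.mem_comap, map_pow] at hmem
      exact hxk k hk hmem

/-- extension additivity -/
theorem ZLen.add {G' : Type*} [Group G'] (f : G →* G') {m : ℕ} (hm : ZLen m f.ker) {n : ℕ} :
    ∀ {H : Subgroup G'}, H ≤ f.range → ZLen n H → ZLen (m + n) (H.comap f) := by
  induction n with
  | zero =>
    intro H _ _
    exact hm.mono (fun x hx => by
      rw [Subgroup.mem_comap, (MonoidHom.mem_ker).1 hx]; exact H.one_mem)
  | succ n ih =>
    intro H hr hn
    obtain ⟨H', hH', hz, x, hx, hxn, hxk⟩ := hn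
    obtain ⟨x', rfl⟩ := hr hx
    refine ⟨H'.comap f, Subgroup.comap_mono hH', ih (hH'.trans hr) hz, x', hx, ?_, ?_⟩
    · intro y
      simp only [Subgroup.mem_comap, map_mul, map_inv]
      exact hxn (f y)
    · intro k hk hmem
      simp only [Subgroup.mem_comap, map_pow] at hmem
      exact hxk k hk hmem

/-- if `x` normalises `H'` and `x ^ k * h⁻¹` has a positive power in `H'` then so has `x` -/
theorem pow_aux {H' : Subgroup G} {x h : G} (hx : x ∈ normalizer (H' : Set G)) (hh : h ∈ H')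
    (j : ℕ) (a : ℤ) (hmem : (x ^ a * h) ^ j ∈ H') : x ^ (a * j) ∈ H' := by
  have key : ∀ j : ℕ, ∃ u ∈ H', (x ^ a * h) ^ j = x ^ (a * j) * u := by
    intro j
    induction j with
    | zero => exact ⟨1, H'.one_mem, by simp⟩
    | succ j ih =>
      obtain ⟨u, hu, he⟩ := ih
      refine ⟨(x ^ a)⁻¹ * u * x ^ a * h, ?_, ?_⟩
      · refine H'.mul_mem ?_ hh
        have := (Subgroup.mem_normalizer_iff'').1 (Subgroup.zpow_mem _ hx a) u
        exact this.1 hu
      · rw [pow_succ, he]
        have : x ^ (a * ((j + 1 : ℕ) : ℤ)) = x ^ (a * (j:ℤ)) * x ^ a := by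
          rw [← zpow_add]; congr 1; push_cast; ring
        rw [this]
        group
  obtain ⟨u, hu, he⟩ := key j
  rw [he] at hmem
  exact (Subgroup.mul_mem_cancel_right _ hu).1 hmem

/-- subadditivity -/
theorem ZLen.split {G' : Type*} [Group G'] (f : G →* G') {n : ℕ} :
    ∀ {H : Subgroup G}, ZLen n H →
      ∃ m s : ℕ, m + s = n ∧ ZLen m (H ⊓ f.ker) ∧ ZLen s (H.map f) := by
  induction n with
  | zero => intros; exact ⟨0, 0, rfl, trivial, trivial⟩
  | succ n ih =>
    intro H hn
    obtain ⟨H', hH', hz, x, hx, hxn, hxk⟩ := hn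
    obtain ⟨m, s, hms, hm, hs⟩ := ih hz
    have hxN := mem_norm_iff.2 hxn
    by_cases hcase : ∀ k : ℕ, 0 < k → (f x) ^ k ∉ H'.map f
    · refine ⟨m, s + 1, by omega, hm.mono (inf_le_inf_right _ hH'), H'.map f,
        Subgroup.map_mono hH', hs, f x, Subgroup.mem_map_of_mem f hx, ?_, hcase⟩
      rw [← mem_norm_iff]
      exact Subgroup.le_normalizer_map f (Subgroup.mem_map_of_mem f hxN)
    · push Not at hcase
      obtain ⟨k, hk, hmem⟩ := hcase
      rw [← map_pow] at hmem
      obtain ⟨h, hh, hhx⟩ := hmem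
      refine ⟨m + 1, s, by omega, ⟨H' ⊓ f.ker, inf_le_inf_right _ hH', hm, x ^ k * h⁻¹,
        ⟨H.mul_mem (H.pow_mem hx k) (hH' (H'.inv_mem hh)), ?_⟩, ?_, ?_⟩,
        hs.mono (Subgroup.map_mono hH')⟩
      · change x ^ k * h⁻¹ ∈ f.ker
        rw [MonoidHom.mem_ker, map_mul, map_inv, hhx, mul_inv_cancel]
      · rw [← mem_norm_iff]
        apply Subgroup.inf_normalizer_le_normalizer_inf
        refine ⟨Subgroup.mul_mem _ (Subgroup.pow_mem _ hxN k)
          (Subgroup.le_normalizer (H'.inv_mem hh)), ?_⟩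
        rw [Subgroup.normalizer_eq_top]
        exact Subgroup.mem_top _
      · intro j hj hmem
        have h1 := pow_aux hxN (H'.inv_mem hh) j (k : ℤ) (by rw [zpow_natCast]; exact hmem.1)
        apply hxk (k * j) (Nat.mul_pos hk hj)
        rw [← zpow_natCast]
        push_cast
        exact h1

/-- reduction to finitely generated subgroups -/
theorem ZLen.exists_finite {n : ℕ} : ∀ {H : Subgroup G}, ZLen n H →
    ∃ S : Finset G, (S : Set G) ⊆ H ∧ ∀ M : Subgroup G, (S : Set G) ⊆ M → ZLen n (H ⊓ M) := by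
  classical
  induction n with
  | zero => intro H _; exact ⟨∅, by simp, fun _ _ => trivial⟩
  | succ n ih =>
    intro H hn
    obtain ⟨H', hH', hz, x, hx, hxn, hxk⟩ := hn
    obtain ⟨S, hS, hSM⟩ := ih hz
    refine ⟨insert x S, ?_, ?_⟩
    · rw [Finset.coe_insert]
      exact Set.insert_subset hx (hS.trans hH')
    · intro M hM
      rw [Finset.coe_insert] at hM
      have hxM : x ∈ M := hM (Set.mem_insert _ _)
      refine ⟨H' ⊓ M, inf_le_inf_right _ hH', hSM M ((Set.subset_insert _ _).trans hM), x,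
        ⟨hx, hxM⟩, ?_, fun k hk hmem => hxk k hk hmem.1⟩
      rw [← mem_norm_iff]
      apply Subgroup.inf_normalizer_le_normalizer_inf
      exact ⟨mem_norm_iff.2 hxn, Subgroup.le_normalizer hxM⟩

/-- in an extension by a torsion-free cyclic group the length drops by at most one -/
theorem ZLen.of_int {n : ℕ} {H₁ : Subgroup G} : ∀ {H : Subgroup G} (φ : G → ℤ),
    (∀ x ∈ H, ∀ y ∈ H, φ (x * y) = φ x + φ y) → (∀ x ∈ H, φ x = 0 → x ∈ H₁) →
    (H ≤ normalizer (H₁ : Set G)) → ZLen (n + 1) H → ZLen n (H ⊓ H₁) := by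
  induction n with
  | zero => intros; trivial
  | succ n ih =>
    intro H φ hφ hker hnorm hn
    obtain ⟨H', hH', hz, x, hx, hxn, hxk⟩ := hn
    have hxN := mem_norm_iff.2 hxn
    have ih' := ih φ (fun a ha b hb => hφ a (hH' ha) b (hH' hb)) (fun a ha => hker a (hH' ha))
      (hH'.trans hnorm) hz
    by_cases hcase : ∀ h ∈ H', φ h = 0
    · exact hz.mono (fun a ha => ⟨hH' ha, hker a (hH' ha) (hcase a ha)⟩)
    · push Not at hcase
      obtain ⟨h, hh, hφh⟩ := hcase
      -- φ is a homomorphism on H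
      have hone : φ 1 = 0 := by
        have := hφ 1 H.one_mem 1 H.one_mem
        simpa using this
      have hinv : ∀ a ∈ H, φ a⁻¹ = - φ a := by
        intro a ha
        have := hφ a ha a⁻¹ (H.inv_mem ha)
        rw [mul_inv_cancel, hone] at this
        linarith
      have hpow : ∀ a ∈ H, ∀ k : ℕ, φ (a ^ k) = k * φ a := by
        intro a ha k
        induction k with
        | zero => simp [hone]
        | succ k ihk =>
          rw [pow_succ, hφ _ (H.pow_mem ha k) _ ha, ihk]
          push_cast; ring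
      have hzpow : ∀ a ∈ H, ∀ k : ℤ, φ (a ^ k) = k * φ a := by
        intro a ha k
        obtain ⟨k, rfl | rfl⟩ := k.eq_nat_or_neg
        · rw [zpow_natCast, hpow a ha]
        · rw [zpow_neg, zpow_natCast, hinv _ (H.pow_mem ha k), hpow a ha]
          ring
      have hhH := hH' hh
      have hzH : x ^ (φ h) * h ^ (-(φ x)) ∈ H :=
        H.mul_mem (H.zpow_mem hx _) (H.zpow_mem hhH _)
      refine ⟨H' ⊓ H₁, inf_le_inf_right _ hH', ih', x ^ (φ h) * h ^ (-(φ x)), ⟨hzH, ?_⟩, ?_, ?_⟩
      · apply hker _ hzH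
        rw [hφ _ (H.zpow_mem hx _) _ (H.zpow_mem hhH _), hzpow x hx, hzpow h hhH]
        ring
      · rw [← mem_norm_iff]
        apply Subgroup.inf_normalizer_le_normalizer_inf
        refine ⟨Subgroup.mul_mem _ (Subgroup.zpow_mem _ hxN _)
          (Subgroup.le_normalizer (H'.zpow_mem hh _)), hnorm hzH⟩
      · intro j hj hmem
        have h1 := pow_aux hxN (H'.zpow_mem hh (-(φ x))) j (φ h) hmem.1
        have h2 : φ h * (j : ℤ) ≠ 0 := mul_ne_zero hφh (by exact_mod_cast hj.ne')
        obtain ⟨l, hl | hl⟩ := (φ h * (j:ℤ)).eq_nat_or_neg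
        · rw [hl] at h1 h2
          rw [zpow_natCast] at h1
          exact hxk l (Nat.pos_of_ne_zero (by exact_mod_cast h2)) h1
        · rw [hl] at h1 h2
          rw [zpow_neg, zpow_natCast] at h1
          exact hxk l (Nat.pos_of_ne_zero (by
            rintro rfl; simp at h2)) ((Subgroup.inv_mem_iff _).1 h1)

end

end Pool.MP_b7b920_al.H55
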