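import Mathlib
import Pool.Agent.Lib.MP_b7b920_al_h55.Robinson
import Pool.Agent.Lib.MP_b7b920_al_h55.ZLen

set_option autoImplicit false

namespace Pool.MP_b7b920_al.H55

open Subgroup

variable {G : Type*} [Group G]

theorem ZLen.not_bot {n : ℕ} : ¬ ZLen (n + 1) (⊥ : Subgroup G) := by
  rintro ⟨H', _, _, x, hx, _, hxk⟩
  rw [Subgroup.mem_bot] at hx
  apply hxk 1 Nat.one_pos
  rw [hx, one_pow]
  exact H'.one_mem

/-- the number of infinite cyclic factors bounds `ZLen` -/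
theorem PSer.zlen_le {p : ℕ} (hp : p.Prime) {c : ℕ} {H : Subgroup G}
    (h : PSer p (⊥ : Subgroup G) c H) : ∀ n, ZLen n H → n ≤ c := by
  induction h with
  | base =>
    intro n hn
    cases n with
    | zero => exact le_rfl
    | succ n => exact absurd hn ZLen.not_bot
  | @cyc c H₁ H x hP hle hn hx hgen hinf ih =>
    intro n hz
    cases n with
    | zero => exact Nat.zero_le _
    | succ n =>
      let _ : DistribMulAction G ℤ :=
        { smul := fun _ t => t, one_smul := fun _ => rfl, mul_smul := fun _ _ _ => rfl,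
          smul_zero := fun _ => rfl, smul_add := fun _ _ _ => rfl }
      obtain ⟨κ', ν, _, _, _, h1, h2, h3, h4⟩ := extend_cyc (T := ℤ) (κ := fun _ => 0) hle hn hx
        hgen hinf DerOn.zero (fun x _ => (smul_zero _).symm)
      have h5 : ZLen n (H ⊓ H₁) := by
        apply ZLen.of_int ν h1 _ hn hz
        intro y hy h0
        have := h4 y hy
        rw [h0] at this
        simpa using this
      have := ih n (h5.mono inf_le_right)
      omega
  | @fin c H₁ H hP hle hn hidx ih =>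
    intro n hz
    refine ih n ((ZLen.inf_of_pow (H₁ := H₁) ?_ hz).mono inf_le_right)
    intro x hx
    obtain ⟨j, hj, _, hxj⟩ := Subgroup.exists_pow_mem_of_relIndex_ne_zero hidx hx
    exact ⟨j, hj, hxj.1⟩
  | @tor c H₁ H hP hle hcomm hp' ih =>
    intro n hz
    refine ih n ((ZLen.inf_of_pow (H₁ := H₁) ?_ hz).mono inf_le_right)
    intro x hx
    obtain ⟨k, hk, hxk⟩ := hp' x hx
    refine ⟨k, Nat.pos_of_ne_zero ?_, hxk⟩
    rintro rfl
    rw [Nat.coprime_zero_left] at hk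
    exact hp.ne_one hk

/-- elements of `H` centralising the section `H₁ / V` -/
def centSec (H H₁ V : Subgroup G) (hV : H ≤ normalizer (V : Set G))
    (hH₁ : H ≤ normalizer (H₁ : Set G)) : Subgroup G where
  carrier := {x | x ∈ H ∧ ∀ h ∈ H₁, x * h * x⁻¹ * h⁻¹ ∈ V}
  one_mem' := ⟨H.one_mem, fun h _ => by simp [V.one_mem]⟩
  mul_mem' := by
    rintro a b ⟨ha, ha'⟩ ⟨hb, hb'⟩
    refine ⟨H.mul_mem ha hb, fun h hh => ?_⟩
    have h1 : a * b * h * (a * b)⁻¹ * h⁻¹ =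
        (a * (b * h * b⁻¹ * h⁻¹) * a⁻¹) * (a * h * a⁻¹ * h⁻¹) := by group
    rw [h1]
    exact V.mul_mem (((Subgroup.mem_normalizer_iff).1 (hV ha) _).1 (hb' h hh)) (ha' h hh)
  inv_mem' := by
    rintro a ⟨ha, ha'⟩
    refine ⟨H.inv_mem ha, fun h hh => ?_⟩
    have h2 : a⁻¹ * h * a ∈ H₁ := ((Subgroup.mem_normalizer_iff'').1 (hH₁ ha) h).1 hh
    have h3 := ha' _ h2
    have h4 : a * (a⁻¹ * h * a) * a⁻¹ * (a⁻¹ * h * a)⁻¹ = (a⁻¹ * h * a * h⁻¹)⁻¹ := by group
    have h5 : a⁻¹ * h * a⁻¹⁻¹ * h⁻¹ = (a * (a⁻¹ * h * a) * a⁻¹ * (a⁻¹ * h * a)⁻¹)⁻¹ := by group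
    rw [h5]
    exact V.inv_mem h3

theorem centSec_relIndex {H H₁ V : Subgroup G} (hV : H ≤ normalizer (V : Set G))
    (hH₁ : H ≤ normalizer (H₁ : Set G)) (hfin : V.relIndex H₁ ≠ 0) :
    (centSec H H₁ V hV hH₁).relIndex H ≠ 0 := by
  classical
  have hX : Finite (H₁ ⧸ V.subgroupOf H₁) := Subgroup.index_ne_zero_iff_finite.1 hfin
  have hconj : ∀ (x : H) (h : H₁), (x : G) * h * (x : G)⁻¹ ∈ H₁ := fun x h =>
    ((Subgroup.mem_normalizer_iff).1 (hH₁ x.2) _).1 h.2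
  let act : MulAction H (H₁ ⧸ V.subgroupOf H₁) :=
    { smul := fun x => Quotient.map' (fun h => ⟨(x : G) * h * (x : G)⁻¹, hconj x h⟩) (by
        intro a b hab
        rw [QuotientGroup.leftRel_apply] at hab ⊢
        rw [Subgroup.mem_subgroupOf] at hab ⊢
        have : ((x : G) * a * (x : G)⁻¹)⁻¹ * ((x : G) * b * (x : G)⁻¹) =
            (x : G) * ((a : G)⁻¹ * b) * (x : G)⁻¹ := by group
        change ((x : G) * a * (x : G)⁻¹)⁻¹ * ((x : G) * b * (x : G)⁻¹) ∈ V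
        rw [this]
        exact ((Subgroup.mem_normalizer_iff).1 (hV x.2) _).1 hab)
      one_smul := by
        intro c
        induction c using Quotient.inductionOn' with
        | h a =>
          change Quotient.mk'' _ = Quotient.mk'' _
          congr 1
          apply Subtype.ext
          simp
      mul_smul := by
        intro x y c
        induction c using Quotient.inductionOn' with
        | h a =>
          change Quotient.mk'' _ = Quotient.mk'' _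
          congr 1
          apply Subtype.ext
          simp [mul_assoc] }
  have h1 : (MulAction.toPermHom H (H₁ ⧸ V.subgroupOf H₁)).ker.FiniteIndex := inferInstance
  have h2 : (MulAction.toPermHom H (H₁ ⧸ V.subgroupOf H₁)).ker ≤
      (centSec H H₁ V hV hH₁).subgroupOf H := by
    intro x hx
    refine ⟨x.2, fun h hh => ?_⟩
    have h3 : (MulAction.toPermHom H (H₁ ⧸ V.subgroupOf H₁)) x
        (QuotientGroup.mk (⟨h, hh⟩ : H₁)⁻¹) = QuotientGroup.mk (⟨h, hh⟩ : H₁)⁻¹ := by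
      rw [MonoidHom.mem_ker.1 hx]
      rfl
    have h4 : (QuotientGroup.mk (s := V.subgroupOf H₁)
        ⟨(x : G) * ((⟨h, hh⟩ : H₁)⁻¹ : H₁) * (x : G)⁻¹, hconj x _⟩) =
        QuotientGroup.mk (⟨h, hh⟩ : H₁)⁻¹ := h3
    rw [QuotientGroup.eq, Subgroup.mem_subgroupOf] at h4
    have h5 : ((x : G) * h⁻¹ * (x : G)⁻¹)⁻¹ * h⁻¹ ∈ V := h4
    have h6 : ((x : G) * h⁻¹ * (x : G)⁻¹)⁻¹ * h⁻¹ = (x : G) * h * (x : G)⁻¹ * h⁻¹ := by group
    rw [h6] at h5
    exact h5
  rw [Subgroup.relIndex]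
  intro h0
  have := Subgroup.index_dvd_of_le h2
  rw [h0] at this
  exact h1.index_ne_zero (Nat.eq_zero_of_zero_dvd this)

/-- trivial action -/
@[reducible] def trivAct (G T : Type*) [Group G] [AddCommGroup T] : DistribMulAction G T :=
  { smul := fun _ t => t, one_smul := fun _ => rfl, mul_smul := fun _ _ _ => rfl,
    smul_zero := fun _ => rfl, smul_add := fun _ _ _ => rfl }

/-- additive on a subgroup -/
def AddOn {T : Type*} [AddCommGroup T] (K : Subgroup G) (φ : G → T) : Prop :=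
  ∀ x ∈ K, ∀ y ∈ K, φ (x * y) = φ x + φ y

namespace AddOn

variable {T : Type*} [AddCommGroup T] {K : Subgroup G} {φ : G → T}

theorem one (h : AddOn K φ) : φ 1 = 0 := by
  have := h 1 K.one_mem 1 K.one_mem
  rw [mul_one] at this
  simpa using this

theorem inv (h : AddOn K φ) {x : G} (hx : x ∈ K) : φ x⁻¹ = - φ x := by
  have := h x⁻¹ (K.inv_mem hx) x hx
  rw [inv_mul_cancel, h.one] at this
  exact eq_neg_of_add_eq_zero_left this.symm

theorem pow (h : AddOn K φ) {x : G} (hx : x ∈ K) (n : ℕ) : φ (x ^ n) = n • φ x := by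
  induction n with
  | zero => rw [pow_zero, h.one, zero_smul]
  | succ n ih => rw [pow_succ, h _ (K.pow_mem hx n) _ hx, ih, succ_nsmul]

theorem zpow (h : AddOn K φ) {x : G} (hx : x ∈ K) (n : ℤ) : φ (x ^ n) = n • φ x := by
  obtain ⟨n, rfl | rfl⟩ := n.eq_nat_or_neg
  · rw [zpow_natCast, h.pow hx, natCast_zsmul]
  · rw [zpow_neg, zpow_natCast, h.inv (K.pow_mem hx n), h.pow hx, neg_zsmul, natCast_zsmul]

end AddOn

theorem exists_V {r p : ℕ} [Group.IsSolvable G] (hr : RankLE r G) (hp : 0 < p) {H₁ K₁ : Subgroup G}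
    (hidx : K₁.relIndex H₁ ≠ 0) {T : Type*} [AddCommGroup T]
    (hpT : ∀ t : T, p • t = 0) {φ : G → T} (hφ : AddOn K₁ φ) :
    ∃ m : ℕ, 0 < m ∧ powSub H₁ m ≤ K₁ ∧ (∀ x ∈ powSub H₁ m, φ x = 0) ∧
      (powSub H₁ m).relIndex H₁ ≠ 0 := by
  let n := (K₁.relIndex H₁).factorial
  have hn : 0 < n := Nat.factorial_pos _
  refine ⟨n * p, Nat.mul_pos hn hp, ?_⟩
  have hmem : ∀ h ∈ H₁, h ^ n ∈ K₁ := fun h hh =>
    (Subgroup.pow_mem_of_relIndex_ne_zero_of_dvd hidx hh
      (fun m h0 hm => Nat.dvd_factorial h0 hm)).1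
  let W : Subgroup G :=
    { carrier := {x | x ∈ K₁ ∧ φ x = 0}
      one_mem' := ⟨K₁.one_mem, hφ.one⟩
      mul_mem' := by
        rintro a b ⟨ha, ha0⟩ ⟨hb, hb0⟩
        exact ⟨K₁.mul_mem ha hb, by rw [hφ a ha b hb, ha0, hb0, add_zero]⟩
      inv_mem' := by
        rintro a ⟨ha, ha0⟩
        exact ⟨K₁.inv_mem ha, by rw [hφ.inv ha, ha0, neg_zero]⟩ }
  have hW : powSub H₁ (n * p) ≤ W := by
    rw [powSub, Subgroup.closure_le]
    rintro _ ⟨h, hh, rfl⟩
    rw [pow_mul]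
    exact ⟨K₁.pow_mem (hmem h hh) p, by rw [hφ.pow (hmem h hh), hpT]⟩
  exact ⟨fun x hx => (hW hx).1, fun x hx => (hW hx).2,
    powSub_relIndex (Nat.mul_pos hn hp) H₁ (hr.subgroup H₁)⟩

theorem normalizer_powSub {H H₁ : Subgroup G} (hn : H ≤ normalizer (H₁ : Set G)) (m : ℕ) :
    H ≤ normalizer (powSub H₁ m : Set G) := by
  rw [Subgroup.le_normalizer_iff] at hn ⊢
  exact fun h hh => powSub_conj (hn h hh)

/-- infinite cyclic step -/
theorem cyc_step {r p c : ℕ} (hp : p.Prime) [Group.IsSolvable G] (hr : RankLE r G)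
    {H₁ H : Subgroup G} (hle : H₁ ≤ H) (hn : H ≤ normalizer (H₁ : Set G)) {y : G} (hy : y ∈ H)
    (hgen : ∀ z ∈ H, ∃ k : ℤ, z * y ^ k ∈ H₁) (hinf : ∀ k : ℕ, 0 < k → y ^ k ∉ H₁)
    {K₁ : Subgroup G} (hK₁ : K₁ ≤ H₁) (hidx : K₁.relIndex H₁ ≠ 0)
    {φ₁ : G → (Fin c → ZMod p)} (hφ₁ : AddOn K₁ φ₁) (hsurj : ∀ v, ∃ x ∈ K₁, φ₁ x = v) :
    ∃ K ≤ H, K.relIndex H ≠ 0 ∧ ∃ φ : G → (Fin (c+1) → ZMod p), AddOn K φ ∧
      ∀ v, ∃ x ∈ K, φ x = v := by
  classical
  obtain ⟨m, hm, hVK, hV0, hVidx⟩ := exists_V hr hp.pos hidx (T := Fin c → ZMod p)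
    (fun t => by funext i; simp) hφ₁
  have hVn := normalizer_powSub hn m
  have hCidx := centSec_relIndex (V := powSub H₁ m) hVn hn hVidx
  obtain ⟨s, hs, _, hzC⟩ := Subgroup.exists_pow_mem_of_relIndex_ne_zero hCidx hy
  have hzc : ∀ h ∈ H₁, y ^ s * h * (y ^ s)⁻¹ * h⁻¹ ∈ powSub H₁ m := hzC.1.2
  have hzc' : ∀ h ∈ H₁, (y ^ s)⁻¹ * h * y ^ s * h⁻¹ ∈ powSub H₁ m := by
    intro h hh
    have := ((centSec H H₁ (powSub H₁ m) hVn hn).inv_mem hzC.1).2 h hh
    rwa [inv_inv] at this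
  set z := y ^ s with hz
  have hzH : z ∈ H := H.pow_mem hy s
  have hzN : z ∈ normalizer (K₁ : Set G) := by
    rw [Subgroup.mem_normalizer_iff]
    intro k
    constructor
    · intro hk
      have : z * k * z⁻¹ = (z * k * z⁻¹ * k⁻¹) * k := by group
      rw [this]
      exact K₁.mul_mem (hVK (hzc k (hK₁ hk))) hk
    · intro hk
      have h1 := hzc' _ (hK₁ hk)
      have : k = (z⁻¹ * (z * k * z⁻¹) * z * (z * k * z⁻¹)⁻¹) * (z * k * z⁻¹) := by group
      rw [this]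
      exact K₁.mul_mem (hVK h1) hk
  have hzpow : ∀ (j : ℤ) (k : G), k ∈ K₁ → z ^ j * k * (z ^ j)⁻¹ ∈ K₁ := fun j k hk =>
    ((Subgroup.mem_normalizer_iff).1 (Subgroup.zpow_mem _ hzN j) k).1 hk
  let K : Subgroup G :=
    { carrier := {w | ∃ k : ℤ, w * z ^ k ∈ K₁}
      one_mem' := ⟨0, by simp⟩
      mul_mem' := by
        rintro a b ⟨k, hk⟩ ⟨l, hl⟩
        refine ⟨k + l, ?_⟩
        have h1 : a * b * z ^ (k + l) =
            (a * z ^ k) * (z ^ (-k) * (b * z ^ l) * (z ^ (-k))⁻¹) := by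
          rw [zpow_neg, inv_inv, zpow_add]
          have : z ^ l * z ^ k = z ^ k * z ^ l := by
            rw [← zpow_add, ← zpow_add, add_comm]
          simp only [mul_assoc]
          rw [this]
          group
        rw [h1]
        exact K₁.mul_mem hk (hzpow _ _ hl)
      inv_mem' := by
        rintro a ⟨k, hk⟩
        refine ⟨-k, ?_⟩
        have h1 : a⁻¹ * z ^ (-k) = z ^ k * (a * z ^ k)⁻¹ * (z ^ k)⁻¹ := by
          rw [zpow_neg]; group
        rw [h1]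
        exact hzpow _ _ (K₁.inv_mem hk) }
  have hK₁K : K₁ ≤ K := fun k hk => ⟨0, by simpa using hk⟩
  have hzK : z ∈ K := ⟨-1, by simp⟩
  have hKH : K ≤ H := by
    rintro w ⟨k, hk⟩
    have : w = (w * z ^ k) * (z ^ k)⁻¹ := by group
    rw [this]
    exact H.mul_mem (hle (hK₁ hk)) (H.inv_mem (H.zpow_mem hzH k))
  have hKn : K ≤ normalizer (K₁ : Set G) := by
    rintro w ⟨k, hk⟩
    have : w = (w * z ^ k) * (z ^ k)⁻¹ := by group
    rw [this]
    exact Subgroup.mul_mem _ (Subgroup.le_normalizer hk)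
      (Subgroup.inv_mem _ (Subgroup.zpow_mem _ hzN k))
  refine ⟨K, hKH, ?_, ?_⟩
  · -- finite index
    have hfin1 : Finite (H₁ ⧸ K₁.subgroupOf H₁) := Subgroup.index_ne_zero_iff_finite.1 hidx
    rw [Subgroup.relIndex, Subgroup.index_ne_zero_iff_finite]
    let f : Fin s × (H₁ ⧸ K₁.subgroupOf H₁) → (H ⧸ K.subgroupOf H) := fun tc =>
      QuotientGroup.mk (⟨y ^ (tc.1 : ℕ) * (tc.2.out : H₁),
        H.mul_mem (H.pow_mem hy _) (hle tc.2.out.2)⟩ : H)
    apply Finite.of_surjective f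
    intro q
    induction q using QuotientGroup.induction_on with
    | H w =>
      obtain ⟨k, hk⟩ := hgen w w.2
      -- w = h y^(-k)
      have hs0 : (s : ℤ) ≠ 0 := by exact_mod_cast hs.ne'
      let t : ℕ := ((-k) % (s : ℤ)).toNat
      have ht : (t : ℤ) = (-k) % (s : ℤ) := Int.toNat_of_nonneg (Int.emod_nonneg _ hs0)
      have hts : t < s := by
        have := Int.emod_lt_of_pos (-k) (by exact_mod_cast hs : (0:ℤ) < s)
        rw [← ht] at this
        exact_mod_cast this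
      let h' : G := y ^ (-(t:ℤ)) * (w * y ^ k) * (y ^ (-(t:ℤ)))⁻¹
      have hh' : h' ∈ H₁ := ((Subgroup.mem_normalizer_iff).1
        (Subgroup.zpow_mem _ (hn hy) _) _).1 hk
      refine ⟨(⟨t, hts⟩, QuotientGroup.mk ⟨h', hh'⟩), ?_⟩
      simp only [f]
      rw [QuotientGroup.eq, Subgroup.mem_subgroupOf]
      have h1 : (((QuotientGroup.mk (s := K₁.subgroupOf H₁) (⟨h', hh'⟩ : H₁)).out : H₁) : G)⁻¹ * h' ∈
          K₁ := by
        have : (QuotientGroup.mk (s := K₁.subgroupOf H₁)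
          (QuotientGroup.mk (s := K₁.subgroupOf H₁) (⟨h', hh'⟩ : H₁)).out) =
          QuotientGroup.mk ⟨h', hh'⟩ := Quotient.out_eq' _
        rw [QuotientGroup.eq] at this
        exact this
      set o : G := (((QuotientGroup.mk (s := K₁.subgroupOf H₁) (⟨h', hh'⟩ : H₁)).out : H₁) : G)
      change (y ^ t * o)⁻¹ * (w : G) ∈ K
      have hq : (-k) = t + s * ((-k) / s) := by rw [ht]; exact (Int.emod_add_mul_ediv _ _).symm
      have h2 : (w : G) = y ^ (t:ℤ) * h' * z ^ ((-k) / s) := by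
        have h3 : z ^ ((-k) / (s:ℤ)) = y ^ (s * ((-k) / (s:ℤ))) := by
          rw [hz, ← zpow_natCast, ← zpow_mul]
        have h4 : y ^ (s * ((-k) / (s:ℤ))) = y ^ (-(t:ℤ)) * y ^ (-k) := by
          rw [← zpow_add]; congr 1; omega
        rw [h3, h4]
        simp only [h', zpow_neg]
        group
      have h5 : (y ^ t * o)⁻¹ * (w : G) = (o⁻¹ * h') * z ^ ((-k) / (s:ℤ)) := by
        rw [h2, zpow_natCast]; group
      rw [h5]
      exact K.mul_mem (hK₁K h1) (K.zpow_mem hzK _)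
  · let _ : DistribMulAction G (Fin c → ZMod p) := trivAct G _
    obtain ⟨κ', ν, h1, h2, h3, h4, h5, h6, h7⟩ := extend_cyc (T := Fin c → ZMod p) (κ := φ₁)
      (H₁ := K₁) (H := K) (y := z) hK₁K hKn hzK (fun w hw => hw) (by
        intro k hk hmem
        apply hinf (s * k) (Nat.mul_pos hs hk)
        rw [pow_mul]
        exact hK₁ hmem) (fun x hx w hw => hφ₁ x hx w hw) (by
        intro x hx
        have hx' : z * x * z⁻¹ * x⁻¹ ∈ powSub H₁ m := hzc x (hK₁ hx)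
        have : z * x * z⁻¹ = (z * x * z⁻¹ * x⁻¹) * x := by group
        rw [this, hφ₁ _ (hVK hx') _ hx, hV0 _ hx', zero_add]
        rfl)
    have h1' : AddOn K κ' := fun x hx w hw => h1 x hx w hw
    have h4' : AddOn K (fun x => (ν x : ZMod p)) := by
      intro x hx w hw
      simp only
      rw [h4 x hx w hw]
      push_cast
      rfl
    refine ⟨fun x => Fin.cons (ν x : ZMod p) (κ' x), ?_, ?_⟩
    · intro x hx w hw
      funext i
      refine Fin.cases ?_ (fun i => ?_) i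
      · exact h4' x hx w hw
      · exact congrFun (h1' x hx w hw) i
    · intro v
      obtain ⟨x₁, hx₁, hx₁v⟩ := hsurj (Fin.tail v)
      obtain ⟨j, hj⟩ := ZMod.intCast_surjective (v 0)
      refine ⟨x₁ * z ^ j, K.mul_mem (hK₁K hx₁) (K.zpow_mem hzK j), ?_⟩
      funext i
      refine Fin.cases ?_ (fun i => ?_) i
      · simp only [Fin.cons_zero]
        have e : ((ν (x₁ * z ^ j) : ℤ) : ZMod p) = (ν x₁ : ZMod p) + j • (ν z : ZMod p) := by
          have e1 := h4' _ (hK₁K hx₁) _ (K.zpow_mem hzK j)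
          have e2 := h4'.zpow hzK j
          simp only at e1 e2
          rw [e1, e2]
        rw [e, h5 x₁ hx₁, h6]
        simp [hj]
      · simp only [Fin.cons_succ]
        rw [h1' _ (hK₁K hx₁) _ (K.zpow_mem hzK j), h2 x₁ hx₁, h1'.zpow hzK, h3, hx₁v]
        simp [Fin.tail]

theorem pow_class2 {Q : Type*} [Group Q] {a b c : Q} (h : b * a = a * b * c) (hca : Commute c a)
    (hcb : Commute c b) (n : ℕ) : (a * b) ^ n = a ^ n * b ^ n * c ^ (n.choose 2) := by
  have hba : ∀ n : ℕ, b ^ n * a = a * b ^ n * c ^ n := by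
    intro n
    induction n with
    | zero => simp
    | succ n ih =>
      calc b ^ (n+1) * a = b * (b ^ n * a) := by rw [pow_succ']; group
        _ = (b * a) * (b ^ n * c ^ n) := by rw [ih]; group
        _ = a * b * (c * b ^ n) * c ^ n := by rw [h]; group
        _ = a * b * (b ^ n * c) * c ^ n := by rw [(hcb.pow_right n).eq]
        _ = a * b ^ (n+1) * c ^ (n+1) := by rw [pow_succ' b, pow_succ' c]; group
  induction n with
  | zero => simp
  | succ n ih =>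
    have h1 : (n+1).choose 2 = n + n.choose 2 := by
      rw [Nat.choose_succ_succ' n 1, Nat.choose_one_right]
    have h2 : c ^ (n.choose 2) * (a * b) = (a * b) * c ^ (n.choose 2) :=
      ((hca.pow_left _).mul_right (hcb.pow_left _)).eq
    calc (a * b) ^ (n+1) = a ^ n * b ^ n * (c ^ (n.choose 2) * (a * b)) := by
          rw [pow_succ, ih]; group
      _ = a ^ n * (b ^ n * a) * b * c ^ (n.choose 2) := by rw [h2]; group
      _ = a ^ n * a * b ^ n * (c ^ n * b) * c ^ (n.choose 2) := by rw [hba]; group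
      _ = a ^ n * a * b ^ n * (b * c ^ n) * c ^ (n.choose 2) := by rw [(hcb.pow_left n).eq]
      _ = a ^ (n+1) * b ^ (n+1) * c ^ ((n+1).choose 2) := by
          rw [h1, pow_succ a, pow_succ b, pow_add]; group

/-- `p'`-torsion step -/
theorem tor_hom_step {r p c : ℕ} (hp : p.Prime) [Group.IsSolvable G] (hr : RankLE r G)
    {H₁ H : Subgroup G} (hle : H₁ ≤ H)
    (hcomm : ∀ x ∈ H, ∀ y ∈ H, x * y * x⁻¹ * y⁻¹ ∈ H₁)
    (hp' : ∀ x ∈ H, ∃ n : ℕ, n.Coprime p ∧ x ^ n ∈ H₁)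
    {K₁ : Subgroup G} (hK₁ : K₁ ≤ H₁) (hidx : K₁.relIndex H₁ ≠ 0)
    {φ₁ : G → (Fin c → ZMod p)} (hφ₁ : AddOn K₁ φ₁) (hsurj : ∀ v, ∃ x ∈ K₁, φ₁ x = v) :
    ∃ K ≤ H, K.relIndex H ≠ 0 ∧ ∃ φ : G → (Fin c → ZMod p), AddOn K φ ∧
      ∀ v, ∃ x ∈ K, φ x = v := by
  classical
  have hn : H ≤ normalizer (H₁ : Set G) := normal_of_comm hcomm le_rfl hle
  obtain ⟨m, hm, hVK, hV0, hVidx⟩ := exists_V hr hp.pos hidx (T := Fin c → ZMod p)
    (fun t => by funext i; simp) hφ₁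
  have hVn := normalizer_powSub hn m
  have hCidx := centSec_relIndex (V := powSub H₁ m) hVn hn hVidx
  let C := centSec H H₁ (powSub H₁ m) hVn hn
  have hCH : C ≤ H := fun x hx => hx.1
  have hCn : H ≤ normalizer (C : Set G) := by
    rw [Subgroup.le_normalizer_iff]
    intro x hx a ha
    refine ⟨H.mul_mem (H.mul_mem hx ha.1) (H.inv_mem hx), fun h hh => ?_⟩
    have h1 : x⁻¹ * h * x ∈ H₁ := ((Subgroup.mem_normalizer_iff'').1 (hn hx) h).1 hh
    have h2 := ha.2 _ h1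
    have h3 := ((Subgroup.mem_normalizer_iff).1 (hVn hx) _).1 h2
    have h4 : x * a * x⁻¹ * h * (x * a * x⁻¹)⁻¹ * h⁻¹ =
        x * (a * (x⁻¹ * h * x) * a⁻¹ * (x⁻¹ * h * x)⁻¹) * x⁻¹ := by group
    rw [h4]
    exact h3
  let M := 2 * m
  have hM : 0 < M := Nat.mul_pos two_pos hm
  let Z := powSub C M
  have hZC : Z ≤ C := powSub_le C M
  have hZidx : Z.relIndex C ≠ 0 := powSub_relIndex hM C (hr.subgroup C)
  have hZn : H ≤ normalizer (Z : Set G) := normalizer_powSub hCn M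
  -- the quotient C / V
  have hVnorm : ((powSub H₁ m).subgroupOf C).Normal := by
    constructor
    intro a ha g
    rw [Subgroup.mem_subgroupOf] at ha ⊢
    exact ((Subgroup.mem_normalizer_iff).1 (hVn (hCH g.2)) _).1 ha
  let Q := C ⧸ (powSub H₁ m).subgroupOf C
  have hone : ∀ (x : C), (x : G) ∈ powSub H₁ m → (QuotientGroup.mk x : Q) = 1 := fun x hx =>
    (QuotientGroup.eq_one_iff _).2 hx
  have hcent : ∀ (u : C), (u : G) ∈ H₁ → ∀ x : C, Commute (QuotientGroup.mk u : Q)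
      (QuotientGroup.mk x) := by
    intro u hu x
    have h1 : (QuotientGroup.mk (x * u * x⁻¹ * u⁻¹) : Q) = 1 := hone _ (x.2.2 u hu)
    rw [QuotientGroup.mk_mul, QuotientGroup.mk_mul, QuotientGroup.mk_mul, QuotientGroup.mk_inv,
      QuotientGroup.mk_inv, mul_inv_eq_one, mul_inv_eq_iff_eq_mul] at h1
    exact h1.symm
  have hQ : ∀ a b : C, ((QuotientGroup.mk a : Q) * QuotientGroup.mk b) ^ M =
      (QuotientGroup.mk a : Q) ^ M * (QuotientGroup.mk b : Q) ^ M := by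
    intro a b
    let u : C := b⁻¹ * a⁻¹ * b * a
    have hu : (u : G) ∈ H₁ := by
      have := hcomm (b : G)⁻¹ (H.inv_mem (hCH b.2)) (a : G)⁻¹ (H.inv_mem (hCH a.2))
      simpa [u] using this
    have h1 : (QuotientGroup.mk b : Q) * QuotientGroup.mk a =
        QuotientGroup.mk a * QuotientGroup.mk b * QuotientGroup.mk u := by
      rw [← QuotientGroup.mk_mul, ← QuotientGroup.mk_mul, ← QuotientGroup.mk_mul]
      congr 1
      simp only [u]
      group
    rw [pow_class2 h1 (hcent u hu a) (hcent u hu b) M]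
    have h2 : M.choose 2 = m * (2 * m - 1) := by
      rw [Nat.choose_two_right]
      simp only [M]
      rw [mul_assoc, Nat.mul_div_cancel_left _ two_pos]
    have h3 : (QuotientGroup.mk u : Q) ^ m = 1 := by
      rw [← QuotientGroup.mk_pow]
      exact hone _ (pow_mem_powSub hu)
    rw [h2, pow_mul (QuotientGroup.mk u : Q) m, h3, one_pow, mul_one]
  have hZpow : ∀ z ∈ Z, ∃ (hz : z ∈ C) (h : C), (QuotientGroup.mk ⟨z, hz⟩ : Q) =
      (QuotientGroup.mk h : Q) ^ M := by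
    intro z hz
    induction hz using Subgroup.closure_induction with
    | mem z hz =>
      obtain ⟨h, hh, rfl⟩ := hz
      exact ⟨C.pow_mem hh M, ⟨h, hh⟩, rfl⟩
    | one =>
      exact ⟨C.one_mem, 1, by
        rw [QuotientGroup.mk_one, one_pow]; exact hone _ (Subgroup.one_mem _)⟩
    | mul a b _ _ iha ihb =>
      obtain ⟨ha, h, hah⟩ := iha
      obtain ⟨hb, h', hbh⟩ := ihb
      refine ⟨C.mul_mem ha hb, h * h', ?_⟩
      rw [QuotientGroup.mk_mul, hQ, ← hah, ← hbh]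
      rfl
    | inv a _ iha =>
      obtain ⟨ha, h, hah⟩ := iha
      refine ⟨C.inv_mem ha, h⁻¹, ?_⟩
      rw [QuotientGroup.mk_inv, inv_pow, ← hah]
      rfl
  have hZcop : ∀ z ∈ Z, ∃ n : ℕ, n.Coprime p ∧ z ^ n ∈ powSub H₁ m := by
    intro z hz
    obtain ⟨hzC, h, hzh⟩ := hZpow z hz
    obtain ⟨n, hn, hhn⟩ := hp' h (hCH h.2)
    refine ⟨n, hn, ?_⟩
    have h1 : (QuotientGroup.mk (⟨z, hzC⟩ ^ n : C) : Q) = 1 := by
      rw [QuotientGroup.mk_pow, hzh, ← pow_mul, mul_comm, pow_mul, ← QuotientGroup.mk_pow]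
      have h2 : (QuotientGroup.mk (h ^ n) : Q) ^ m = 1 := by
        rw [← QuotientGroup.mk_pow]
        exact hone _ (pow_mem_powSub hhn)
      simp only [M]
      rw [mul_comm 2 m, pow_mul, h2, one_pow]
    have h4 : (⟨z, hzC⟩ ^ n : C) ∈ (powSub H₁ m).subgroupOf C := (QuotientGroup.eq_one_iff _).1 h1
    exact h4
  have hφZ : ∀ z ∈ Z, z ∈ K₁ → φ₁ z = 0 := by
    intro z hz hzK
    obtain ⟨n, hn, hzn⟩ := hZcop z hz
    have h1 := hV0 _ hzn
    rw [hφ₁.pow hzK] at h1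
    exact eq_zero_of_coprime (p := p) (fun t => ⟨1, by funext i; simp⟩) hn h1
  let K : Subgroup G :=
    { carrier := {w | ∃ k ∈ K₁, k⁻¹ * w ∈ Z}
      one_mem' := ⟨1, K₁.one_mem, by simp [Z.one_mem]⟩
      mul_mem' := by
        rintro a b ⟨k, hk, hka⟩ ⟨l, hl, hlb⟩
        refine ⟨k * l, K₁.mul_mem hk hl, ?_⟩
        have h1 : (k * l)⁻¹ * (a * b) = (l⁻¹ * (k⁻¹ * a) * l) * (l⁻¹ * b) := by group
        rw [h1]
        exact Z.mul_mem (((Subgroup.mem_normalizer_iff'').1 (hZn (hle (hK₁ hl))) _).1 hka) hlb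
      inv_mem' := by
        rintro a ⟨k, hk, hka⟩
        refine ⟨k⁻¹, K₁.inv_mem hk, ?_⟩
        have h1 : k⁻¹⁻¹ * a⁻¹ = k * (k⁻¹ * a)⁻¹ * k⁻¹ := by group
        rw [h1]
        exact ((Subgroup.mem_normalizer_iff).1 (hZn (hle (hK₁ hk))) _).1 (Z.inv_mem hka) }
  have hK₁K : K₁ ≤ K := fun k hk => ⟨k, hk, by simp [Z.one_mem]⟩
  have hZK : Z ≤ K := fun z hz => ⟨1, K₁.one_mem, by simpa using hz⟩
  have hKH : K ≤ H := by
    rintro w ⟨k, hk, hkw⟩
    have : w = k * (k⁻¹ * w) := by group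
    rw [this]
    exact H.mul_mem (hle (hK₁ hk)) (hCH (hZC hkw))
  refine ⟨K, hKH, ?_, ?_⟩
  · have h1 : Z.relIndex H ≠ 0 := Subgroup.relIndex_ne_zero_trans hZidx hCidx
    intro h0
    have := Subgroup.relIndex_dvd_of_le_left H hZK
    rw [h0] at this
    exact h1 (Nat.eq_zero_of_zero_dvd this)
  · choose! f hf1 hf2 using (fun w (hw : w ∈ K) => hw)
    have huniq : ∀ w ∈ K, ∀ k ∈ K₁, k⁻¹ * w ∈ Z → φ₁ (f w) = φ₁ k := by
      intro w hw k hk hkw
      have h1 : k⁻¹ * f w ∈ Z := by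
        have : k⁻¹ * f w = (k⁻¹ * w) * ((f w)⁻¹ * w)⁻¹ := by group
        rw [this]
        exact Z.mul_mem hkw (Z.inv_mem (hf2 w hw))
      have h2 := hφZ _ h1 (K₁.mul_mem (K₁.inv_mem hk) (hf1 w hw))
      rw [hφ₁ _ (K₁.inv_mem hk) _ (hf1 w hw), hφ₁.inv hk] at h2
      exact (neg_add_eq_zero.1 h2).symm
    refine ⟨fun w => φ₁ (f w), ?_, ?_⟩
    · intro a ha b hb
      simp only
      rw [← hφ₁ _ (hf1 a ha) _ (hf1 b hb)]
      apply huniq _ (K.mul_mem ha hb) _ (K₁.mul_mem (hf1 a ha) (hf1 b hb))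
      have h1 : (f a * f b)⁻¹ * (a * b) = ((f b)⁻¹ * ((f a)⁻¹ * a) * f b) * ((f b)⁻¹ * b) := by
        group
      rw [h1]
      exact Z.mul_mem (((Subgroup.mem_normalizer_iff'').1 (hZn (hle (hK₁ (hf1 b hb)))) _).1
        (hf2 a ha)) (hf2 b hb)
    · intro v
      obtain ⟨x, hx, hxv⟩ := hsurj v
      exact ⟨x, hK₁K hx, (huniq x (hK₁K hx) x hx (by simp [Z.one_mem])).trans hxv⟩

/-- **L4** -/
theorem PSer.exists_hom {r p : ℕ} (hp : p.Prime) [Group.IsSolvable G] (hr : RankLE r G) {c : ℕ}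
    {H : Subgroup G} (h : PSer p (⊥ : Subgroup G) c H) :
    ∃ K ≤ H, K.relIndex H ≠ 0 ∧ ∃ φ : G → (Fin c → ZMod p), AddOn K φ ∧
      ∀ v, ∃ x ∈ K, φ x = v := by
  induction h with
  | base =>
    refine ⟨⊥, le_rfl, by simp, fun _ => 0, fun _ _ _ _ => by simp, fun v => ⟨1, Subgroup.one_mem _, ?_⟩⟩
    funext i
    exact i.elim0
  | @cyc c H₁ H x hP hle hn hx hgen hinf ih =>
    obtain ⟨K₁, hK₁, hidx, φ₁, hφ₁, hsurj⟩ := ih
    exact cyc_step hp hr hle hn hx hgen hinf hK₁ hidx hφ₁ hsurj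
  | @fin c H₁ H hP hle hn hidx' ih =>
    obtain ⟨K₁, hK₁, hidx, φ₁, hφ₁, hsurj⟩ := ih
    exact ⟨K₁, hK₁.trans hle, Subgroup.relIndex_ne_zero_trans hidx hidx', φ₁, hφ₁, hsurj⟩
  | @tor c H₁ H hP hle hcomm hp' ih =>
    obtain ⟨K₁, hK₁, hidx, φ₁, hφ₁, hsurj⟩ := ih
    exact tor_hom_step hp hr hle hcomm hp' hK₁ hidx hφ₁ hsurj

/-- if `G` has rank at most `r` and a subgroup surjects onto `F_p^c` then `c ≤ r` -/
theorem le_of_hom {r p c : ℕ} (hp : p.Prime) (hr : RankLE r G) {K : Subgroup G}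
    {φ : G → (Fin c → ZMod p)} (hφ : AddOn K φ) (hsurj : ∀ v, ∃ x ∈ K, φ x = v) : c ≤ r := by
  classical
  have : Fact p.Prime := ⟨hp⟩
  choose g hg1 hg2 using hsurj
  let K₂ : Subgroup G := Subgroup.closure (Set.range g)
  have hK₂K : K₂ ≤ K := by
    rw [Subgroup.closure_le]
    rintro _ ⟨v, rfl⟩
    exact hg1 v
  obtain ⟨s, hs, hsK⟩ := hr K₂ ⟨Finset.univ.image g, by simp [K₂]⟩
  have hspan : ∀ x ∈ Subgroup.closure (s : Set G), φ x ∈
      Submodule.span (ZMod p) ((s.image φ : Finset _) : Set (Fin c → ZMod p)) ∧ x ∈ K := by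
    intro x hx
    have hxK : ∀ y ∈ (s : Set G), y ∈ K := fun y hy =>
      hK₂K (hsK ▸ Subgroup.subset_closure hy)
    induction hx using Subgroup.closure_induction with
    | mem x hx => exact ⟨Submodule.subset_span (by simpa using ⟨x, hx, rfl⟩), hxK x hx⟩
    | one => exact ⟨by rw [hφ.one]; exact Submodule.zero_mem _, K.one_mem⟩
    | mul a b _ _ iha ihb =>
      exact ⟨by rw [hφ a iha.2 b ihb.2]; exact Submodule.add_mem _ iha.1 ihb.1,
        K.mul_mem iha.2 ihb.2⟩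
    | inv a _ iha =>
      exact ⟨by rw [hφ.inv iha.2]; exact Submodule.neg_mem _ iha.1, K.inv_mem iha.2⟩
  have htop : Submodule.span (ZMod p) ((s.image φ : Finset _) : Set (Fin c → ZMod p)) = ⊤ := by
    rw [eq_top_iff]
    intro v _
    have h1 : g v ∈ Subgroup.closure (s : Set G) := by
      rw [hsK]
      exact Subgroup.subset_closure ⟨v, rfl⟩
    have := (hspan _ h1).1
    rwa [hg2] at this
  have h1 := finrank_span_finset_le_card (R := ZMod p) (s.image φ)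
  rw [Set.finrank, htop, finrank_top, Module.finrank_fin_fun] at h1
  exact h1.trans (Finset.card_image_le.trans hs)

/-- **LOWER BOUND**: a soluble group of rank at most `r` has Hirsch length at most `r` -/
theorem not_zlen {r : ℕ} [Group.IsSolvable G] (hr : RankLE r G) :
    ¬ ZLen (r + 1) (⊤ : Subgroup G) := by
  classical
  intro hz
  obtain ⟨S, _, hS⟩ := hz.exists_finite
  let M : Subgroup G := Subgroup.closure (S : Set G)
  have h1 : ZLen (r + 1) M := by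
    have := hS M Subgroup.subset_closure
    rwa [top_inf_eq] at this
  have h2 : ZLen (r + 1) (⊤ : Subgroup M) := by
    have := h1.comap M.subtype (by rw [Subgroup.range_subtype])
    have h3 : M.comap M.subtype = ⊤ := by
      ext x; simp
    rwa [h3] at this
  have hMfg : Group.FG M := (Group.fg_iff_subgroup_fg M).2 ⟨S, rfl⟩
  obtain ⟨n, hn⟩ := (Group.isSolvable_def M).1 inferInstance
  have hrM := hr.subgroup M
  obtain ⟨m, hm, hser⟩ := exists_series n hMfg hn hrM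
  obtain ⟨p, hpm, hp⟩ := Nat.exists_infinite_primes (m + 1)
  have hnd : ¬ p ∣ m := fun hd => by
    have := Nat.le_of_dvd hm hd
    omega
  obtain ⟨c, hc⟩ := hser p hp hnd
  have h3 := hc.zlen_le hp _ h2
  obtain ⟨K, _, _, φ, hφ, hsurj⟩ := hc.exists_hom hp hrM
  have h4 := le_of_hom hp hrM hφ hsurj
  omega

end Pool.MP_b7b920_al.H55
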