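import Mathlib
import Pool.Agent.Lib.MP_b7b920_al_h55.ZLen
import Pool.Agent.Lib.MP_b7b920_al_h55.GenBy
import Pool.Agent.Lib.MP_b7b920_al_CT.Defs

set_option autoImplicit false

namespace Pool.MP_b7b920_al.H55

open Subgroup

/-- every f.g. infinite group has a just infinite quotient -/
theorem exists_justInfinite {K : Type*} [Group K] [Group.FG K] [Infinite K] :
    ∃ N : Subgroup K, N.Normal ∧ N.index = 0 ∧
      ∀ N' : Subgroup K, N'.Normal → N ≤ N' → N'.index = 0 → N' = N := by
  obtain ⟨m, _, hm⟩ := zorn_le_nonempty₀ {N : Subgroup K | N.Normal ∧ N.index = 0} (by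
      intro c hc hchain y hy
      have hne : c.Nonempty := ⟨y, hy⟩
      have hdir : DirectedOn (· ≤ ·) c := hchain.directedOn
      refine ⟨sSup c, ⟨?_, ?_⟩, fun z hz => le_sSup hz⟩
      · constructor
        intro a ha g
        rw [Subgroup.mem_sSup_of_directedOn hne hdir] at ha ⊢
        obtain ⟨N, hN, haN⟩ := ha
        exact ⟨N, hN, (hc hN).1.conj_mem a haN g⟩
      · by_contra hidx
        have : (sSup c).FiniteIndex := ⟨hidx⟩
        have hfg : (sSup c).FG := (Group.fg_iff_subgroup_fg _).1 inferInstance
        obtain ⟨T, hT⟩ := hfg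
        have hTc : ∀ T' : Finset K, (T' : Set K) ⊆ ((sSup c : Subgroup K) : Set K) → ∃ N ∈ c, (T' : Set K) ⊆ N := by
          classical
          intro T'
          induction T' using Finset.induction_on with
          | empty => intro _; exact ⟨y, hy, by simp⟩
          | insert a T' _ ih =>
            intro hsub
            rw [Finset.coe_insert, Set.insert_subset_iff] at hsub
            obtain ⟨N, hN, hTN⟩ := ih hsub.2
            have h1 := hsub.1
            rw [SetLike.mem_coe, Subgroup.mem_sSup_of_directedOn hne hdir] at h1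
            obtain ⟨N₂, hN₂, haN₂⟩ := h1
            obtain ⟨N₃, hN₃, h13, h23⟩ := hdir N hN N₂ hN₂
            refine ⟨N₃, hN₃, ?_⟩
            rw [Finset.coe_insert, Set.insert_subset_iff]
            exact ⟨h23 haN₂, hTN.trans h13⟩
        obtain ⟨N, hN, hTN⟩ := hTc T (by rw [← hT]; exact Subgroup.subset_closure)
        have hle : sSup c ≤ N := by
          rw [← hT, Subgroup.closure_le]
          exact hTN
        have := Subgroup.index_dvd_of_le hle
        rw [(hc hN).2] at this
        exact hidx (by
          have h2 : N = sSup c := le_antisymm (le_sSup hN) hle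
          rw [← h2]; exact (hc hN).2)) ⊥
    ⟨inferInstance, by rw [Subgroup.index_bot, Nat.card_eq_zero_of_infinite]⟩
  refine ⟨m, hm.prop.1, hm.prop.2, fun N' hN' hle hidx => ?_⟩
  exact le_antisymm (hm.le_of_ge ⟨hN', hidx⟩ hle) hle

/-- the lattice `Z^s` has `ZLen` at least `s` -/
theorem zlen_lattice (L : Type*) [AddCommGroup L] [Module.Free ℤ L] [Module.Finite ℤ L] :
    ZLen (Module.finrank ℤ L) (⊤ : Subgroup (Multiplicative L)) := by
  classical
  let b := Module.finBasis ℤ L
  let Hk : ℕ → Subgroup (Multiplicative L) := fun k =>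
    { carrier := {v | ∀ i : Fin (Module.finrank ℤ L), k ≤ (i : ℕ) → b.repr v.toAdd i = 0}
      one_mem' := fun i _ => by simp
      mul_mem' := fun {v w} hv hw i hi => by
        rw [toAdd_mul, map_add, Finsupp.add_apply, hv i hi, hw i hi, add_zero]
      inv_mem' := fun {v} hv i hi => by
        rw [toAdd_inv, map_neg, Finsupp.neg_apply, hv i hi, neg_zero] }
  have key : ∀ k : ℕ, k ≤ Module.finrank ℤ L → ZLen k (Hk k) := by
    intro k
    induction k with
    | zero => intro _; trivial
    | succ k ih =>
      intro hk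
      let i₀ : Fin (Module.finrank ℤ L) := ⟨k, hk⟩
      refine ⟨Hk k, fun v hv i hi => hv i (by omega), ih (by omega),
        Multiplicative.ofAdd (b i₀), ?_, ?_, ?_⟩
      · intro i hi
        rw [toAdd_ofAdd, b.repr_self, Finsupp.single_apply, if_neg]
        intro h
        have : (i : ℕ) = k := by rw [← h]
        omega
      · intro y
        rw [mul_comm (Multiplicative.ofAdd (b i₀)) y, mul_inv_cancel_right]
      · intro j hj hmem
        have := hmem i₀ le_rfl
        rw [toAdd_pow, toAdd_ofAdd, map_nsmul, Finsupp.smul_apply, b.repr_self,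
          Finsupp.single_eq_same] at this
        simp at this
        omega
  exact (key _ le_rfl).mono le_top

/-- the statement of the crystallographic theorem -/
def CTStatement : Prop :=
  ∀ (Γ L : Type) [Group Γ] [Group.IsSolvable Γ] [AddCommGroup L] [Module.Free ℤ L]
    [Module.Finite ℤ L] [DistribMulAction Γ L] (ι : Multiplicative L →* Γ),
    CT.Cryst Γ L ι → 1 ≤ Module.finrank ℤ L → GenBy (Module.finrank ℤ L) Γ

/-- an infinite f.g. soluble just infinite group is crystallographic -/
theorem justInfinite_genBy (hCT : CTStatement) {Γ : Type} [Group Γ] [Group.FG Γ]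
    [Group.IsSolvable Γ] [hinf : Infinite Γ]
    (hJ : ∀ N : Subgroup Γ, N.Normal → N ≠ ⊥ → N.index ≠ 0) :
    ∃ s : ℕ, 1 ≤ s ∧ GenBy s Γ ∧ ZLen s (⊤ : Subgroup Γ) := by
  classical
  -- a finite normal subgroup is trivial
  have hfinbot : ∀ N : Subgroup Γ, N.Normal → Finite N → N = ⊥ := by
    intro N hN hfin
    by_contra hne
    have h1 := hJ N hN hne
    have h2 : Finite Γ := by
      apply Nat.finite_of_card_ne_zero
      rw [← N.card_mul_index]
      exact mul_ne_zero Nat.card_pos.ne' h1
    exact not_finite_iff_infinite.2 hinf h2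
  -- last nontrivial term of the derived series
  obtain ⟨A, hA, hAne, hAcomm⟩ : ∃ A : Subgroup Γ, A.Normal ∧ A ≠ ⊥ ∧
      ∀ x ∈ A, ∀ y ∈ A, x * y = y * x := by
    have hex : ∃ n, derivedSeries Γ n = ⊥ := (Group.isSolvable_def Γ).1 inferInstance
    let n := Nat.find hex
    have hn : derivedSeries Γ n = ⊥ := Nat.find_spec hex
    have hn0 : n ≠ 0 := by
      intro h0
      rw [h0, derivedSeries_zero] at hn
      have : Subsingleton Γ := by
        constructor
        intro a b
        have ha : a ∈ (⊤ : Subgroup Γ) := Subgroup.mem_top a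
        have hb : b ∈ (⊤ : Subgroup Γ) := Subgroup.mem_top b
        rw [hn, Subgroup.mem_bot] at ha hb
        rw [ha, hb]
      exact not_finite_iff_infinite.2 hinf inferInstance
    obtain ⟨k, hk⟩ := Nat.exists_eq_succ_of_ne_zero hn0
    refine ⟨derivedSeries Γ k, derivedSeries_normal Γ k, ?_, ?_⟩
    · exact Nat.find_min hex (by change k < n; omega)
    · intro x hx y hy
      have : x * y * x⁻¹ * y⁻¹ ∈ derivedSeries Γ (k+1) := by
        rw [derivedSeries_succ]
        exact Subgroup.commutator_mem_commutator hx hy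
      rw [← Nat.succ_eq_add_one, ← hk, hn, Subgroup.mem_bot, mul_inv_eq_one,
        mul_inv_eq_iff_eq_mul] at this
      exact this
  have hAidx := hJ A hA hAne
  let C : Subgroup Γ := Subgroup.centralizer (A : Set Γ)
  have hCn : C.Normal := inferInstance
  have hAC : A ≤ C := by
    intro x hx
    rw [Subgroup.mem_centralizer_iff]
    intro y hy
    exact hAcomm y hy x hx
  have hCfi : C.FiniteIndex := ⟨by
    intro h0
    have := Subgroup.index_dvd_of_le hAC
    rw [h0] at this
    exact hAidx (Nat.eq_zero_of_zero_dvd this)⟩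
  have hCfg : Group.FG C := inferInstance
  -- commutativity of C by Schur
  have hcen : (Subgroup.center C).index ≠ 0 := by
    have h1 : A.subgroupOf C ≤ Subgroup.center C := by
      intro x hx
      rw [Subgroup.mem_center_iff]
      intro g
      apply Subtype.ext
      exact ((Subgroup.mem_centralizer_iff.1 g.2) x hx).symm
    have h2 : (A.subgroupOf C).index ≠ 0 := by
      intro h0
      apply hAidx
      rw [← Subgroup.relIndex_mul_index hAC, Subgroup.relIndex, h0, zero_mul]
    intro h0
    have := Subgroup.index_dvd_of_le h1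
    rw [h0] at this
    exact h2 (Nat.eq_zero_of_zero_dvd this)
  have hcs : Finite (commutatorSet C) := by
    have hfq : Finite (C ⧸ Subgroup.center C) := Subgroup.index_ne_zero_iff_finite.1 hcen
    let f : (C ⧸ Subgroup.center C) × (C ⧸ Subgroup.center C) → C := fun q =>
      q.1.out * q.2.out * (q.1.out)⁻¹ * (q.2.out)⁻¹
    apply (Set.finite_range f).subset
    rintro _ ⟨g₁, g₂, rfl⟩
    refine ⟨(QuotientGroup.mk g₁, QuotientGroup.mk g₂), ?_⟩
    have key : ∀ g : C, ∃ z ∈ Subgroup.center C,
        ((QuotientGroup.mk g : C ⧸ Subgroup.center C)).out = g * z := by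
      intro g
      refine ⟨g⁻¹ * ((QuotientGroup.mk g : C ⧸ Subgroup.center C)).out, ?_, by group⟩
      rw [← QuotientGroup.eq]
      exact (Quotient.out_eq' _).symm
    obtain ⟨z₁, hz₁, e₁⟩ := key g₁
    obtain ⟨z₂, hz₂, e₂⟩ := key g₂
    have hz₁' : ∀ g : C, z₁ * g = g * z₁ := fun g => (Subgroup.mem_center_iff.1 hz₁ g).symm
    have hz₂' : ∀ g : C, z₂ * g = g * z₂ := fun g => (Subgroup.mem_center_iff.1 hz₂ g).symm
    simp only [f]
    rw [e₁, e₂, commutatorElement_def]
    have : g₁ * z₁ * (g₂ * z₂) * (g₁ * z₁)⁻¹ * (g₂ * z₂)⁻¹ =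
        g₁ * (z₁ * (g₂ * z₂)) * z₁⁻¹ * g₁⁻¹ * z₂⁻¹ * g₂⁻¹ := by group
    rw [this, hz₁']
    have : g₁ * (g₂ * z₂ * z₁) * z₁⁻¹ * g₁⁻¹ * z₂⁻¹ * g₂⁻¹ =
        g₁ * g₂ * (z₂ * g₁⁻¹) * z₂⁻¹ * g₂⁻¹ := by group
    rw [this, hz₂']
    group
  have hcomfin : Finite (commutator C) := inferInstance
  have hCcomm : ∀ x ∈ C, ∀ y ∈ C, x * y = y * x := by
    have h1 : ⁅C, C⁆ = ⊥ := by
      apply hfinbot _ inferInstance
      have h2 : ⁅C, C⁆ = (commutator C).map C.subtype := by
        rw [_root_.commutator_def, Subgroup.map_commutator, ← MonoidHom.range_eq_map,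
          Subgroup.range_subtype]
      rw [h2]
      exact Set.Finite.to_subtype (Set.Finite.image _ (Set.toFinite _))
    intro x hx y hy
    have : x * y * x⁻¹ * y⁻¹ ∈ ⁅C, C⁆ := Subgroup.commutator_mem_commutator hx hy
    rw [h1, Subgroup.mem_bot, mul_inv_eq_one, mul_inv_eq_iff_eq_mul] at this
    exact this
  let _ : CommGroup C := { (inferInstance : Group C) with
    mul_comm := fun a b => Subtype.ext (hCcomm a a.2 b b.2) }
  -- C is torsion free
  have hCtf : ∀ x ∈ C, ∀ n : ℕ, 0 < n → x ^ n = 1 → x = 1 := by
    let τ : Subgroup Γ :=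
      { carrier := {x | x ∈ C ∧ ∃ n : ℕ, 0 < n ∧ x ^ n = 1}
        one_mem' := ⟨C.one_mem, 1, Nat.one_pos, by simp⟩
        mul_mem' := by
          rintro a b ⟨ha, n, hn, han⟩ ⟨hb, m, hm, hbm⟩
          refine ⟨C.mul_mem ha hb, n * m, Nat.mul_pos hn hm, ?_⟩
          have : Commute a b := hCcomm a ha b hb
          rw [this.mul_pow, pow_mul, han, one_pow, mul_comm n m, pow_mul, hbm, one_pow, one_mul]
        inv_mem' := by
          rintro a ⟨ha, n, hn, han⟩
          exact ⟨C.inv_mem ha, n, hn, by rw [inv_pow, han, inv_one]⟩ }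
    have hτn : τ.Normal := by
      constructor
      rintro a ⟨ha, n, hn, han⟩ g
      exact ⟨hCn.conj_mem a ha g, n, hn, by rw [conj_pow, han]; simp⟩
    have hτ : τ = ⊥ := by
      by_contra hne
      have h1 := hJ τ hτn hne
      have : τ.FiniteIndex := ⟨h1⟩
      have hfgτ : Group.FG τ := inferInstance
      let _ : CommGroup τ := { (inferInstance : Group τ) with
        mul_comm := fun a b => Subtype.ext (hCcomm a a.2.1 b b.2.1) }
      have hτfin : Finite τ := by
        apply CommGroup.finite_of_fg_isMulTorsion
        intro x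
        obtain ⟨n, hn, hxn⟩ := x.2.2
        rw [isOfFinOrder_iff_pow_eq_one]
        exact ⟨n, hn, Subtype.ext (by simpa using hxn)⟩
      exact hne (hfinbot τ hτn hτfin)
    intro x hx n hn hxn
    have : x ∈ τ := ⟨hx, n, hn, hxn⟩
    rwa [hτ, Subgroup.mem_bot] at this
  have hfgL : Module.Finite ℤ (Additive C) :=
    Module.Finite.iff_addGroup_fg.2 (GroupFG.iff_add_fg.1 hCfg)
  have htfL : Module.IsTorsionFree ℤ (Additive C) := by
    apply Module.IsTorsionFree.of_smul_eq_zero
    intro r m hrm
    by_contra hcon
    push Not at hcon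
    obtain ⟨hr, hm⟩ := hcon
    apply hm
    apply Additive.toMul.injective
    apply Subtype.ext
    have hpos : 0 < r.natAbs := Int.natAbs_pos.2 hr
    apply hCtf _ (Additive.toMul m).2 r.natAbs hpos
    have h1 : (r.natAbs : ℤ) • m = 0 := by
      rcases Int.natAbs_eq r with h | h
      · rw [← h]; exact hrm
      · have h2 : (r.natAbs : ℤ) = -r := by omega
        rw [h2, neg_smul, hrm, neg_zero]
    rw [natCast_zsmul] at h1
    have h3 := congrArg (fun x : Additive C => ((Additive.toMul x : C) : Γ)) h1
    simpa using h3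
  let act : DistribMulAction Γ (Additive C) :=
    { smul := fun g t => Additive.ofMul (MulAut.conjNormal g (Additive.toMul t))
      one_smul := by
        intro t
        change Additive.ofMul (MulAut.conjNormal 1 (Additive.toMul t)) = t
        rw [map_one]; rfl
      mul_smul := by
        intro g h t
        change Additive.ofMul (MulAut.conjNormal (g * h) (Additive.toMul t)) =
          Additive.ofMul (MulAut.conjNormal g (MulAut.conjNormal h (Additive.toMul t)))
        rw [map_mul]; rfl
      smul_zero := by
        intro g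
        change Additive.ofMul (MulAut.conjNormal g (1 : C)) = 0
        rw [map_one]; rfl
      smul_add := by
        intro g s t
        change Additive.ofMul (MulAut.conjNormal g (Additive.toMul s * Additive.toMul t)) = _
        rw [map_mul]; rfl }
  have hsmul : ∀ (g : Γ) (t : Additive C), ((Additive.toMul (g • t) : C) : Γ) =
      g * ((Additive.toMul t : C) : Γ) * g⁻¹ := fun g t => MulAut.conjNormal_apply _ _
  let ι : Multiplicative (Additive C) →* Γ :=
    { toFun := fun v => ((Additive.toMul (Multiplicative.toAdd v) : C) : Γ)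
      map_one' := rfl
      map_mul' := fun _ _ => rfl }
  have hιinj : Function.Injective ι := by
    intro v w h
    apply Multiplicative.toAdd.injective
    apply Additive.toMul.injective
    exact Subtype.ext h
  have hιrange : ι.range = C := by
    ext x
    constructor
    · rintro ⟨v, rfl⟩
      exact (Additive.toMul (Multiplicative.toAdd v) : C).2
    · intro hx
      exact ⟨Multiplicative.ofAdd (Additive.ofMul ⟨x, hx⟩), rfl⟩
  have hCr : CT.Cryst Γ (Additive C) ι :=
    { inj := hιinj
      conj := fun g v => (hsmul g v).symm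
      fin := by rw [hιrange]; exact hCfi
      self := by
        intro g hg
        rw [hιrange, Subgroup.mem_centralizer_iff]
        intro a ha
        have h1 := hg (Additive.ofMul ⟨a, hAC ha⟩)
        have h2 := hsmul g (Additive.ofMul ⟨a, hAC ha⟩)
        rw [h1] at h2
        change a = g * a * g⁻¹ at h2
        rw [eq_mul_inv_iff_mul_eq] at h2
        exact h2
      irr := by
        intro U hU hne
        let U' : Subgroup Γ := (AddSubgroup.toSubgroup U).map ι
        have hU'n : U'.Normal := by
          constructor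
          rintro _ ⟨v, hv, rfl⟩ g
          refine ⟨Multiplicative.ofAdd (g • Multiplicative.toAdd v), hU g _ hv, ?_⟩
          exact hsmul g _
        have hU'ne : U' ≠ ⊥ := by
          intro h0
          apply hne
          rw [eq_bot_iff]
          intro v hv
          have h1 : ι (Multiplicative.ofAdd v) ∈ U' := ⟨_, hv, rfl⟩
          rw [h0, Subgroup.mem_bot] at h1
          have h2 := hιinj (h1.trans (map_one ι).symm)
          exact Multiplicative.ofAdd.injective h2
        have h1 := hJ U' hU'n hU'ne
        have hle : U' ≤ ι.range := by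
          rintro _ ⟨v, _, rfl⟩
          exact ⟨v, rfl⟩
        have h2 : U'.relIndex ι.range ≠ 0 := by
          intro h0
          apply h1
          rw [← Subgroup.relIndex_mul_index hle, h0, zero_mul]
        have h3 : ι.range = (⊤ : Subgroup (Multiplicative (Additive C))).map ι := by
          rw [MonoidHom.range_eq_map]
        rw [h3, Subgroup.relIndex_map_map_of_injective _ _ hιinj, Subgroup.relIndex_top_right] at h2
        exact ⟨h2⟩ }
  have hs1 : 1 ≤ Module.finrank ℤ (Additive C) := by
    rw [Nat.one_le_iff_ne_zero]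
    intro h0
    have hsub : Subsingleton (Additive C) := Module.finrank_zero_iff.1 h0
    apply hAne
    rw [eq_bot_iff]
    intro a ha
    have : (Additive.ofMul (⟨a, hAC ha⟩ : C)) = 0 := Subsingleton.elim _ _
    have h2 := congrArg (fun x : Additive C => ((Additive.toMul x : C) : Γ)) this
    exact h2
  refine ⟨Module.finrank ℤ (Additive C), hs1, hCT Γ (Additive C) ι hCr hs1, ?_⟩
  exact ((zlen_lattice (Additive C)).map ι hιinj).mono le_top

end Pool.MP_b7b920_al.H55
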