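import Mathlib
import Pool.Agent.Lib.MP_b7b920_al_h55.UA
import Pool.Agent.Lib.MP_b7b920_al_h55.Lower

set_option autoImplicit false

namespace Pool.MP_b7b920_al.H55

open Subgroup

theorem exists_quotient (hCT : CTStatement) (K : Type) [Group K] [Group.FG K]
    [Group.IsSolvable K] [Infinite K] :
    ∃ (N : Subgroup K) (_ : N.Normal) (s : ℕ), 1 ≤ s ∧ GenBy s (K ⧸ N) ∧
      ZLen s (⊤ : Subgroup (K ⧸ N)) := by
  obtain ⟨N, hN, hidx, hmax⟩ := exists_justInfinite (K := K)
  have hinf : Infinite (K ⧸ N) := by
    rw [← not_finite_iff_infinite]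
    intro h
    exact (Subgroup.index_ne_zero_iff_finite.2 h) hidx
  have hfg : Group.FG (K ⧸ N) := Group.fg_of_surjective (QuotientGroup.mk'_surjective N)
  obtain ⟨s, h1, h2, h3⟩ := justInfinite_genBy hCT (Γ := K ⧸ N) (by
    intro M hM hne h0
    apply hne
    have h1 : (M.comap (QuotientGroup.mk' N)).index = 0 := by
      rw [Subgroup.index_comap_of_surjective _ (QuotientGroup.mk'_surjective N), h0]
    have h2 : N ≤ M.comap (QuotientGroup.mk' N) := by
      intro x hx
      rw [Subgroup.mem_comap]
      have : QuotientGroup.mk' N x = 1 := (QuotientGroup.eq_one_iff _).2 hx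
      rw [this]
      exact M.one_mem
    have h3 := hmax _ (hM.comap _) h2 h1
    have h4 : M = (M.comap (QuotientGroup.mk' N)).map (QuotientGroup.mk' N) :=
      (Subgroup.map_comap_eq_self_of_surjective (QuotientGroup.mk'_surjective N) M).symm
    rw [h4, h3, eq_bot_iff]
    rintro _ ⟨x, hx, rfl⟩
    exact (QuotientGroup.eq_one_iff _).2 hx)
  exact ⟨N, hN, s, h1, h2, h3⟩

/-- an element of a closure lies in the closure of finitely many elements together with a set -/
theorem exists_finset_closure {K : Type*} [Group K] (S R : Set K) (x : K)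
    (hx : x ∈ Subgroup.closure (S ∪ R)) :
    ∃ F : Finset K, (F : Set K) ⊆ S ∧ x ∈ Subgroup.closure ((F : Set K) ∪ R) := by
  classical
  induction hx using Subgroup.closure_induction with
  | mem x hx =>
    rcases hx with hx | hx
    · exact ⟨{x}, by simpa using hx, Subgroup.subset_closure (Or.inl (by simp))⟩
    · exact ⟨∅, by simp, Subgroup.subset_closure (Or.inr hx)⟩
  | one => exact ⟨∅, by simp, Subgroup.one_mem _⟩
  | mul a b _ _ iha ihb =>
    obtain ⟨F, hF, ha⟩ := iha
    obtain ⟨F', hF', hb⟩ := ihb
    refine ⟨F ∪ F', by rw [Finset.coe_union]; exact Set.union_subset hF hF', ?_⟩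
    rw [Finset.coe_union]
    refine Subgroup.mul_mem _ (Subgroup.closure_mono ?_ ha) (Subgroup.closure_mono ?_ hb)
    · exact Set.union_subset_union_left _ Set.subset_union_left
    · exact Set.union_subset_union_left _ Set.subset_union_right
  | inv a _ iha =>
    obtain ⟨F, hF, ha⟩ := iha
    exact ⟨F, hF, Subgroup.inv_mem _ ha⟩

/-- **Claim (U)**: a f.g. soluble group of Hirsch length at most `n` is generated by a finite
subgroup and `n` elements (modulo the crystallographic theorem) -/
theorem claimA (hCT : CTStatement) (n : ℕ) : ∀ (K : Type) [Group K] [Group.FG K]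
    [Group.IsSolvable K], ¬ ZLen (n + 1) (⊤ : Subgroup K) → GenBy n K := by
  classical
  induction n using Nat.strong_induction_on with
  | _ n ih =>
    intro K _ hfg _ hz
    rcases finite_or_infinite K with hfin | hinf
    · refine ⟨⊤, inferInstance, fun _ => 1, ?_⟩
      rw [eq_top_iff]
      intro x _
      exact Subgroup.subset_closure (Or.inl (Subgroup.mem_top x))
    · obtain ⟨N, hN, s, hs1, ⟨E, hE, f, hf⟩, hsz⟩ := exists_quotient hCT K
      let π := QuotientGroup.mk' N
      have hπ : Function.Surjective π := QuotientGroup.mk'_surjective N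
      have hker : π.ker = N := QuotientGroup.ker_mk' N
      -- s ≤ n
      have hsn : s ≤ n := by
        by_contra hlt
        apply hz
        have h1 : ZLen s ((⊤ : Subgroup (K ⧸ N)).comap π) :=
          hsz.comap π (by rw [MonoidHom.range_eq_top.2 hπ])
        rw [Subgroup.comap_top] at h1
        exact h1.of_le (by omega)
      -- lifts
      choose y hy using fun i => hπ (f i)
      let Nt : Subgroup K := E.comap π
      have hNt : N ≤ Nt := by
        intro x hx
        rw [Subgroup.mem_comap]
        have : π x = 1 := (QuotientGroup.eq_one_iff _).2 hx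
        rw [this]
        exact E.one_mem
      have hgen : Subgroup.closure ((Nt : Set K) ∪ Set.range y) = ⊤ := by
        have h1 : (Subgroup.closure ((Nt : Set K) ∪ Set.range y)).map π = ⊤ := by
          rw [MonoidHom.map_closure, Set.image_union, ← hf]
          congr 2
          · ext q
            constructor
            · rintro ⟨x, hx, rfl⟩
              exact hx
            · intro hq
              obtain ⟨x, rfl⟩ := hπ q
              exact ⟨x, hq, rfl⟩
          · rw [← Set.range_comp]
            congr 1
            funext i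
            exact hy i
        rw [eq_top_iff]
        intro x _
        have h2 : π x ∈ (Subgroup.closure ((Nt : Set K) ∪ Set.range y)).map π := by
          rw [h1]; exact Subgroup.mem_top _
        obtain ⟨x', hx', hxx'⟩ := h2
        have h3 : x'⁻¹ * x ∈ N := by
          rw [← hker, MonoidHom.mem_ker, map_mul, map_inv, hxx', inv_mul_cancel]
        have h4 : x = x' * (x'⁻¹ * x) := by group
        rw [h4]
        exact Subgroup.mul_mem _ hx' (Subgroup.subset_closure (Or.inl (hNt h3)))
      obtain ⟨S, hS⟩ := hfg.out
      choose F hF1 hF2 using fun x : K => exists_finset_closure (Nt : Set K) (Set.range y) x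
        (by rw [hgen]; exact Subgroup.mem_top x)
      let F₀ : Finset K := S.biUnion F
      let N₀ : Subgroup K := Subgroup.closure (F₀ : Set K)
      have hN₀ : N₀ ≤ Nt := by
        rw [Subgroup.closure_le]
        intro x hx
        simp only [F₀, Finset.coe_biUnion, Set.mem_iUnion] at hx
        obtain ⟨a, _, hx⟩ := hx
        exact hF1 a hx
      have hgen₀ : Subgroup.closure ((N₀ : Set K) ∪ Set.range y) = ⊤ := by
        rw [eq_top_iff, ← hS, Subgroup.closure_le]
        intro a ha
        apply Subgroup.closure_mono _ (hF2 a)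
        apply Set.union_subset_union_left
        intro x hx
        apply Subgroup.subset_closure
        simp only [F₀, Finset.coe_biUnion, Set.mem_iUnion]
        exact ⟨a, ha, hx⟩
      have hfg₀ : Group.FG N₀ := (Group.fg_iff_subgroup_fg N₀).2 ⟨F₀, rfl⟩
      -- Hirsch length of N₀
      have hz₀ : ¬ ZLen (n - s + 1) (⊤ : Subgroup N₀) := by
        intro h
        have h1 : ZLen (n - s + 1) N₀ := by
          have := h.map N₀.subtype N₀.subtype_injective
          rwa [← MonoidHom.range_eq_map, Subgroup.range_subtype] at this
        have h2 : ZLen (n - s + 1) (N₀ ⊓ N) := by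
          apply ZLen.inf_of_pow _ h1
          intro x hx
          have hxE : π x ∈ E := hN₀ hx
          have h3 : IsOfFinOrder (⟨π x, hxE⟩ : E) := isOfFinOrder_of_finite _
          rw [isOfFinOrder_iff_pow_eq_one] at h3
          obtain ⟨k, hk, hxk⟩ := h3
          refine ⟨k, hk, ?_⟩
          have h4 : (π x) ^ k = 1 := congrArg Subtype.val hxk
          rw [← hker, MonoidHom.mem_ker, map_pow, h4]
        have h3 : ZLen (n - s + 1) π.ker := by
          rw [hker]
          exact h2.mono inf_le_right
        have h4 := ZLen.add π h3 (H := ⊤) (by rw [MonoidHom.range_eq_top.2 hπ]) hsz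
        rw [Subgroup.comap_top] at h4
        apply hz
        have h5 : n - s + 1 + s = n + 1 := by omega
        rwa [h5] at h4
      obtain ⟨E', hE', f', hf'⟩ := ih (n - s) (by omega) N₀ hz₀
      refine ⟨E'.map N₀.subtype, ?_, ?_⟩
      · exact Set.Finite.to_subtype (Set.Finite.image _ (Set.toFinite _))
      · have hns : n = (n - s) + s := by omega
        refine ⟨fun i => Fin.append (fun j => (f' j : K)) y (Fin.cast hns i), ?_⟩
        rw [eq_top_iff, ← hgen₀, Subgroup.closure_le]
        rintro x (hx | ⟨i, rfl⟩)
        · have h1 : (⟨x, hx⟩ : N₀) ∈ Subgroup.closure ((E' : Set N₀) ∪ Set.range f') := by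
            rw [hf']; exact Subgroup.mem_top _
          have h2 : x ∈ (Subgroup.closure ((E' : Set N₀) ∪ Set.range f')).map N₀.subtype :=
            ⟨_, h1, rfl⟩
          rw [MonoidHom.map_closure] at h2
          apply Subgroup.closure_mono _ h2
          rintro _ ⟨z, hz | ⟨j, rfl⟩, rfl⟩
          · exact Or.inl ⟨z, hz, rfl⟩
          · refine Or.inr ⟨Fin.cast hns.symm (Fin.castAdd s j), ?_⟩
            simp
        · refine Subgroup.subset_closure (Or.inr ⟨Fin.cast hns.symm (Fin.natAdd (n - s) i), ?_⟩)
          simp

/-- final assembly (modulo the crystallographic theorem) -/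
theorem main_of_CT (hCT : CTStatement) (G : Type) [Group G] [Group.IsSolvable G]
    (htf : ∀ g : G, IsOfFinOrder g → g = 1) (H : Subgroup G) (hH : H.index ≠ 0) (r : ℕ) :
    ((∀ K : Subgroup G, K.FG →
        ∃ s : Finset G, s.card ≤ r ∧ Subgroup.closure (s : Set G) = K) ↔
     (∀ K : Subgroup G, K ≤ H → K.FG →
        ∃ s : Finset G, s.card ≤ r ∧ Subgroup.closure (s : Set G) = K)) := by
  classical
  constructor
  · intro h K _ hK
    exact h K hK
  · intro h K hK
    have hfgK : Group.FG K := (Group.fg_iff_subgroup_fg K).2 hK
    -- RankLE r (H ⊓ K)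
    have hrank : RankLE r H := by
      intro M hM
      obtain ⟨s, hs, hsM⟩ := h (M.map H.subtype) (by
        rintro _ ⟨x, _, rfl⟩
        exact x.2) (fg_map _ hM)
      have hsub : (s : Set G) ⊆ Set.range H.subtype := by
        intro x hx
        have : x ∈ M.map H.subtype := hsM ▸ Subgroup.subset_closure hx
        obtain ⟨y, _, rfl⟩ := this
        exact ⟨y, rfl⟩
      refine ⟨s.preimage H.subtype H.subtype_injective.injOn, ?_, ?_⟩
      · refine le_trans ?_ hs
        rw [← Finset.card_image_of_injective _ H.subtype_injective]
        exact Finset.card_le_card (by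
          intro x hx
          simp only [Finset.mem_image, Finset.mem_preimage] at hx
          obtain ⟨y, hy, rfl⟩ := hx
          exact hy)
      · apply Subgroup.map_injective H.subtype_injective
        rw [MonoidHom.map_closure, ← hsM, Finset.coe_preimage, Set.image_preimage_eq_of_subset hsub]
    have hnz : ¬ ZLen (r + 1) (⊤ : Subgroup K) := by
      intro hz
      have h1 : ZLen (r + 1) K := by
        have := hz.map K.subtype K.subtype_injective
        rwa [← MonoidHom.range_eq_map, Subgroup.range_subtype] at this
      have h2 : ZLen (r + 1) (K ⊓ H) := by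
        apply ZLen.inf_of_pow _ h1
        intro x _
        obtain ⟨j, hj, _, hxj⟩ := Subgroup.exists_pow_mem_of_index_ne_zero hH x
        exact ⟨j, hj, hxj⟩
      have h3 : ZLen (r + 1) ((K ⊓ H).comap H.subtype) :=
        h2.comap H.subtype (by rw [Subgroup.range_subtype]; exact inf_le_right)
      exact not_zlen hrank (h3.mono le_top)
    obtain ⟨E, hE, f, hf⟩ := claimA hCT r K hnz
    have hE1 : ∀ x ∈ E, x = 1 := by
      intro x hx
      have h1 : IsOfFinOrder (⟨x, hx⟩ : E) := isOfFinOrder_of_finite _
      have h2 : IsOfFinOrder x := E.subtype.isOfFinOrder h1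
      have h3 : IsOfFinOrder (x : G) := K.subtype.isOfFinOrder h2
      exact Subtype.ext (htf _ h3)
    refine ⟨Finset.univ.image (fun i => (f i : G)), Finset.card_image_le.trans (by simp), ?_⟩
    have h1 : Subgroup.closure (Set.range f) = ⊤ := by
      rw [eq_top_iff, ← hf, Subgroup.closure_le]
      rintro x (hx | hx)
      · rw [hE1 x hx]
        exact Subgroup.one_mem _
      · exact Subgroup.subset_closure hx
    have h2 := congrArg (Subgroup.map K.subtype) h1
    rw [MonoidHom.map_closure, ← MonoidHom.range_eq_map, Subgroup.range_subtype,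
      ← Set.range_comp] at h2
    rw [Finset.coe_image, Finset.coe_univ, Set.image_univ]
    exact h2

end Pool.MP_b7b920_al.H55
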